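import Mathlib.Algebra.MvPolynomial.Basic
import Mathlib.CategoryTheory.Category.Init

/-! Circuits with binary sum and product gates: size, depth, width, formal degree. -/

namespace Pool.Agent.MP_1a6d78_lc.h61

/-- An argument of a gate: an input, a constant, or another gate. -/
inductive Arg (σ K G : Type) : Type
  | var (i : σ)
  | const (c : K)
  | gate (g : G)

/-- The value of an argument when the inputs, constants and gates have the values `x`, `k`, `v`. -/
def Arg.val {σ K G R : Type} (x : σ → R) (k : K → R) (v : G → R) : Arg σ K G → R
  | .var i => x i
  | .const c => k c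
  | .gate g => v g

/-- A circuit with inputs indexed by `σ`, constants from `K` and `size` gates. Gate `g` is the
product (if `isMul g`) or the sum of its two arguments `left g` and `right g`. -/
structure Circuit (σ K : Type) : Type where
  size : ℕ
  isMul : Fin size → Bool
  left : Fin size → Arg σ K (Fin size)
  right : Fin size → Arg σ K (Fin size)
  out : Fin size

namespace Circuit

variable {σ K : Type} (C : Circuit σ K)

/-- There is a wire from gate `g'` to gate `g`. -/
def Reads (g g' : Fin C.size) : Prop := C.left g = .gate g' ∨ C.right g = .gate g'

/-- The values `v` of the gates obey all gate equations. -/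
def Obeys {R : Type} [Add R] [Mul R] (x : σ → R) (k : K → R) (v : Fin C.size → R) : Prop :=
  ∀ g, v g = if C.isMul g then (C.left g).val x k v * (C.right g).val x k v
    else (C.left g).val x k v + (C.right g).val x k v

/-- The circuit is acyclic and every path contains at most `d` gates. -/
def DepthLE (d : ℕ) : Prop :=
  ∃ lev : Fin C.size → ℕ, (∀ g, 1 ≤ lev g ∧ lev g ≤ d) ∧ ∀ g g', C.Reads g g' → lev g' < lev g

/-- The gates are arranged in levels of at most `w` gates each, and every wire between two gates
goes from a level to the next one (inputs and constants may feed gates of any level). -/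
def WidthLE (w : ℕ) : Prop :=
  ∃ lev : Fin C.size → ℕ, (∀ g g', C.Reads g g' → lev g = lev g' + 1) ∧
    ∀ i, (Finset.univ.filter fun g => lev g = i).card ≤ w

/-- The formal degree of the output gate is at most `D`: there are numbers `dg g` that bound the
sum (at a product gate) or the maximum (at a sum gate) of the numbers of the two arguments, an
input counting `1` and a constant `0`, and `dg` of the output gate is at most `D`. -/
def FormalDegLE (D : ℕ) : Prop :=
  ∃ dg : Fin C.size → ℕ, dg C.out ≤ D ∧ ∀ g,
    (if C.isMul g then
      (C.left g).val (fun _ => 1) (fun _ => 0) dg + (C.right g).val (fun _ => 1) (fun _ => 0) dg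
    else max ((C.left g).val (fun _ => 1) (fun _ => 0) dg)
      ((C.right g).val (fun _ => 1) (fun _ => 0) dg)) ≤ dg g

/-- The circuit computes the polynomial `f`. -/
def ComputesPoly [CommSemiring K] (f : MvPolynomial σ K) : Prop :=
  ∃ v : Fin C.size → MvPolynomial σ K, C.Obeys MvPolynomial.X MvPolynomial.C v ∧ v C.out = f

end Circuit

/-- Arithmetic formulas with binary sum and product gates. -/
inductive Formula (σ K : Type) : Type
  | var (i : σ)
  | const (c : K)
  | add (a b : Formula σ K)
  | mul (a b : Formula σ K)

/-- The polynomial computed by a formula. -/
noncomputable def Formula.eval {σ K : Type} [CommSemiring K] : Formula σ K → MvPolynomial σ K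
  | .var i => MvPolynomial.X i
  | .const c => MvPolynomial.C c
  | .add a b => a.eval + b.eval
  | .mul a b => a.eval * b.eval

/-- The depth of a formula. -/
def Formula.depth {σ K : Type} : Formula σ K → ℕ
  | .var _ => 0
  | .const _ => 0
  | .add a b => max a.depth b.depth + 1
  | .mul a b => max a.depth b.depth + 1

end Pool.Agent.MP_1a6d78_lc.h61
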