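import Mathlib.Algebra.Polynomial.Eval.Defs
import Mathlib.Algebra.Polynomial.Degree.Defs
import Mathlib.Tactic.SuppressCompilation
import Mathlib.Tactic.Cases
import Pool.Agent.MP_1a6d78_lc.h61.ArithDefs

set_option linter.unusedSectionVars false

namespace Pool.Agent.MP_1a6d78_lc.h61

/-! Running a layered circuit from an intermediate level. -/

section part0


open MvPolynomial

theorem Arg.val_congr {σ K G R : Type} (x : σ → R) (k : K → R) {v v' : G → R} (a : Arg σ K G)
    (h : ∀ g, a = .gate g → v g = v' g) : a.val x k v = a.val x k v' := by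
  cases a with
  | var i => rfl
  | const c => rfl
  | gate g => exact h g rfl

variable {σ K : Type} {Γ : Circuit σ K}

/-- The value of gate `g` computed from the values `v` of the other gates. -/
def Circuit.op (Γ : Circuit σ K) {R : Type} [Add R] [Mul R] (x : σ → R) (k : K → R)
    (v : Fin Γ.size → R) (g : Fin Γ.size) : R :=
  if Γ.isMul g then (Γ.left g).val x k v * (Γ.right g).val x k v
  else (Γ.left g).val x k v + (Γ.right g).val x k v

theorem op_congr {R : Type} [Add R] [Mul R] (x : σ → R) (k : K → R) {v v' : Fin Γ.size → R}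
    (g : Fin Γ.size) (h : ∀ g', Γ.Reads g g' → v g' = v' g') : Γ.op x k v g = Γ.op x k v' g := by
  unfold Circuit.op
  rw [Arg.val_congr x k (Γ.left g) fun g' hg => h g' (Or.inl hg),
    Arg.val_congr x k (Γ.right g) fun g' hg => h g' (Or.inr hg)]

theorem exists_run {R : Type} [Add R] [Mul R] (x : σ → R) (k : K → R) (lev : Fin Γ.size → ℕ)
    (hlev : ∀ g g', Γ.Reads g g' → lev g' < lev g) (c : ℕ) (y : Fin Γ.size → R) :
    ∃ v : Fin Γ.size → R, (∀ g, lev g ≤ c → v g = y g) ∧ ∀ g, c < lev g → v g = Γ.op x k v g := by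
  classical
  have key : ∀ n, ∃ v : Fin Γ.size → R, (∀ g, lev g ≤ c → v g = y g) ∧
      ∀ g, c < lev g → lev g < n → v g = Γ.op x k v g := by
    intro n
    induction n with
    | zero => exact ⟨y, fun _ _ => rfl, fun _ _ h => absurd h (Nat.not_lt_zero _)⟩
    | succ n ih =>
      obtain ⟨v, h1, h2⟩ := ih
      refine ⟨fun g => if c < lev g ∧ lev g = n then Γ.op x k v g else v g, fun g hg => ?_,
        fun g hg hn => ?_⟩
      · have : ¬ (c < lev g ∧ lev g = n) := by omega
        simp only [if_neg this, h1 g hg]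
      · rw [op_congr x k (v' := v) g fun g' hg' => by
          have := hlev g g' hg'
          have h3 : ¬ (c < lev g' ∧ lev g' = n) := by omega
          simp only [if_neg h3]]
        by_cases h : lev g = n
        · exact if_pos ⟨hg, h⟩
        · have h3 : ¬ (c < lev g ∧ lev g = n) := by omega
          simp only [if_neg h3]
          exact h2 g hg (by omega)
  obtain ⟨v, h1, h2⟩ := key (Finset.univ.sup lev + 1)
  exact ⟨v, h1, fun g hg => h2 g hg (Nat.lt_succ_of_le (Finset.le_sup (Finset.mem_univ g)))⟩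

/-- A set of gates that contains the arguments of its gates above level `c`. -/
def Closed (Γ : Circuit σ K) (lev : Fin Γ.size → ℕ) (c : ℕ) (A : Finset (Fin Γ.size)) : Prop :=
  ∀ g ∈ A, c < lev g → ∀ g', Γ.Reads g g' → g' ∈ A

theorem run_unique {R : Type} [Add R] [Mul R] (x : σ → R) (k : K → R) {lev : Fin Γ.size → ℕ}
    (hlev : ∀ g g', Γ.Reads g g' → lev g = lev g' + 1) {c : ℕ} {A : Finset (Fin Γ.size)}
    (hA : Closed Γ lev c A) {v v' : Fin Γ.size → R}
    (hv : ∀ g, c < lev g → v g = Γ.op x k v g) (hv' : ∀ g, c < lev g → v' g = Γ.op x k v' g)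
    (h0 : ∀ g ∈ A, lev g = c → v g = v' g) : ∀ g ∈ A, c ≤ lev g → v g = v' g := by
  intro g
  induction' hn : lev g using Nat.strong_induction_on with n ih generalizing g
  intro hg hc
  rcases hc.eq_or_lt with h | h
  · exact h0 g hg (by omega)
  · rw [hv g (by omega), hv' g (by omega)]
    refine op_congr x k g fun g' hg' => ?_
    have := hlev g g' hg'
    exact ih (lev g') (by omega) g' rfl (hA g hg (by omega) g' hg') (by omega)

/-- The degree attached to an argument. -/
def adeg {G : Type} (dg : G → ℕ) (a : Arg σ K G) : ℕ := a.val (fun _ => 1) (fun _ => 0) dg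

/-- `dg` bounds the formal degrees. -/
def DegOK (Γ : Circuit σ K) (dg : Fin Γ.size → ℕ) : Prop :=
  ∀ g, (if Γ.isMul g then adeg dg (Γ.left g) + adeg dg (Γ.right g)
    else max (adeg dg (Γ.left g)) (adeg dg (Γ.right g))) ≤ dg g

theorem DegOK.left {dg : Fin Γ.size → ℕ} (h : DegOK Γ dg) (g : Fin Γ.size) :
    adeg dg (Γ.left g) ≤ dg g := by
  have := h g
  split_ifs at this <;> omega

theorem DegOK.right {dg : Fin Γ.size → ℕ} (h : DegOK Γ dg) (g : Fin Γ.size) :
    adeg dg (Γ.right g) ≤ dg g := by
  have := h g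
  split_ifs at this <;> omega

theorem DegOK.reads {dg : Fin Γ.size → ℕ} (h : DegOK Γ dg) {g g' : Fin Γ.size}
    (hg : Γ.Reads g g') : dg g' ≤ dg g := by
  rcases hg with hg | hg
  · have := h.left g; rwa [hg] at this
  · have := h.right g; rwa [hg] at this

variable [CommSemiring K]

theorem const_of_deg_zero {lev dg : Fin Γ.size → ℕ}
    (hlev : ∀ g g', Γ.Reads g g' → lev g = lev g' + 1) (hdg : DegOK Γ dg) {c : ℕ}
    {v : Fin Γ.size → MvPolynomial σ K} (h0 : ∀ g, lev g ≤ c → ∃ a, v g = C a)
    (hv : ∀ g, c < lev g → v g = Γ.op X C v g) : ∀ g, dg g = 0 → ∃ a, v g = C a := by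
  intro g
  induction' hn : lev g using Nat.strong_induction_on with n ih generalizing g
  intro hg
  by_cases hc : lev g ≤ c
  · exact h0 g hc
  have arg : ∀ a : Arg σ K (Fin Γ.size), adeg dg a = 0 → (∀ g', a = .gate g' → Γ.Reads g g') →
      ∃ b, a.val X C v = C b := by
    intro a ha hr
    cases a with
    | var i => simp [adeg, Arg.val] at ha
    | const c => exact ⟨c, rfl⟩
    | gate g' =>
      have := hlev g g' (hr g' rfl)
      exact ih (lev g') (by omega) g' rfl ha
  obtain ⟨a, ha⟩ := arg (Γ.left g) (by have := hdg.left g; omega) fun g' h => Or.inl h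
  obtain ⟨b, hb⟩ := arg (Γ.right g) (by have := hdg.right g; omega) fun g' h => Or.inr h
  rw [hv g (by omega), Circuit.op, ha, hb]
  split_ifs
  · exact ⟨a * b, by simp⟩
  · exact ⟨a + b, by simp⟩

theorem poly_in_register {lev dg : Fin Γ.size → ℕ}
    (hlev : ∀ g g', Γ.Reads g g' → lev g = lev g' + 1) (hdg : DegOK Γ dg) {c : ℕ}
    (y : Fin Γ.size → MvPolynomial σ K) (i : Fin Γ.size)
    (v : MvPolynomial σ K → Fin Γ.size → MvPolynomial σ K)
    (h0 : ∀ z g, lev g ≤ c → v z g = Function.update y i z g)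
    (hv : ∀ z g, c < lev g → v z g = Γ.op X C (v z) g) :
    ∀ g, ∃ p : Polynomial (MvPolynomial σ K), p.natDegree * dg i ≤ dg g ∧
      ∀ z, v z g = p.eval z := by
  intro g
  induction' hn : lev g using Nat.strong_induction_on with n ih generalizing g
  by_cases hc : lev g ≤ c
  · by_cases hi : g = i
    · subst hi
      refine ⟨Polynomial.X, ?_, fun z => by simp [h0 z g hc]⟩
      calc _ ≤ 1 * dg g := Nat.mul_le_mul_right _ Polynomial.natDegree_X_le
        _ = dg g := one_mul _
    · exact ⟨Polynomial.C (y g), by simp, fun z => by simp [h0 z g hc, Function.update_of_ne hi]⟩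
  have arg : ∀ a : Arg σ K (Fin Γ.size), (∀ g', a = .gate g' → Γ.Reads g g') →
      ∃ p : Polynomial (MvPolynomial σ K), p.natDegree * dg i ≤ adeg dg a ∧
        ∀ z, a.val X C (v z) = p.eval z := by
    intro a hr
    cases a with
    | var j => exact ⟨Polynomial.C (X j), by simp, fun z => by simp [Arg.val]⟩
    | const c => exact ⟨Polynomial.C (C c), by simp, fun z => by simp [Arg.val]⟩
    | gate g' =>
      have := hlev g g' (hr g' rfl)
      exact ih (lev g') (by omega) g' rfl
  obtain ⟨p, hp, hp'⟩ := arg (Γ.left g) fun g' h => Or.inl h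
  obtain ⟨q, hq, hq'⟩ := arg (Γ.right g) fun g' h => Or.inr h
  have hd := hdg g
  by_cases hm : Γ.isMul g
  · refine ⟨p * q, ?_, fun z => by rw [hv z g (by omega), Circuit.op, if_pos hm, hp', hq']; simp⟩
    rw [if_pos hm] at hd
    have := Nat.mul_le_mul_right (dg i) (Polynomial.natDegree_mul_le (p := p) (q := q))
    rw [add_mul] at this
    omega
  · refine ⟨p + q, ?_, fun z => by rw [hv z g (by omega), Circuit.op, if_neg hm, hp', hq']; simp⟩
    rw [if_neg hm] at hd
    have := Nat.mul_le_mul_right (dg i) (Polynomial.natDegree_add_le p q)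
    rcases le_total p.natDegree q.natDegree with h | h
    · rw [max_eq_right h] at this; omega
    · rw [max_eq_left h] at this; omega

end part0

end Pool.Agent.MP_1a6d78_lc.h61
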