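import Mathlib.Data.Int.ConditionallyCompleteOrder
import Mathlib.Data.Int.Star
import Mathlib.Algebra.Order.Ring.Star
import Mathlib.LinearAlgebra.Lagrange
import Mathlib.RingTheory.SimpleRing.Principal
import Mathlib.RingTheory.Henselian
import Mathlib.RingTheory.RegularLocalRing.Defs
import Mathlib.Tactic.Polynomial.Basic
import Pool.Agent.MP_1a6d78_lc.h61.Run

set_option linter.unusedSectionVars false

namespace Pool.Agent.MP_1a6d78_lc.h61

/-! Polynomials with shallow formulas; Lagrange interpolation. -/

section part0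


open MvPolynomial

variable {σ K : Type}

/-- `p` has a formula of depth at most `d`. -/
def HD [CommSemiring K] (p : MvPolynomial σ K) (d : ℕ) : Prop :=
  ∃ φ : Formula σ K, φ.eval = p ∧ φ.depth ≤ d

section semi
variable [CommSemiring K]

theorem HD.mono {p : MvPolynomial σ K} {d e : ℕ} (h : HD p d) (hde : d ≤ e) : HD p e := by
  obtain ⟨φ, h1, h2⟩ := h
  exact ⟨φ, h1, h2.trans hde⟩

theorem HD.const (c : K) (d : ℕ) : HD (C c : MvPolynomial σ K) d :=
  ⟨.const c, rfl, Nat.zero_le _⟩

theorem HD.var (i : σ) (d : ℕ) : HD (X i : MvPolynomial σ K) d :=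
  ⟨.var i, rfl, Nat.zero_le _⟩

theorem HD.zero (d : ℕ) : HD (0 : MvPolynomial σ K) d := by
  simpa using HD.const (σ := σ) (0 : K) d

theorem HD.one (d : ℕ) : HD (1 : MvPolynomial σ K) d := by
  simpa using HD.const (σ := σ) (1 : K) d

theorem HD.add {p q : MvPolynomial σ K} {d : ℕ} (hp : HD p d) (hq : HD q d) :
    HD (p + q) (d + 1) := by
  obtain ⟨φ, rfl, h2⟩ := hp
  obtain ⟨ψ, rfl, h4⟩ := hq
  exact ⟨.add φ ψ, rfl, by simp only [Formula.depth]; omega⟩

theorem HD.mul {p q : MvPolynomial σ K} {d : ℕ} (hp : HD p d) (hq : HD q d) :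
    HD (p * q) (d + 1) := by
  obtain ⟨φ, rfl, h2⟩ := hp
  obtain ⟨ψ, rfl, h4⟩ := hq
  exact ⟨.mul φ ψ, rfl, by simp only [Formula.depth]; omega⟩

theorem split_half {ι : Type} [DecidableEq ι] (s : Finset ι) (m : ℕ) (hs : s.card ≤ 2 * m) :
    ∃ t ⊆ s, t.card ≤ m ∧ (s \ t).card ≤ m := by
  by_cases h : s.card ≤ m
  · exact ⟨s, subset_rfl, h, by simp⟩
  · obtain ⟨t, ht, hc⟩ := Finset.exists_subset_card_eq (s := s) (n := m) (by omega)
    refine ⟨t, ht, hc.le, ?_⟩
    rw [Finset.card_sdiff_of_subset ht]
    omega

theorem HD.sum {ι : Type} (f : ι → MvPolynomial σ K) (d j : ℕ) :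
    ∀ s : Finset ι, s.card ≤ 2 ^ j → (∀ i ∈ s, HD (f i) d) → HD (∑ i ∈ s, f i) (d + j) := by
  classical
  induction j with
  | zero =>
    intro s hs h
    rcases s.eq_empty_or_nonempty with rfl | ⟨a, ha⟩
    · simpa using HD.zero _
    · have : s = {a} := Finset.eq_singleton_iff_unique_mem.2
        ⟨ha, fun b hb => Finset.card_le_one.1 (by simpa using hs) b hb a ha⟩
      subst this
      simpa using h a ha
  | succ j ih =>
    intro s hs h
    obtain ⟨t, ht, h1, h2⟩ := split_half s (2 ^ j) (by rw [pow_succ] at hs; omega)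
    rw [← Finset.sum_sdiff ht]
    exact (ih _ h2 fun i hi => h i (Finset.sdiff_subset hi)).add (ih _ h1 fun i hi => h i (ht hi))

theorem HD.prod {ι : Type} (f : ι → MvPolynomial σ K) (d j : ℕ) :
    ∀ s : Finset ι, s.card ≤ 2 ^ j → (∀ i ∈ s, HD (f i) d) → HD (∏ i ∈ s, f i) (d + j) := by
  classical
  induction j with
  | zero =>
    intro s hs h
    rcases s.eq_empty_or_nonempty with rfl | ⟨a, ha⟩
    · simpa using HD.one _
    · have : s = {a} := Finset.eq_singleton_iff_unique_mem.2
        ⟨ha, fun b hb => Finset.card_le_one.1 (by simpa using hs) b hb a ha⟩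
      subst this
      simpa using h a ha
  | succ j ih =>
    intro s hs h
    obtain ⟨t, ht, h1, h2⟩ := split_half s (2 ^ j) (by rw [pow_succ] at hs; omega)
    rw [← Finset.prod_sdiff ht]
    exact (ih _ h2 fun i hi => h i (Finset.sdiff_subset hi)).mul (ih _ h1 fun i hi => h i (ht hi))

end semi

section field
variable [Field K]

theorem lagrange_pow [DecidableEq K] (s : Finset K) (m : ℕ) (hm : m < s.card)
    (z : MvPolynomial σ K) :
    z ^ m = ∑ x ∈ s, (C x : MvPolynomial σ K) ^ m *
      ∏ y ∈ s.erase x, (C (x - y)⁻¹ * (z + C (-y))) := by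
  have h := Lagrange.eq_interpolate (s := s) (v := id) (f := Polynomial.X ^ m)
    (Set.injOn_id _) (by rw [Polynomial.degree_X_pow]; exact_mod_cast hm)
  have h2 := congrArg (Polynomial.aeval z) h
  rw [Lagrange.interpolate_apply] at h2
  simp only [map_pow, Polynomial.aeval_X, map_sum, map_mul, Lagrange.basis, map_prod,
    Lagrange.basisDivisor, id, Polynomial.eval_pow, Polynomial.eval_X, Polynomial.aeval_C,
    map_sub, algebraMap_eq] at h2
  rw [h2]
  simp only [map_neg, sub_eq_add_neg]

theorem lagrange_eval [DecidableEq K] (s : Finset K) (p : Polynomial (MvPolynomial σ K))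
    (hp : p.natDegree < s.card) (z : MvPolynomial σ K) :
    p.eval z = ∑ x ∈ s, p.eval (C x) * ∏ y ∈ s.erase x, (C (x - y)⁻¹ * (z + C (-y))) := by
  simp only [Polynomial.eval_eq_sum_range, Finset.sum_mul]
  rw [Finset.sum_comm]
  refine Finset.sum_congr rfl fun m hm => ?_
  rw [lagrange_pow s m (by have := Finset.mem_range.1 hm; omega) z, Finset.mul_sum]
  exact Finset.sum_congr rfl fun x _ => by ring

/-- Depth of the value of a polynomial of small degree at a point. -/
theorem HD.interp (s : Finset K) (p : Polynomial (MvPolynomial σ K)) (j b dz : ℕ)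
    (hs : p.natDegree < s.card) (hj : p.natDegree + 1 ≤ 2 ^ j) (z : MvPolynomial σ K)
    (hz : HD z dz) (hb : dz + 2 + j ≤ b) (hp : ∀ x : K, HD (p.eval (C x)) b) :
    HD (p.eval z) (b + 1 + j) := by
  classical
  obtain ⟨t, -, hc⟩ := Finset.exists_subset_card_eq (s := s) (n := p.natDegree + 1) hs
  rw [lagrange_eval t p (by omega) z]
  refine HD.sum _ _ _ _ (by omega) fun x hx => (hp x).mul (HD.mono ?_ hb)
  refine HD.prod _ _ _ _ (by rw [Finset.card_erase_of_mem hx]; omega) fun y _ => ?_
  exact (HD.const _ _).mul (hz.add (HD.const _ _))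

end field

end part0

/-! The gates of high degree obey an affine recurrence over the other gates. -/

section part1


open MvPolynomial

/-- Product of consecutive matrices. -/
def mprod {n R : Type} [Fintype n] [DecidableEq n] [Semiring R] (M : ℕ → Matrix n n R) (a : ℕ) :
    ℕ → Matrix n n R
  | 0 => 1
  | k + 1 => M (a + k) * mprod M a k

theorem mprod_add {n R : Type} [Fintype n] [DecidableEq n] [Semiring R] (M : ℕ → Matrix n n R)
    (a m k : ℕ) : mprod M a (m + k) = mprod M (a + m) k * mprod M a m := by
  induction k with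
  | zero => simp [mprod]
  | succ k ih => rw [← add_assoc, mprod, mprod, ih, Matrix.mul_assoc, add_assoc]

variable {σ K : Type} [CommSemiring K]

theorem mprod_depth {n : Type} [Fintype n] [DecidableEq n]
    (M : ℕ → Matrix n n (MvPolynomial σ K)) (S : ℕ → Finset n) (c t e jw : ℕ)
    (hS : ∀ u, c < u → u ≤ t → (S u).card ≤ 2 ^ jw)
    (hrow : ∀ u o k, o ∉ S (u + 1) → M u o k = 0)
    (hM : ∀ u, c ≤ u → u < t → ∀ o k, HD (M u o k) e) :
    ∀ j a m, 1 ≤ m → m ≤ 2 ^ j → c ≤ a → a + m ≤ t →
      ∀ o k, HD (mprod M a m o k) (e + j * (jw + 1)) := by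
  intro j
  induction j with
  | zero =>
    intro a m h1 h2 ha ht o k
    have : m = 1 := by omega
    subst this
    simpa [mprod] using hM a ha (by omega) o k
  | succ j ih =>
    intro a m h1 h2 ha ht o k
    by_cases hm : m ≤ 2 ^ j
    · exact (ih a m h1 hm ha ht o k).mono (by nlinarith)
    obtain ⟨r, rfl⟩ : ∃ r, m = 2 ^ j + r := ⟨m - 2 ^ j, by omega⟩
    have hj : 1 ≤ 2 ^ j := Nat.one_le_two_pow
    rw [pow_succ] at h2
    rw [mprod_add, Matrix.mul_apply, ← Finset.sum_subset (Finset.subset_univ (S (a + 2 ^ j)))]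
    · have := HD.sum (fun l => mprod M (a + 2 ^ j) r o l * mprod M a (2 ^ j) l k)
        (e + j * (jw + 1) + 1) jw (S (a + 2 ^ j)) (hS _ (by omega) (by omega)) fun l _ =>
          (ih (a + 2 ^ j) r (by omega) (by omega) (by omega) (by omega) o l).mul
            (ih a (2 ^ j) hj le_rfl ha (by omega) l k)
      exact this.mono (by nlinarith)
    · intro l _ hl
      obtain ⟨q, hq⟩ : ∃ q, 2 ^ j = q + 1 := ⟨2 ^ j - 1, by omega⟩
      have : mprod M a (2 ^ j) l k = 0 := by
        rw [hq] at hl ⊢
        rw [mprod, Matrix.mul_apply]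
        exact Finset.sum_eq_zero fun x _ => by rw [hrow (a + q) l x hl, zero_mul]
      rw [this, mul_zero]

variable {Γ : Circuit σ K}

theorem core {lev : Fin Γ.size → ℕ} (hlev : ∀ g g', Γ.Reads g g' → lev g = lev g' + 1)
    (H : Finset (Fin Γ.size)) (c t e jw jt : ℕ) (v : Fin Γ.size → MvPolynomial σ K)
    (hv : ∀ g, c < lev g → v g = Γ.op X C v g) (hH : ∀ g ∈ H, c < lev g ∧ lev g ≤ t)
    (hw : ∀ u, (H.filter fun g => lev g = u).card + 1 ≤ 2 ^ jw) (ht : t ≤ c + 2 ^ jt)
    (hmul : ∀ g ∈ H, Γ.isMul g → ∀ a ∈ H, ∀ b ∈ H, Γ.left g = .gate a → Γ.right g ≠ .gate b)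
    (hl : ∀ g ∈ H, ∀ g', Γ.Reads g g' → g' ∉ H → HD (v g') e) :
    ∀ g ∈ H, HD (v g) (e + 1 + jt * (jw + 1)) := by
  classical
  let hv' : Arg σ K (Fin Γ.size) → Prop := fun a => ∃ h ∈ H, a = .gate h
  let row : Arg σ K (Fin Γ.size) → Option (Fin Γ.size) → MvPolynomial σ K := fun a k =>
    if hv' a then (if ∃ h, k = some h ∧ a = .gate h then 1 else 0)
    else if k = none then a.val X C v else 0
  let V : ℕ → Option (Fin Γ.size) → MvPolynomial σ K := fun u o =>
    o.elim 1 fun h => if h ∈ H ∧ lev h = u then v h else 0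
  let M : ℕ → Matrix (Option (Fin Γ.size)) (Option (Fin Γ.size)) (MvPolynomial σ K) :=
    fun u o k => o.elim (if k = none then 1 else 0) fun g =>
      if g ∈ H ∧ lev g = u + 1 then
        (if Γ.isMul g then
          (if hv' (Γ.left g) then (Γ.right g).val X C v * row (Γ.left g) k
            else (Γ.left g).val X C v * row (Γ.right g) k)
        else row (Γ.left g) k + row (Γ.right g) k)
      else 0
  have hrow : ∀ u (a : Arg σ K (Fin Γ.size)), (∀ h, a = .gate h → lev h = u) →
      ∑ k, row a k * V u k = a.val X C v := by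
    intro u a ha
    by_cases h : hv' a
    · obtain ⟨h0, hh, rfl⟩ := id h
      rw [Finset.sum_eq_single (some h0)]
      · simp [row, h, V, hh, ha h0 rfl, Arg.val]
      · intro k _ hk
        have : ¬ ∃ h, k = some h ∧ (Arg.gate h0 : Arg σ K _) = .gate h := by
          rintro ⟨h1, rfl, h2⟩
          cases h2
          exact hk rfl
        simp only [row, if_pos h, if_neg this, zero_mul]
      · simp
    · rw [Finset.sum_eq_single none]
      · simp [row, h, V]
      · intro k _ hk
        simp [row, h, hk]
      · simp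
  have hstep : ∀ u, V (u + 1) = (M u).mulVec (V u) := by
    intro u
    funext o
    rw [Matrix.mulVec, dotProduct]
    cases o with
    | none =>
      rw [Finset.sum_eq_single none]
      · simp [M, V]
      · intro k _ hk
        simp [M, hk]
      · simp
    | some g =>
      by_cases hg : g ∈ H ∧ lev g = u + 1
      · have h1 := hrow u (Γ.left g) fun h hh => by have := hlev g h (Or.inl hh); omega
        have h2 := hrow u (Γ.right g) fun h hh => by have := hlev g h (Or.inr hh); omega
        simp only [V, M, Option.elim, if_pos hg] at h1 h2 ⊢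
        rw [hv g (hH g hg.1).1, Circuit.op]
        split_ifs with hm hh
        · simp only [mul_assoc, ← Finset.mul_sum, h1]
          exact mul_comm _ _
        · simp only [mul_assoc, ← Finset.mul_sum, h2]
        · simp only [add_mul, Finset.sum_add_distrib, h1, h2]
      · simp only [V, M, Option.elim, if_neg hg, zero_mul, Finset.sum_const_zero]
  have hprod : ∀ m, V (c + m) = (mprod M c m).mulVec (V c) := by
    intro m
    induction m with
    | zero => simp [mprod]
    | succ m ih => rw [← add_assoc, hstep, ih, mprod, Matrix.mulVec_mulVec]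
  have hargd : ∀ g ∈ H, ∀ a : Arg σ K (Fin Γ.size), (∀ h, a = .gate h → Γ.Reads g h) →
      ¬ hv' a → HD (a.val X C v) e := by
    intro g hg a ha hn
    cases a with
    | var i => exact HD.var _ _
    | const x => exact HD.const _ _
    | gate h => exact hl g hg h (ha h rfl) fun hh => hn ⟨h, hh, rfl⟩
  have hrowd : ∀ g ∈ H, ∀ a : Arg σ K (Fin Γ.size), (∀ h, a = .gate h → Γ.Reads g h) →
      ∀ k, HD (row a k) e := by
    intro g hg a ha k
    simp only [row]
    split_ifs with h1 h2 h3
    · exact HD.one _
    · exact HD.zero _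
    · exact hargd g hg a ha h1
    · exact HD.zero _
  have hd := mprod_depth M
    (fun u => insert none ((H.filter fun g => lev g = u).map ⟨some, Option.some_injective _⟩))
    c t (e + 1) jw
    (fun u _ _ => (Finset.card_insert_le _ _).trans (by rw [Finset.card_map]; exact hw u))
    (by
      intro u o k ho
      cases o with
      | none => simp at ho
      | some g =>
        have : ¬ (g ∈ H ∧ lev g = u + 1) := by simpa using ho
        simp only [M, Option.elim, if_neg this])
    (by
      intro u _ _ o k
      cases o with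
      | none =>
        simp only [M, Option.elim]
        split_ifs
        · exact HD.one _
        · exact HD.zero _
      | some g =>
        simp only [M, Option.elim]
        split_ifs with hg hm hh
        · refine (hargd g hg.1 _ (fun h hh => Or.inr hh) ?_).mul
            (hrowd g hg.1 _ (fun h hh => Or.inl hh) k)
          rintro ⟨b, hb, hb'⟩
          obtain ⟨a, ha, ha'⟩ := hh
          exact hmul g hg.1 hm a ha b hb ha' hb'
        · exact (hargd g hg.1 _ (fun h hh => Or.inl hh) hh).mul
            (hrowd g hg.1 _ (fun h hh => Or.inr hh) k)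
        · exact (hrowd g hg.1 _ (fun h hh => Or.inl hh) k).add
            (hrowd g hg.1 _ (fun h hh => Or.inr hh) k)
        · exact HD.zero _)
  intro g hg
  obtain ⟨h1, h2⟩ := hH g hg
  have h3 := congrFun (hprod (lev g - c)) (some g)
  rw [Matrix.mulVec, dotProduct, Finset.sum_eq_single none] at h3
  · have h4 : c + (lev g - c) = lev g := by omega
    simp only [V, Option.elim, h4, hg, and_self, if_true, mul_one] at h3
    rw [h3]
    exact hd jt c (lev g - c) (by omega) (by omega) le_rfl (by omega) _ _
  · intro k _ hk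
    cases k with
    | none => exact absurd rfl hk
    | some h =>
      have : ¬ (h ∈ H ∧ lev h = c) := fun hh => by have := (hH h hh.1).1; omega
      simp only [V, Option.elim, if_neg this, mul_zero]
  · simp

end part1

/-! Depth reduction for narrow circuits of small formal degree. -/

section part2


open MvPolynomial

variable {σ K : Type} [Field K] {Γ : Circuit σ K}

theorem log_div_add (δ d : ℕ) (hd : 1 ≤ d) (h : 2 * d ≤ δ) :
    1 ≤ Nat.log 2 (δ / d) ∧ Nat.log 2 d + Nat.log 2 (δ / d) ≤ Nat.log 2 δ := by
  have h2 : 2 ≤ δ / d := (Nat.le_div_iff_mul_le hd).2 h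
  refine ⟨Nat.le_log_of_pow_le (by norm_num) (by simpa using h2), ?_⟩
  refine Nat.le_log_of_pow_le (by norm_num) ?_
  rw [pow_add]
  calc _ ≤ d * (δ / d) :=
        Nat.mul_le_mul (Nat.pow_log_le_self 2 (by omega)) (Nat.pow_log_le_self 2 (by omega))
    _ ≤ δ := Nat.mul_div_le _ _

/-- Removing the registers of a cut one after the other, heaviest first. -/
theorem nested {lev dg : Fin Γ.size → ℕ} (hlev : ∀ g g', Γ.Reads g g' → lev g = lev g' + 1)
    (hdg : DegOK Γ dg) (s : Finset K) (c : ℕ)
    (run : (Fin Γ.size → MvPolynomial σ K) → Fin Γ.size → MvPolynomial σ K)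
    (h0 : ∀ y g, lev g ≤ c → run y g = y g)
    (hv : ∀ y g, c < lev g → run y g = Γ.op X C (run y) g)
    (g : Fin Γ.size) (hs : dg g < s.card) (z : Fin Γ.size → MvPolynomial σ K)
    (dz : Fin Γ.size → ℕ) (E : ℕ) (hE : ∀ μ : Fin Γ.size → K, HD (run (fun i => C (μ i)) g) E) :
    ∀ S : Finset (Fin Γ.size), (∀ i ∈ S, 1 ≤ dg i ∧ HD (z i) (dz i)) → ∀ b,
      E + S.card * (Nat.log 2 (dg g) + 2) ≤ b →
      (∀ i ∈ S, dz i + 2 + (Nat.log 2 (dg g / dg i) + 1) +
        S.card * (Nat.log 2 (dg g / dg i) + 2) ≤ b) →
      ∀ μ : Fin Γ.size → K, HD (run (fun i => if i ∈ S then z i else C (μ i)) g) b := by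
  classical
  intro S
  induction S using Finset.induction_on_max_value dg with
  | empty =>
    intro _ b hb _ μ
    simpa using (hE μ).mono (by omega)
  | insert i S hi hmax ih =>
    intro hS b hb1 hb2 μ
    rw [Finset.card_insert_of_notMem hi] at hb1 hb2
    obtain ⟨hi1, hi2⟩ := hS i (Finset.mem_insert_self _ _)
    obtain ⟨p, hp, hp'⟩ := poly_in_register hlev hdg (c := c)
      (fun k => if k ∈ S then z k else C (μ k)) i
      (fun x => run (Function.update (fun k => if k ∈ S then z k else C (μ k)) i x))
      (fun x k hk => h0 _ k hk) (fun x k hk => hv _ k hk) g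
    have hpd : p.natDegree ≤ dg g / dg i := (Nat.le_div_iff_mul_le hi1).2 hp
    have hle : dg g / dg i ≤ dg g := Nat.div_le_self _ _
    obtain ⟨r, hr⟩ : ∃ r, r = Nat.log 2 (dg g / dg i) := ⟨_, rfl⟩
    have hr1 : r ≤ Nat.log 2 (dg g) := hr ▸ Nat.log_mono_right hle
    have hr2 : dg g / dg i < 2 ^ (r + 1) := hr ▸ Nat.lt_pow_succ_log_self (by norm_num) _
    have hbi := hb2 i (Finset.mem_insert_self _ _)
    rw [← hr, add_mul, one_mul] at hbi
    rw [add_mul, one_mul] at hb1
    have e1 : (fun k => if k ∈ insert i S then z k else C (μ k)) =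
        Function.update (fun k => if k ∈ S then z k else C (μ k)) i (z i) := by
      funext k
      by_cases hk : k = i
      · subst hk; simp
      · simp [hk]
    rw [e1, hp']
    refine (HD.interp s p (r + 1) (b - (r + 2)) (dz i) (by omega) (by omega) (z i) hi2
      (by omega) fun x => ?_).mono (by omega)
    have e2 : Function.update (fun k => if k ∈ S then z k else C (μ k)) i (C x) =
        fun k => if k ∈ S then z k else C (Function.update μ i x k) := by
      funext k
      by_cases hk : k = i
      · subst hk; simp [hi]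
      · simp [Function.update_of_ne hk]
    rw [← hp', e2]
    refine ih (fun k hk => hS k (Finset.mem_insert_of_mem hk)) _ (by omega) (fun k hk => ?_) _
    have h1 := hb2 k (Finset.mem_insert_of_mem hk)
    have h2 : r ≤ Nat.log 2 (dg g / dg k) := hr ▸ Nat.log_mono_right
      (Nat.div_le_div_left (hmax k hk) (hS k (Finset.mem_insert_of_mem hk)).1)
    rw [add_mul, one_mul] at h1
    omega

theorem main_bound {lev dg : Fin Γ.size → ℕ} (hlev : ∀ g g', Γ.Reads g g' → lev g = lev g' + 1)
    (hdg : DegOK Γ dg) (s : Finset K) (D W jw jt : ℕ) (hs : D < s.card) (hW : W + 1 ≤ 2 ^ jw) :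
    ∀ w, w ≤ W → ∀ (a : ℕ) (A : Finset (Fin Γ.size)), Closed Γ lev a A →
      (∀ u, a < u → (A.filter fun g => lev g = u).card ≤ w) →
      ∀ v : Fin Γ.size → MvPolynomial σ K, (∀ g, lev g ≤ a → ∃ x, v g = C x) →
      (∀ g, a < lev g → v g = Γ.op X C v g) →
      ∀ g ∈ A, lev g ≤ a + 2 ^ jt → dg g ≤ D →
        HD (v g) (w * (1 + jt * (jw + 1) + W * (Nat.log 2 D + 2) + (3 * W + 4) * Nat.log 2 D)) := by
  classical
  obtain ⟨Q, hQ⟩ : ∃ Q, Q = 1 + jt * (jw + 1) + W * (Nat.log 2 D + 2) +
    (3 * W + 4) * Nat.log 2 D := ⟨_, rfl⟩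
  rw [← hQ]
  intro w
  induction w with
  | zero =>
    intro _ a A _ hw v hv0 _ g hg _ _
    by_cases h : lev g ≤ a
    · obtain ⟨x, hx⟩ := hv0 g h
      rw [hx]
      exact HD.const _ _
    · have h1 := hw (lev g) (by omega)
      have h2 : g ∈ A.filter fun g' => lev g' = lev g := by simp [hg]
      have := Finset.card_pos.2 ⟨g, h2⟩
      omega
  | succ w ih =>
    intro hwW a A hA hw v hv0 hv
    have key : ∀ g ∈ A, lev g ≤ a + 2 ^ jt → dg g ≤ D → HD (v g)
        (w * Q + 1 + jt * (jw + 1) + W * (Nat.log 2 D + 2) + (3 * W + 4) * Nat.log 2 (dg g)) := by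
      intro g
      induction' hn : dg g using Nat.strong_induction_on with δ ihδ generalizing g
      subst hn
      intro hg hgt hgD
      by_cases hga : lev g ≤ a
      · obtain ⟨x, hx⟩ := hv0 g hga
        rw [hx]
        exact HD.const _ _
      by_cases hδ : dg g = 0
      · obtain ⟨x, hx⟩ := const_of_deg_zero hlev hdg hv0 hv g hδ
        rw [hx]
        exact HD.const _ _
      let P : ℕ → Prop := fun l => l = a ∨ (a < l ∧ ∀ h ∈ A, lev h = l → 2 * dg h ≤ dg g)
      obtain ⟨c, hc⟩ : ∃ c, c = Nat.findGreatest P (lev g) := ⟨_, rfl⟩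
      have hPc : P c := hc ▸ Nat.findGreatest_spec (m := a) (by omega) (Or.inl rfl)
      have hcle : c ≤ lev g := hc ▸ Nat.findGreatest_le _
      have hac : a ≤ c := by rcases hPc with h | h <;> omega
      have hcg : c < lev g := by
        rcases hcle.eq_or_lt with h | h
        · rcases hPc with h' | h'
          · omega
          · have := h'.2 g hg h.symm
            omega
        · exact h
      have hbig : ∀ u, c < u → u ≤ lev g → ∃ h ∈ A, lev h = u ∧ dg g < 2 * dg h := by
        intro u h1 h2
        have h3 : ¬ P u := Nat.findGreatest_is_greatest (hc ▸ h1) h2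
        by_contra h4
        refine h3 (Or.inr ⟨by omega, fun h hh hl => ?_⟩)
        by_contra h5
        exact h4 ⟨h, hh, hl, by omega⟩
      have hcore : ∀ v' : Fin Γ.size → MvPolynomial σ K, (∀ h, lev h ≤ c → ∃ x, v' h = C x) →
          (∀ h, c < lev h → v' h = Γ.op X C v' h) → HD (v' g) (w * Q + 1 + jt * (jw + 1)) := by
        intro v' h0 h1
        have hlight := ih (by omega) c (A.filter fun h => 2 * dg h ≤ dg g ∧ lev h ≤ lev g)
          (by
            intro h hh hl h' hr
            rw [Finset.mem_filter] at hh ⊢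
            have := hlev h h' hr
            have := hdg.reads hr
            exact ⟨hA h hh.1 (by omega) h' hr, by omega, by omega⟩)
          (by
            intro u hu
            by_cases hug : u ≤ lev g
            · obtain ⟨h, hh, hl, hd⟩ := hbig u hu hug
              have h2 := hw u (by omega)
              have h3 : ((A.filter fun h => 2 * dg h ≤ dg g ∧ lev h ≤ lev g).filter
                  fun h => lev h = u) ⊆ (A.filter fun h => lev h = u).erase h := by
                intro k hk
                simp only [Finset.mem_filter, Finset.mem_erase] at hk ⊢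
                refine ⟨?_, hk.1.1, hk.2⟩
                rintro rfl
                omega
              have h4 := Finset.card_le_card h3
              rw [Finset.card_erase_of_mem (by simp [hh, hl])] at h4
              omega
            · rw [Finset.filter_eq_empty_iff.2]
              · simp
              · intro k hk
                simp only [Finset.mem_filter] at hk
                omega)
          v' h0 h1
        refine core hlev (A.filter fun h => c < lev h ∧ lev h ≤ lev g ∧ dg h ≤ dg g ∧
          dg g < 2 * dg h) c (lev g) (w * Q) jw jt v' h1 ?_ ?_ (by omega) ?_ ?_ g ?_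
        · intro h hh
          simp only [Finset.mem_filter] at hh
          omega
        · intro u
          by_cases hu : a < u
          · have h2 := hw u hu
            have h3 := Finset.card_le_card (Finset.filter_subset_filter (fun h => lev h = u)
              (Finset.filter_subset (fun h => c < lev h ∧ lev h ≤ lev g ∧ dg h ≤ dg g ∧
                dg g < 2 * dg h) A))
            omega
          · rw [Finset.filter_eq_empty_iff.2]
            · simpa using Nat.one_le_two_pow
            · intro k hk
              simp only [Finset.mem_filter] at hk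
              omega
        · intro h hh hm x hx y hy hl hr
          simp only [Finset.mem_filter] at hh hx hy
          have := hdg h
          rw [if_pos hm, hl, hr] at this
          simp only [adeg, Arg.val] at this
          omega
        · intro h hh h' hr hn
          simp only [Finset.mem_filter] at hh hn
          by_cases hl : lev h' ≤ c
          · obtain ⟨x, hx⟩ := h0 h' hl
            rw [hx]
            exact HD.const _ _
          have h2 := hlev h h' hr
          have h3 := hdg.reads hr
          have h4 := hA h hh.1 (by omega) h' hr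
          have h5 : 2 * dg h' ≤ dg g := by
            by_contra h6
            exact hn ⟨h4, by omega, by omega, by omega, by omega⟩
          exact hlight h' (by simp only [Finset.mem_filter]; exact ⟨h4, h5, by omega⟩)
            (by omega) (by omega)
        · simp only [Finset.mem_filter]
          exact ⟨hg, hcg, le_rfl, le_rfl, by omega⟩
      rcases hPc with hca | ⟨hca, hlt⟩
      · subst hca
        exact (hcore v hv0 hv).mono (by omega)
      choose run h0 h1 using exists_run (Γ := Γ) (X : σ → MvPolynomial σ K) C lev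
        (fun g g' h => by have := hlev g g' h; omega) c
      have hμ : ∀ i, ∃ x, dg i = 0 → v i = C x := by
        intro i
        by_cases hi : dg i = 0
        · obtain ⟨x, hx⟩ := const_of_deg_zero hlev hdg hv0 hv i hi
          exact ⟨x, fun _ => hx⟩
        · exact ⟨0, fun h => absurd h hi⟩
      choose μ hμ using hμ
      obtain ⟨S, hS⟩ : ∃ S, S = A.filter fun h => lev h = c ∧ 1 ≤ dg h := ⟨_, rfl⟩
      have hSc : S.card ≤ W := by
        have h2 := hw c hca
        have h3 : S ⊆ A.filter fun h => lev h = c := by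
          intro k hk
          simp only [hS, Finset.mem_filter] at hk ⊢
          exact ⟨hk.1, hk.2.1⟩
        have := Finset.card_le_card h3
        omega
      have hlog : Nat.log 2 (dg g) ≤ Nat.log 2 D := Nat.log_mono_right hgD
      have hn := nested hlev hdg s c run h0 h1 g (by omega) v
        (fun i => w * Q + 1 + jt * (jw + 1) + W * (Nat.log 2 D + 2) +
          (3 * W + 4) * Nat.log 2 (dg i)) (w * Q + 1 + jt * (jw + 1))
        (fun μ => hcore _ (fun h hh => ⟨μ h, h0 _ h hh⟩) (h1 _)) S
        (by
          intro i hi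
          simp only [hS, Finset.mem_filter] at hi
          have := hlt i hi.1 hi.2.1
          exact ⟨hi.2.2, ihδ (dg i) (by omega) i rfl hi.1 (by omega) (by omega)⟩)
        (w * Q + 1 + jt * (jw + 1) + W * (Nat.log 2 D + 2) + (3 * W + 4) * Nat.log 2 (dg g))
        (by
          have := Nat.mul_le_mul hSc (Nat.add_le_add_right hlog 2)
          omega)
        (by
          intro i hi
          simp only [hS, Finset.mem_filter] at hi
          obtain ⟨h2, h3⟩ := log_div_add (dg g) (dg i) hi.2.2 (hlt i hi.1 hi.2.1)
          have h4 := Nat.mul_le_mul_left (3 * W + 4) h3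
          have h5 := Nat.mul_le_mul_right (Nat.log 2 (dg g / dg i) + 2) hSc
          have h6 := Nat.mul_le_mul_left W h2
          nlinarith) μ
      have he := run_unique (X : σ → MvPolynomial σ K) C hlev (c := c) (A := A)
        (fun h hh hl => hA h hh (by omega)) (fun h hh => hv h (by omega))
        (h1 fun i => if i ∈ S then v i else C (μ i))
        (by
          intro h hh hl
          rw [h0 _ h hl.le]
          split_ifs with h2
          · rfl
          · refine hμ h ?_
            simp only [hS, Finset.mem_filter] at h2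
            by_contra h3
            exact h2 ⟨hh, hl, by omega⟩) g hg hcle
      rw [he]
      exact hn
    intro g hg h1 h2
    refine (key g hg h1 h2).mono ?_
    have := Nat.mul_le_mul_left (3 * W + 4) (Nat.log_mono_right (b := 2) h2)
    rw [add_mul w 1 Q, one_mul]
    omega

theorem reach_levels {σ K : Type} {Γ : Circuit σ K} {lev : Fin Γ.size → ℕ}
    (hlev : ∀ g g', Γ.Reads g g' → lev g = lev g' + 1) {o g : Fin Γ.size}
    (h : Relation.ReflTransGen Γ.Reads o g) : lev o < lev g + Γ.size := by
  have key : lev g ≤ lev o ∧ ∀ l, lev g ≤ l → l ≤ lev o → ∃ k, lev k = l := by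
    induction h with
    | refl => exact ⟨le_rfl, fun l h1 h2 => ⟨o, by omega⟩⟩
    | @tail b c _ hbc ih =>
      have := hlev b c hbc
      refine ⟨by omega, fun l h1 h2 => ?_⟩
      by_cases hl : l = lev c
      · exact ⟨c, hl.symm⟩
      · exact ih.2 l (by omega) h2
  have h1 : Finset.Icc (lev g) (lev o) ⊆ Finset.univ.image lev := by
    intro l hl
    rw [Finset.mem_Icc] at hl
    obtain ⟨k, hk⟩ := key.2 l hl.1 hl.2
    exact Finset.mem_image.2 ⟨k, Finset.mem_univ _, hk⟩
  have h2 := (Finset.card_le_card h1).trans Finset.card_image_le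
  simp only [Nat.card_Icc, Finset.card_univ, Fintype.card_fin] at h2
  omega

theorem width_to_depth (Γ : Circuit σ K) (w D : ℕ) (f : MvPolynomial σ K)
    (hK : ∃ s : Finset K, D < s.card) (hf : Γ.ComputesPoly f) (hw : Γ.WidthLE w)
    (hD : Γ.FormalDegLE D) :
    HD f (w * ((Nat.log 2 Γ.size + 1) * (Nat.log 2 w + 2) + 4 * (w + 1) * (Nat.log 2 D + 1))) := by
  classical
  obtain ⟨s, hs⟩ := hK
  obtain ⟨v, hv, rfl⟩ := hf
  obtain ⟨lev, hlev, hw⟩ := hw
  obtain ⟨dg, hD, hdg⟩ := hD
  have hlev' : ∀ g g', Γ.Reads g g' → lev g + Γ.size = lev g' + Γ.size + 1 := fun g g' h => by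
    have := hlev g g' h
    omega
  obtain ⟨v', h0, h1⟩ := exists_run (Γ := Γ) (X : σ → MvPolynomial σ K) C
    (fun g => lev g + Γ.size) (fun g g' h => by have := hlev g g' h; omega) (lev Γ.out)
    (fun _ => 0)
  obtain ⟨A, hA⟩ : ∃ A, A = Finset.univ.filter fun g => Relation.ReflTransGen Γ.Reads Γ.out g :=
    ⟨_, rfl⟩
  have hcl : Closed Γ (fun g => lev g + Γ.size) (lev Γ.out) A := by
    intro g hg _ g' hr
    simp only [hA, Finset.mem_filter, Finset.mem_univ, true_and] at hg ⊢
    exact hg.tail hr
  have hout : Γ.out ∈ A := by simp [hA, Relation.ReflTransGen.refl]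
  have he := run_unique (X : σ → MvPolynomial σ K) C hlev' hcl (v := v) (fun g _ => hv g) h1
    (by
      intro g hg hl
      simp only [hA, Finset.mem_filter, Finset.mem_univ, true_and] at hg
      have := reach_levels hlev hg
      omega) Γ.out hout (by omega)
  rw [he]
  have hs2 : Γ.size < 2 ^ (Nat.log 2 Γ.size + 1) := Nat.lt_pow_succ_log_self (by norm_num) _
  refine (main_bound hlev' hdg s D w (Nat.log 2 w + 1) (Nat.log 2 Γ.size + 1) hs
    (Nat.lt_pow_succ_log_self (by norm_num) _) w le_rfl (lev Γ.out) A hcl ?_ v'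
    (fun g hg => ⟨0, by simp [h0 g hg]⟩) h1 Γ.out hout (by omega) hD).mono ?_
  · intro u _
    refine le_trans (Finset.card_le_card ?_) (hw (u - Γ.size))
    intro g hg
    simp only [Finset.mem_filter, Finset.mem_univ, true_and] at hg ⊢
    omega
  · refine Nat.mul_le_mul_left _ ?_
    nlinarith [Nat.zero_le (Nat.log 2 D), Nat.zero_le w]

end part2

end Pool.Agent.MP_1a6d78_lc.h61
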