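import Mathlib.Order.BourbakiWitt
import Mathlib.Order.CompletePartialOrder
import Pool.Agent.MP_1a6d78_lc.h61.ArithDefs

/-! Decomposable circuits over literals. -/

namespace Pool.Agent.MP_1a6d78_lc.h61.Circuit

variable {ι K : Type} (C : Circuit (ι × Bool) K)

/-- Every gate `g` has a set `V g` of variables that contains the sets of its two arguments (the
variable of a literal, nothing for a constant), and the two arguments of a product gate have
disjoint sets. -/
def Decomposable : Prop :=
  ∃ V : Fin C.size → Set ι, ∀ g,
    (C.left g).val (fun l => {l.1}) (fun _ => ∅) V ⊆ V g ∧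
    (C.right g).val (fun l => {l.1}) (fun _ => ∅) V ⊆ V g ∧
    (C.isMul g → Disjoint ((C.left g).val (fun l => {l.1}) (fun _ => ∅) V)
      ((C.right g).val (fun l => {l.1}) (fun _ => ∅) V))

/-- On every input `x`, with the literal `(i, b)` equal to `1` if `x i = b` and to `0` otherwise,
the gates take values in `K` obeying the gate equations, and the output gate has the value `1` if
`f x` holds and `0` otherwise. -/
def ComputesBool [Semiring K] (f : (ι → Bool) → Bool) : Prop :=
  ∀ x : ι → Bool, ∃ v : Fin C.size → K,
    C.Obeys (fun l => if x l.1 = l.2 then 1 else 0) id v ∧ v C.out = if f x then 1 else 0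

end Pool.Agent.MP_1a6d78_lc.h61.Circuit
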