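import Pool.Agent.MP_1a6d78_lc.h61.Lower
import Pool.Agent.MP_1a6d78_lc.h61.DecDefs

set_option linter.unusedSectionVars false

namespace Pool.Agent.MP_1a6d78_lc.h61

/-! Balanced unions of two intervals split into three balanced parts. -/

section part0


theorem ivt_up {P : ℕ → ℤ} (hP : ∀ t, P (t + 1) = P t + 1 ∨ P (t + 1) = P t - 1) (c : ℤ) (x : ℕ) :
    ∀ y, x ≤ y → (P x ≤ c ∧ c ≤ P y ∨ P y ≤ c ∧ c ≤ P x) → ∃ t, x ≤ t ∧ t ≤ y ∧ P t = c := by
  intro y hxy
  induction y, hxy using Nat.le_induction with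
  | base => intro h; exact ⟨x, le_rfl, le_rfl, by omega⟩
  | succ y hxy ih =>
    intro h
    by_cases h1 : P (y + 1) = c
    · exact ⟨y + 1, by omega, le_rfl, h1⟩
    · obtain ⟨t, h2, h3, h4⟩ := ih (by have := hP y; omega)
      exact ⟨t, h2, by omega, h4⟩

theorem split_walk {P : ℕ → ℤ} (hP : ∀ t, P (t + 1) = P t + 1 ∨ P (t + 1) = P t - 1)
    (i k l j h : ℕ) (hik : i ≤ k) (hlj : l ≤ j) (hz : P k - P i = P l - P j)
    (hs : (k - i) + (j - l) ≤ 2 * h) :
    ∃ a a' b' b, i ≤ a ∧ a ≤ a' ∧ a' ≤ k ∧ l ≤ b' ∧ b' ≤ b ∧ b ≤ j ∧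
      P a - P i = P b - P j ∧ P a' - P i = P b' - P j ∧
      (a - i) + (j - b) ≤ h ∧ (k - a') + (b' - l) ≤ h ∧
      (b' = b ∨ a = a' ∨ (a' = a + 1 ∧ b = b' + 1)) := by
  classical
  let Q : ℕ → Prop := fun s => ∃ a b, i ≤ a ∧ a ≤ k ∧ l ≤ b ∧ b ≤ j ∧ P a - P i = P b - P j ∧
    (a - i) + (j - b) = s
  have h0 : Q 0 := ⟨i, j, le_rfl, hik, hlj, le_rfl, by omega, by omega⟩
  obtain ⟨a, b, h1, h2, h3, h4, h5, h6⟩ : Q (Nat.findGreatest Q h) :=
    Nat.findGreatest_spec (Nat.zero_le h) h0
  have h7 : Nat.findGreatest Q h ≤ h := Nat.findGreatest_le h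
  have hmax : ∀ a' b', a ≤ a' → a' ≤ k → l ≤ b' → b' ≤ b → a < a' ∨ b' < b →
      P a' - P i = P b' - P j → (k - a') + (b' - l) ≤ h := by
    intro a' b' e1 e2 e3 e4 e5 e6
    by_contra e7
    exact Nat.findGreatest_is_greatest (P := Q) (k := (a' - i) + (j - b')) (n := h) (by omega)
      (by omega) ⟨a', b', by omega, e2, e3, by omega, e6, rfl⟩
  by_cases c1 : ∃ t, a < t ∧ t ≤ k ∧ P t = P a
  · obtain ⟨t, e1, e2, e3⟩ := c1
    exact ⟨a, t, b, b, h1, e1.le, e2, h3, le_rfl, h4, h5, by omega, by omega,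
      hmax t b e1.le e2 h3 le_rfl (Or.inl e1) (by omega), Or.inl rfl⟩
  by_cases c2 : ∃ t, l ≤ t ∧ t < b ∧ P t = P b
  · obtain ⟨t, e1, e2, e3⟩ := c2
    exact ⟨a, a, t, b, h1, le_rfl, h2, e1, e2.le, h4, h5, by omega, by omega,
      hmax a t le_rfl h2 e1 e2.le (Or.inr e2) (by omega), Or.inr (Or.inl rfl)⟩
  by_cases c3 : a = k
  · have : b = l := by
      by_contra e
      exact c2 ⟨l, le_rfl, by omega, by subst c3; omega⟩
    exact ⟨a, a, b, b, h1, le_rfl, h2, h3, le_rfl, h4, h5, h5, by omega, by omega, Or.inl rfl⟩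
  have c4 : b ≠ l := by
    intro e
    exact c1 ⟨k, by omega, le_rfl, by subst e; omega⟩
  obtain ⟨b', rfl⟩ : ∃ b', b = b' + 1 := ⟨b - 1, by omega⟩
  have e1 : P k ≠ P a := fun e => c1 ⟨k, by omega, le_rfl, e⟩
  have e2 : ¬ (P (a + 1) ≤ P a ∧ P a ≤ P k ∨ P k ≤ P a ∧ P a ≤ P (a + 1)) := fun e => by
    obtain ⟨t, f1, f2, f3⟩ := ivt_up hP (P a) (a + 1) k (by omega) e
    exact c1 ⟨t, by omega, f2, f3⟩
  have e3 : ¬ (P l ≤ P (b' + 1) ∧ P (b' + 1) ≤ P b' ∨ P b' ≤ P (b' + 1) ∧ P (b' + 1) ≤ P l) :=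
    fun e => by
    obtain ⟨t, f1, f2, f3⟩ := ivt_up hP (P (b' + 1)) l b' (by omega) e
    exact c2 ⟨t, f1, by omega, f3⟩
  have e4 : P (a + 1) - P i = P b' - P j := by
    have := hP a
    have := hP b'
    omega
  exact ⟨a, a + 1, b', b' + 1, h1, by omega, by omega, by omega, by omega, h4, h5, e4, by omega,
    hmax (a + 1) b' (by omega) (by omega) (by omega) (by omega) (by omega) e4,
    Or.inr (Or.inr ⟨rfl, rfl⟩)⟩

/-- `U` splits in `d` rounds of three-way splits inside the family into pairs that cross `Y`. -/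
def Dec {α O : Type} [DecidableEq α] (X : O → Finset α) (Y : Finset α) : ℕ → Finset α → Prop
  | 0, U => U = ∅ ∨ ∃ a b, a ∈ Y ∧ b ∉ Y ∧ U = {a, b}
  | d + 1, U => ∃ o : O × O × O, Disjoint (X o.1) (X o.2.1) ∧ Disjoint (X o.1 ∪ X o.2.1) (X o.2.2) ∧
      X o.1 ∪ X o.2.1 ∪ X o.2.2 = U ∧ Dec X Y d (X o.1) ∧ Dec X Y d (X o.2.1) ∧ Dec X Y d (X o.2.2)

theorem Dec.empty {α O : Type} [DecidableEq α] {X : O → Finset α} {Y : Finset α} {e : O}
    (he : X e = ∅) (d : ℕ) : Dec X Y d ∅ := by
  induction d with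
  | zero => exact Or.inl rfl
  | succ d ih => exact ⟨(e, e, e), by simp [he], by simp [he], by simp [he], he ▸ ih, he ▸ ih,
      he ▸ ih⟩

theorem Dec.mono {α O : Type} [DecidableEq α] {X : O → Finset α} {Y : Finset α} {e : O}
    (he : X e = ∅) {d d' : ℕ} {o : O} (h : Dec X Y d (X o)) (hd : d ≤ d') : Dec X Y d' (X o) := by
  induction d', hd using Nat.le_induction with
  | base => exact h
  | succ d' _ ih => exact ⟨(o, e, e), by simp [he], by simp [he], by simp [he], ih,
      he ▸ Dec.empty he _, he ▸ Dec.empty he _⟩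

/-- The union of two intervals. -/
def seg (n i k l j : ℕ) : Finset (Fin n) :=
  Finset.univ.filter fun p => (i ≤ p.val ∧ p.val < k) ∨ (l ≤ p.val ∧ p.val < j)

/-- The family of unions of two intervals. -/
def segs (n : ℕ) (o : Fin (n + 1) × Fin (n + 1) × Fin (n + 1) × Fin (n + 1)) : Finset (Fin n) :=
  seg n o.1 o.2.1 o.2.2.1 o.2.2.2

theorem mem_seg {n i k l j : ℕ} {p : Fin n} :
    p ∈ seg n i k l j ↔ (i ≤ p.val ∧ p.val < k) ∨ (l ≤ p.val ∧ p.val < j) := by simp [seg]

theorem dec_univ (m e : ℕ) (hm : 2 * m ≤ 2 ^ e) (Y : Finset (Fin (2 * m))) (hY : Y.card = m) :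
    Dec (segs (2 * m)) Y (2 * e) Finset.univ := by
  classical
  obtain ⟨n, hn⟩ : ∃ n, n = 2 * m := ⟨_, rfl⟩
  revert Y
  rw [← hn] at hm ⊢
  intro Y hY
  let sg : ℕ → ℤ := fun p => if h : p < n then (if (⟨p, h⟩ : Fin n) ∈ Y then 1 else -1) else 1
  let P : ℕ → ℤ := fun t => ∑ p ∈ Finset.range t, sg p
  have hPs : ∀ t, P (t + 1) = P t + sg t := fun t => Finset.sum_range_succ _ _
  have hP : ∀ t, P (t + 1) = P t + 1 ∨ P (t + 1) = P t - 1 := by
    intro t
    rw [hPs]
    simp only [sg]
    split_ifs <;> omega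
  have he : segs n (0, 0, 0, 0) = ∅ := by
    ext p
    simp [segs, mem_seg]
  have mono : ∀ {d d' i k l j : ℕ}, i ≤ n → k ≤ n → l ≤ n → j ≤ n →
      Dec (segs n) Y d (seg n i k l j) → d ≤ d' → Dec (segs n) Y d' (seg n i k l j) :=
    fun {d d' i k l j} h1 h2 h3 h4 h hd => Dec.mono he
      (o := (⟨i, by omega⟩, ⟨k, by omega⟩, ⟨l, by omega⟩, ⟨j, by omega⟩)) h hd
  have step : ∀ d h i k l j, i ≤ k → k ≤ l → l ≤ j → j ≤ n → P k - P i = P l - P j →
      (k - i) + (j - l) ≤ 2 * h →
      (∀ i k l j, i ≤ k → k ≤ l → l ≤ j → j ≤ n → P k - P i = P l - P j →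
        (k - i) + (j - l) ≤ h → Dec (segs n) Y d (seg n i k l j)) →
      (∀ x y, x ≤ y → y ≤ n → P x = P y → (i ≤ x ∧ y ≤ k ∨ l ≤ x ∧ y ≤ j) →
        Dec (segs n) Y d (seg n x y y y)) →
      Dec (segs n) Y (d + 1) (seg n i k l j) := by
    intro d h i k l j h1 h2 h3 h4 h5 h6 hC hF
    obtain ⟨a, a', b', b, e1, e2, e3, e4, e5, e6, e7, e8, e9, e10, e11⟩ :=
      split_walk hP i k l j h h1 h3 h5 h6
    refine ⟨((⟨i, by omega⟩, ⟨a, by omega⟩, ⟨b, by omega⟩, ⟨j, by omega⟩),
      (⟨a', by omega⟩, ⟨k, by omega⟩, ⟨l, by omega⟩, ⟨b', by omega⟩),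
      (⟨a, by omega⟩, ⟨a', by omega⟩, ⟨b', by omega⟩, ⟨b, by omega⟩)), ?_, ?_, ?_, ?_, ?_, ?_⟩
    · rw [Finset.disjoint_left]
      intro p
      simp only [segs, mem_seg]
      omega
    · rw [Finset.disjoint_left]
      intro p
      simp only [segs, mem_seg, Finset.mem_union]
      omega
    · ext p
      simp only [segs, mem_seg, Finset.mem_union]
      omega
    · exact hC i a b j e1 (by omega) e6 h4 e7 e9
    · exact hC a' k l b' e3 h2 e4 (by omega) (by omega) e10
    · show Dec (segs n) Y d (seg n a a' b' b)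
      rcases e11 with rfl | rfl | ⟨rfl, rfl⟩
      · have : seg n a a' b' b' = seg n a a' a' a' := by ext p; simp only [mem_seg]; omega
        rw [this]
        exact hF a a' e2 (by omega) (by omega) (Or.inl ⟨e1, e3⟩)
      · have : seg n a a b' b = seg n b' b b b := by ext p; simp only [mem_seg]; omega
        rw [this]
        exact hF b' b e5 (by omega) (by omega) (Or.inr ⟨e4, e6⟩)
      · refine mono (d := 0) (by omega) (by omega) (by omega) (by omega) ?_ (Nat.zero_le _)
        have f1 : a < n := by omega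
        have f2 : b' < n := by omega
        have f3 : seg n a (a + 1) b' (b' + 1) = {⟨a, f1⟩, ⟨b', f2⟩} := by
          ext p
          simp only [mem_seg, Finset.mem_insert, Finset.mem_singleton, Fin.ext_iff]
          omega
        have f4 := hPs a
        have f5 := hPs b'
        simp only [sg, dif_pos f1, dif_pos f2] at f4 f5
        rw [f3]
        by_cases f6 : (⟨a, f1⟩ : Fin n) ∈ Y <;> by_cases f7 : (⟨b', f2⟩ : Fin n) ∈ Y
        · simp only [if_pos f6, if_pos f7] at f4 f5; omega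
        · exact Or.inr ⟨_, _, f6, f7, rfl⟩
        · exact Or.inr ⟨_, _, f7, f6, Finset.pair_comm _ _⟩
        · simp only [if_neg f6, if_neg f7] at f4 f5; omega
  have key : ∀ e, (∀ x y, x ≤ y → y ≤ n → P x = P y → y - x ≤ 2 ^ e →
      Dec (segs n) Y (2 * e) (seg n x y y y)) ∧
      ∀ i k l j, i ≤ k → k ≤ l → l ≤ j → j ≤ n → P k - P i = P l - P j →
        (k - i) + (j - l) ≤ 2 ^ e → Dec (segs n) Y (2 * e + 1) (seg n i k l j) := by
    intro e
    induction e with
    | zero =>
      have h0 : ∀ d i k l j, i ≤ k → l ≤ j → P k - P i = P l - P j → (k - i) + (j - l) ≤ 1 →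
          Dec (segs n) Y d (seg n i k l j) := by
        intro d i k l j h1 h2 h3 h4
        have h5 : k = i ∧ j = l := by
          by_contra h6
          have h7 : (k = i + 1 ∧ j = l) ∨ (k = i ∧ j = l + 1) := by omega
          rcases h7 with ⟨rfl, rfl⟩ | ⟨rfl, rfl⟩
          · have := hP i; omega
          · have := hP l; omega
        have : seg n i k l j = ∅ := by
          ext p
          simp only [mem_seg, Finset.notMem_empty, iff_false]
          omega
        rw [this]
        exact Dec.empty he _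
      exact ⟨fun x y h1 _ h3 h4 => h0 _ x y y y h1 le_rfl (by omega) (by omega),
        fun i k l j h1 _ h3 _ h5 h6 => h0 _ i k l j h1 h3 h5 h6⟩
    | succ e ih =>
      have hF : ∀ x y, x ≤ y → y ≤ n → P x = P y → y - x ≤ 2 ^ (e + 1) →
          Dec (segs n) Y (2 * (e + 1)) (seg n x y y y) := by
        intro x y h1 h2 h3 h4
        rw [pow_succ] at h4
        have : seg n x y y y = seg n x ((x + y) / 2) ((x + y) / 2) y := by
          ext p; simp only [mem_seg]; omega
        rw [this]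
        refine step (2 * e + 1) (2 ^ e) _ _ _ _ (by omega) le_rfl (by omega) h2 (by omega)
          (by omega) ih.2 fun u v f1 f2 f3 f4 => ?_
        exact mono (by omega) f2 f2 f2 (ih.1 u v f1 f2 f3 (by omega)) (by omega)
      refine ⟨hF, fun i k l j h1 h2 h3 h4 h5 h6 => ?_⟩
      refine step (2 * (e + 1)) (2 ^ e) i k l j h1 h2 h3 h4 h5 (by rw [pow_succ] at h6; omega)
        (fun i k l j f1 f2 f3 f4 f5 f6 => mono (by omega) (by omega) (by omega) f4
          (ih.2 i k l j f1 f2 f3 f4 f5 f6) (by omega)) fun u v f1 f2 f3 f4 => ?_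
      exact hF u v f1 f2 f3 (by omega)
  have hn0 : P n = 0 := by
    have h1 : P n = ∑ p : Fin n, (if p ∈ Y then (1 : ℤ) else -1) := by
      simp only [P]
      rw [Finset.sum_range]
      exact Finset.sum_congr rfl fun p _ => by simp [sg]
    have h2 := Finset.card_add_card_compl Y
    have h3 : (Finset.univ.filter fun p => ¬ p ∈ Y) = Yᶜ := by ext p; simp
    rw [h1, Finset.sum_ite, h3]
    simp only [Finset.filter_mem_eq_inter, Finset.univ_inter, Finset.sum_const, Fintype.card_fin,
      nsmul_eq_mul] at h2 ⊢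
    omega
  have : seg n 0 n n n = Finset.univ := by
    ext p
    simp [mem_seg]
  rw [← this]
  exact (key e).1 0 n (Nat.zero_le _) le_rfl (by simp [P] at hn0 ⊢; omega) (by omega)

end part0

/-! A shallow decomposable circuit for the hard function. -/

section part1


/-- Renaming inputs and gates. -/
def Arg.map {σ σ' K G G' : Type} (f : σ → σ') (e : G → G') : Arg σ K G → Arg σ' K G'
  | .var i => .var (f i)
  | .const c => .const c
  | .gate g => .gate (e g)

theorem Arg.val_map {σ σ' K G G' R : Type} (f : σ → σ') (e : G → G') (x : σ' → R) (k : K → R)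
    (v : G' → R) (a : Arg σ K G) :
    (a.map f e).val x k v = a.val (fun i => x (f i)) k (fun g => v (e g)) := by
  cases a <;> rfl

theorem build {ι0 ι K G : Type} [Semiring K] [Fintype G] (emb : ι0 ↪ ι) (m : G → Bool)
    (l r : G → Arg (ι0 × Bool) K G) (out : G) (f : (ι0 → Bool) → Bool) (d : ℕ)
    (hv : ∀ x : ι0 → Bool, ∃ v : G → K, (∀ g, v g =
      if m g then (l g).val (fun i => if x i.1 = i.2 then 1 else 0) id v *
        (r g).val (fun i => if x i.1 = i.2 then 1 else 0) id v
      else (l g).val (fun i => if x i.1 = i.2 then 1 else 0) id v +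
        (r g).val (fun i => if x i.1 = i.2 then 1 else 0) id v) ∧ v out = if f x then 1 else 0)
    (V : G → Set ι0)
    (hV : ∀ g, (l g).val (fun i => {i.1}) (fun _ => ∅) V ⊆ V g ∧
      (r g).val (fun i => {i.1}) (fun _ => ∅) V ⊆ V g ∧
      (m g → Disjoint ((l g).val (fun i => {i.1}) (fun _ => ∅) V)
        ((r g).val (fun i => {i.1}) (fun _ => ∅) V)))
    (lev : G → ℕ) (h1 : ∀ g, 1 ≤ lev g ∧ lev g ≤ d)
    (h2 : ∀ g g', l g = .gate g' ∨ r g = .gate g' → lev g' < lev g) :
    ∃ C : Circuit (ι × Bool) K, C.Decomposable ∧ C.ComputesBool (fun x => f fun i => x (emb i)) ∧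
      C.size = Fintype.card G ∧ C.DepthLE d := by
  let e := Fintype.equivFin G
  let φ : ι0 × Bool → ι × Bool := fun i => (emb i.1, i.2)
  have himg : ∀ a : Arg (ι0 × Bool) K G,
      (a.map φ e).val (fun i => {i.1}) (fun _ => ∅) (fun g => emb '' V (e.symm g)) =
        emb '' a.val (fun i => {i.1}) (fun _ => ∅) V := by
    intro a
    cases a <;> simp [Arg.map, Arg.val, φ]
  have hgate : ∀ (a : Arg (ι0 × Bool) K G) g', a.map φ e = .gate g' → a = .gate (e.symm g') := by
    intro a g' h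
    cases a with
    | var i => cases h
    | const c => cases h
    | gate g => cases h; simp
  refine ⟨⟨Fintype.card G, fun g => m (e.symm g), fun g => (l (e.symm g)).map φ e,
    fun g => (r (e.symm g)).map φ e, e out⟩, ⟨fun g => emb '' V (e.symm g), fun g => ?_⟩,
    fun x => ?_, rfl, fun g => lev (e.symm g), fun g => h1 _, fun g g' h => h2 _ _ ?_⟩
  · obtain ⟨h3, h4, h5⟩ := hV (e.symm g)
    simp only [himg]
    exact ⟨Set.image_mono h3, Set.image_mono h4,
      fun h => (Set.disjoint_image_iff emb.injective).2 (h5 h)⟩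
  · obtain ⟨v, h3, h4⟩ := hv fun i => x (emb i)
    refine ⟨fun g => v (e.symm g), fun g => ?_, by simpa using h4⟩
    simpa only [Arg.val_map, Equiv.symm_apply_apply] using h3 (e.symm g)
  · exact h.imp (hgate _ _) (hgate _ _)

section hard

variable {α O : Type} [DecidableEq α] (X : O → Finset α) (D E : ℕ)
  (dec : (Fin E → Bool) → O × O × O)

/-- The variables: the points and the bits that select the splits. -/
abbrev Var (α O : Type) (D E : ℕ) : Type := α ⊕ (Fin (D + 1) × O × Fin E)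

/-- The index of a round. -/
def cl (D d : ℕ) : Fin (D + 1) := ⟨min d D, by omega⟩

/-- The triple splits the set of `o`. -/
def Valid (o : O) (t : O × O × O) : Prop :=
  Disjoint (X t.1) (X t.2.1) ∧ Disjoint (X t.1 ∪ X t.2.1) (X t.2.2) ∧ X t.1 ∪ X t.2.1 ∪ X t.2.2 = X o

/-- The hard predicate. -/
def Hard (x : Var α O D E → Bool) : ℕ → O → Prop
  | 0, o => X o = ∅ ∨ ∃ a b, X o = {a, b} ∧ a ≠ b ∧ x (.inl a) = x (.inl b)
  | d + 1, o => X o = ∅ ∨ (Valid X o (dec fun i => x (.inr (cl D (d + 1), o, i))) ∧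
      Hard x d (dec fun i => x (.inr (cl D (d + 1), o, i))).1 ∧
      Hard x d (dec fun i => x (.inr (cl D (d + 1), o, i))).2.1 ∧
      Hard x d (dec fun i => x (.inr (cl D (d + 1), o, i))).2.2)

theorem hard_match (hdec : Function.Surjective dec) (Y : Finset α) :
    ∃ aux : Fin (D + 1) × O × Fin E → Bool, ∀ d ≤ D, ∀ o, Dec X Y d (X o) →
      ∃ μ : α → α, (∀ a ∈ X o, μ a ∈ X o ∧ μ (μ a) = a ∧ (a ∈ Y ↔ μ a ∉ Y)) ∧
        ∀ x : α → Bool, Hard X D E dec (Sum.elim x aux) d o ↔ ∀ a ∈ X o, x a = x (μ a) := by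
  classical
  have hch : ∀ (d : Fin (D + 1)) (o : O), ∃ p : Fin E → Bool, ∀ d', d.val = d' + 1 →
      Dec X Y (d' + 1) (X o) → Valid X o (dec p) ∧ Dec X Y d' (X (dec p).1) ∧
        Dec X Y d' (X (dec p).2.1) ∧ Dec X Y d' (X (dec p).2.2) := by
    intro d o
    by_cases h : ∃ d', d.val = d' + 1 ∧ Dec X Y (d' + 1) (X o)
    · obtain ⟨d', h1, t, h2, h3, h4, h5⟩ := h
      obtain ⟨p, rfl⟩ := hdec t
      refine ⟨p, fun d'' h6 _ => ?_⟩
      obtain rfl : d'' = d' := by omega
      exact ⟨⟨h2, h3, h4⟩, h5⟩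
    · exact ⟨fun _ => false, fun d' h1 h2 => absurd ⟨d', h1, h2⟩ h⟩
  choose p hp using hch
  refine ⟨fun z => p z.1 z.2.1 z.2.2, fun d => ?_⟩
  induction d with
  | zero =>
    intro _ o h
    rcases h with h | ⟨a, b, ha, hb, h⟩
    · exact ⟨id, by simp [h], fun x => by simp [Hard, h]⟩
    · have hab : a ≠ b := fun e => hb (e ▸ ha)
      refine ⟨Equiv.swap a b, ?_, fun x => ?_⟩
      · simp [h, ha, hb]
      · simp only [Hard, h, Finset.insert_ne_empty, false_or, Sum.elim_inl, Finset.mem_insert,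
          Finset.mem_singleton, forall_eq_or_imp, Equiv.swap_apply_left, forall_eq,
          Equiv.swap_apply_right]
        constructor
        · rintro ⟨a', b', h1, h2, h3⟩
          have h4 : a' ∈ ({a, b} : Finset α) := by rw [h1]; simp
          have h5 : b' ∈ ({a, b} : Finset α) := by rw [h1]; simp
          simp only [Finset.mem_insert, Finset.mem_singleton] at h4 h5
          rcases h4 with rfl | rfl <;> rcases h5 with rfl | rfl
          · exact absurd rfl h2
          · exact ⟨h3, h3.symm⟩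
          · exact ⟨h3.symm, h3⟩
          · exact absurd rfl h2
        · exact fun h1 => ⟨a, b, rfl, hab, h1.1⟩
  | succ d ih =>
    intro hd o h
    by_cases he : X o = ∅
    · exact ⟨id, by simp [he], fun x => by simp [Hard, he]⟩
    obtain ⟨hv, h1, h2, h3⟩ := hp (cl D (d + 1)) o d (by simp only [cl]; omega) h
    obtain ⟨μ1, a1, b1⟩ := ih (by omega) _ h1
    obtain ⟨μ2, a2, b2⟩ := ih (by omega) _ h2
    obtain ⟨μ3, a3, b3⟩ := ih (by omega) _ h3
    obtain ⟨t, ht⟩ : ∃ t, t = dec (p (cl D (d + 1)) o) := ⟨_, rfl⟩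
    rw [← ht] at hv a1 a2 a3 b1 b2 b3
    obtain ⟨d1, d2, hu⟩ := id hv
    rw [Finset.disjoint_union_left] at d2
    have n12 := Finset.disjoint_right.1 d1
    have n13 := Finset.disjoint_right.1 d2.1
    have n23 := Finset.disjoint_right.1 d2.2
    let μ : α → α := fun a => if a ∈ X t.1 then μ1 a else if a ∈ X t.2.1 then μ2 a else μ3 a
    have e1 : ∀ a ∈ X t.1, μ a = μ1 a := fun a ha => if_pos ha
    have e2 : ∀ a ∈ X t.2.1, μ a = μ2 a := fun a ha => by simp only [μ, if_neg (n12 ha), if_pos ha]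
    have e3 : ∀ a ∈ X t.2.2, μ a = μ3 a := fun a ha => by
      simp only [μ, if_neg (n13 ha), if_neg (n23 ha)]
    refine ⟨μ, fun a ha => ?_, fun x => ?_⟩
    · rw [← hu] at ha ⊢
      simp only [Finset.mem_union] at ha ⊢
      rcases ha with (ha | ha) | ha
      · obtain ⟨c1, c2, c3⟩ := a1 a ha
        rw [e1 a ha, e1 _ c1]
        exact ⟨Or.inl (Or.inl c1), c2, c3⟩
      · obtain ⟨c1, c2, c3⟩ := a2 a ha
        rw [e2 a ha, e2 _ c1]
        exact ⟨Or.inl (Or.inr c1), c2, c3⟩
      · obtain ⟨c1, c2, c3⟩ := a3 a ha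
        rw [e3 a ha, e3 _ c1]
        exact ⟨Or.inr c1, c2, c3⟩
    · simp only [Hard, he, false_or, Sum.elim_inr]
      rw [← ht, b1, b2, b3, ← hu]
      simp only [Finset.mem_union, or_imp, forall_and]
      constructor
      · rintro ⟨-, c1, c2, c3⟩
        exact ⟨⟨fun a ha => e1 a ha ▸ c1 a ha, fun a ha => e2 a ha ▸ c2 a ha⟩,
          fun a ha => e3 a ha ▸ c3 a ha⟩
      · rintro ⟨⟨c1, c2⟩, c3⟩
        exact ⟨hv, fun a ha => e1 a ha ▸ c1 a ha, fun a ha => e2 a ha ▸ c2 a ha,
          fun a ha => e3 a ha ▸ c3 a ha⟩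

open Classical in
/-- The truth value of a proposition in a semiring. -/
noncomputable def ind (K : Type) [Semiring K] (P : Prop) : K := if P then 1 else 0

theorem ind_and {K : Type} [Semiring K] (P Q : Prop) : ind K (P ∧ Q) = ind K P * ind K Q := by
  by_cases hP : P <;> by_cases hQ : Q <;> simp [ind, hP, hQ]

theorem ind_or {K : Type} [Semiring K] {P Q : Prop} (h : ¬ (P ∧ Q)) :
    ind K (P ∨ Q) = ind K P + ind K Q := by
  by_cases hP : P <;> by_cases hQ : Q <;> simp_all [ind]

theorem ind_ite {K : Type} [Semiring K] (P : Prop) [Decidable P] :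
    (if P then 1 else 0 : K) = ind K P := by
  by_cases hP : P <;> simp [ind, hP]

/-- The gates of the circuit. -/
abbrev Gt (O : Type) (D E : ℕ) : Type :=
  Fin (D + 1) × O × Fin (E + 1) × (Fin E → Bool) × Option Bool

open Classical in
/-- The two points of a set with two points. -/
noncomputable def pairOf (o : O) : Option (α × α) :=
  if h : ∃ y : α × α, X o = {y.1, y.2} ∧ y.1 ≠ y.2 then some h.choose else none

/-- The argument that carries the hard predicate. -/
def ref (K : Type) [Semiring K] (d : Fin (D + 1)) (o : O) :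
    Arg (Var α O D E × Bool) K (Gt O D E) :=
  if X o = ∅ then .const 1 else .gate (d, o, Fin.last E, fun _ => false, none)

open Classical in
/-- The kind and the two arguments of a gate. -/
noncomputable def spec (K : Type) [Semiring K] : Gt O D E →
    Bool × Arg (Var α O D E × Bool) K (Gt O D E) × Arg (Var α O D E × Bool) K (Gt O D E)
  | (⟨0, _⟩, o, _, _, some β) => (pairOf X o).elim (false, .const 0, .const 0)
      fun y => (true, .var (.inl y.1, β), .var (.inl y.2, β))
  | (⟨0, h⟩, o, e, p, none) =>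
      (false, .gate (⟨0, h⟩, o, e, p, some true), .gate (⟨0, h⟩, o, e, p, some false))
  | (⟨d + 1, h⟩, o, ⟨0, _⟩, p, some _) => if Valid X o (dec p) then
      (true, ref X D E K ⟨d, by omega⟩ (dec p).1, ref X D E K ⟨d, by omega⟩ (dec p).2.1)
      else (false, .const 0, .const 0)
  | (⟨d + 1, h⟩, o, ⟨0, h'⟩, p, none) => if Valid X o (dec p) then
      (true, .gate (⟨d + 1, h⟩, o, ⟨0, h'⟩, p, some true), ref X D E K ⟨d, by omega⟩ (dec p).2.2)
      else (false, .const 0, .const 0)
  | (⟨d + 1, h⟩, o, ⟨e + 1, h'⟩, p, some β) =>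
      (true, .var (.inr (⟨d + 1, h⟩, o, ⟨e, by omega⟩), β),
        .gate (⟨d + 1, h⟩, o, ⟨e, by omega⟩, Function.update p ⟨e, by omega⟩ β, none))
  | (⟨d + 1, h⟩, o, ⟨e + 1, h'⟩, p, none) =>
      (false, .gate (⟨d + 1, h⟩, o, ⟨e + 1, h'⟩, p, some true),
        .gate (⟨d + 1, h⟩, o, ⟨e + 1, h'⟩, p, some false))

/-- The first `e` selecting bits are read from the input. -/
def mg (x : Var α O D E → Bool) (d : Fin (D + 1)) (o : O) (e : ℕ) (p : Fin E → Bool) :
    Fin E → Bool := fun i => if i.val < e then x (.inr (d, o, i)) else p i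

/-- The split with code `q` is valid and its parts satisfy the hard predicate. -/
def Trip (x : Var α O D E → Bool) (d : ℕ) (o : O) (q : Fin E → Bool) : Prop :=
  (Valid X o (dec q) ∧ Hard X D E dec x d (dec q).1 ∧ Hard X D E dec x d (dec q).2.1) ∧
    Hard X D E dec x d (dec q).2.2

/-- The meaning of a gate. -/
def sem (x : Var α O D E → Bool) : Gt O D E → Prop
  | (⟨0, _⟩, o, _, _, some β) => ∃ y, pairOf X o = some y ∧ x (.inl y.1) = β ∧ x (.inl y.2) = β
  | (⟨0, _⟩, o, _, _, none) => ∃ y, pairOf X o = some y ∧ x (.inl y.1) = x (.inl y.2)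
  | (⟨d + 1, _⟩, o, ⟨0, _⟩, p, some _) =>
      Valid X o (dec p) ∧ Hard X D E dec x d (dec p).1 ∧ Hard X D E dec x d (dec p).2.1
  | (⟨d + 1, h⟩, o, e, p, none) => Trip X D E dec x d o (mg D E x ⟨d + 1, h⟩ o e p)
  | (⟨d + 1, h⟩, o, ⟨e + 1, h'⟩, p, some β) => x (.inr (⟨d + 1, h⟩, o, ⟨e, by omega⟩)) = β ∧
      Trip X D E dec x d o (mg D E x ⟨d + 1, h⟩ o e (Function.update p ⟨e, by omega⟩ β))

theorem pairOf_some {o : O} {y : α × α} (h : pairOf X o = some y) :
    X o = {y.1, y.2} ∧ y.1 ≠ y.2 := by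
  unfold pairOf at h
  split_ifs at h with h1
  cases h
  exact h1.choose_spec

theorem sem_top (x : Var α O D E → Bool) (d : Fin (D + 1)) (o : O) (ho : X o ≠ ∅) :
    sem X D E dec x (d, o, Fin.last E, fun _ => false, none) ↔ Hard X D E dec x d o := by
  obtain ⟨d, h⟩ := d
  cases d with
  | zero =>
    simp only [sem, Hard, ho, false_or]
    constructor
    · rintro ⟨y, h1, h2⟩
      exact ⟨y.1, y.2, (pairOf_some X h1).1, (pairOf_some X h1).2, h2⟩
    · rintro ⟨a, b, h1, h2, h3⟩
      have h4 : ∃ y : α × α, X o = {y.1, y.2} ∧ y.1 ≠ y.2 := ⟨(a, b), h1, h2⟩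
      refine ⟨h4.choose, dif_pos h4, ?_⟩
      have h5 : ∀ c ∈ X o, x (.inl c) = x (.inl a) := by
        intro c hc
        rw [h1] at hc
        simp only [Finset.mem_insert, Finset.mem_singleton] at hc
        rcases hc with rfl | rfl
        exacts [rfl, h3.symm]
      have h6 := h4.choose_spec.1
      rw [h5 h4.choose.1 (h6.ge (Finset.mem_insert_self _ _)),
        h5 h4.choose.2 (h6.ge (Finset.mem_insert_of_mem (Finset.mem_singleton_self _)))]
  | succ d =>
    have e1 : cl D (d + 1) = ⟨d + 1, h⟩ := Fin.ext (by simp only [cl]; omega)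
    have e2 : mg D E x ⟨d + 1, h⟩ o (Fin.last E) (fun _ => false) =
        fun i => x (.inr (⟨d + 1, h⟩, o, i)) := by
      funext i
      simp [mg]
    simp only [sem, Hard, ho, false_or, e1, e2, Trip, and_assoc]

theorem ref_val (K : Type) [Semiring K] (x : Var α O D E → Bool) (y : Var α O D E × Bool → K)
    (d : Fin (D + 1)) (o : O) : (ref X D E K d o).val y id (fun g => ind K (sem X D E dec x g)) =
      ind K (Hard X D E dec x d o) := by
  unfold ref
  split_ifs with h
  · have : Hard X D E dec x d o := by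
      cases d.val <;> exact Or.inl h
    simp [Arg.val, ind, this]
  · simp only [Arg.val, sem_top X D E dec x d o h]

theorem sem_spec (K : Type) [Semiring K] (x : Var α O D E → Bool) (g : Gt O D E) :
    ind K (sem X D E dec x g) = if (spec X D E dec K g).1 then
      (spec X D E dec K g).2.1.val (fun i => if x i.1 = i.2 then 1 else 0) id
        (fun g => ind K (sem X D E dec x g)) *
      (spec X D E dec K g).2.2.val (fun i => if x i.1 = i.2 then 1 else 0) id
        (fun g => ind K (sem X D E dec x g))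
    else (spec X D E dec K g).2.1.val (fun i => if x i.1 = i.2 then 1 else 0) id
        (fun g => ind K (sem X D E dec x g)) +
      (spec X D E dec K g).2.2.val (fun i => if x i.1 = i.2 then 1 else 0) id
        (fun g => ind K (sem X D E dec x g)) := by
  obtain ⟨⟨d, h⟩, o, ⟨e, h'⟩, p, k⟩ := g
  cases d with
  | zero =>
    cases k with
    | some β =>
      cases hp : pairOf X o with
      | none => simp [sem, spec, hp, Arg.val, ind]
      | some y => simp [sem, spec, hp, Arg.val, ind_ite, ind_and]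
    | none =>
      simp only [sem, spec, Arg.val, Bool.false_eq_true, if_false]
      rw [← ind_or]
      · congr 1
        cases hp : pairOf X o with
        | none => simp
        | some y => cases h1 : x (.inl y.1) <;> cases h2 : x (.inl y.2) <;> simp [h1, h2]
      · rintro ⟨⟨y, h1, h2, -⟩, y', h3, h4, -⟩
        rw [h1] at h3
        cases h3
        simp [h2] at h4
  | succ d =>
    cases e with
    | zero =>
      have e0 : mg D E x ⟨d + 1, h⟩ o 0 p = p := by funext i; simp [mg]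
      by_cases hv : Valid X o (dec p)
      · cases k with
        | some β =>
          simp only [spec, if_pos hv, ref_val, if_true]
          simp only [sem, hv, true_and, ind_and]
        | none =>
          simp only [spec, if_pos hv, ref_val, if_true]
          simp only [sem, Arg.val, e0, Trip, ind_and]
      · cases k with
        | some β => simp [sem, spec, hv, Arg.val, ind]
        | none => simp [sem, spec, hv, Arg.val, ind, e0, Trip]
    | succ e =>
      cases k with
      | some β => simp only [sem, spec, Arg.val, if_true, ind_ite, ind_and]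
      | none =>
        simp only [sem, spec, Arg.val, Bool.false_eq_true, if_false]
        rw [← ind_or (by rintro ⟨⟨h1, -⟩, h2, -⟩; simp [h1] at h2)]
        have e1 : ∀ β, x (.inr (⟨d + 1, h⟩, o, ⟨e, by omega⟩)) = β →
            mg D E x ⟨d + 1, h⟩ o e (Function.update p ⟨e, by omega⟩ β) =
            mg D E x ⟨d + 1, h⟩ o (e + 1) p := by
          intro β hβ
          funext i
          by_cases hi : i = ⟨e, by omega⟩
          · subst hi
            simp [mg, hβ]
          · have : i.val ≠ e := fun h => hi (Fin.ext h)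
            have h2 : i.val < e ↔ i.val < e + 1 := by omega
            simp only [mg, Function.update_of_ne hi, h2]
        congr 1
        cases hx : x (.inr (⟨d + 1, h⟩, o, ⟨e, by omega⟩))
        · simp [e1 false hx]
        · simp [e1 true hx]

/-- The variables below a gate. -/
def Vs (d : ℕ) (o : O) (e : ℕ) : Set (Var α O D E) :=
  {z | Sum.elim (fun a => a ∈ X o) (fun y => (y.1.val < d ∧ (X y.2.1).Nonempty ∧ X y.2.1 ⊆ X o) ∨
    (y.1.val = d ∧ y.2.1 = o ∧ y.2.2.val < e)) z}

/-- The variables below a reference. -/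
def rv (d : ℕ) (o : O) : Set (Var α O D E) := if X o = ∅ then ∅ else Vs X D E d o E

/-- The variable sets of all gates. -/
def Vg : Gt O D E → Set (Var α O D E)
  | (⟨d + 1, _⟩, _, ⟨0, _⟩, p, some _) => rv X D E d (dec p).1 ∪ rv X D E d (dec p).2.1
  | (d, o, e, _, _) => Vs X D E d o e

theorem ref_vars (K : Type) [Semiring K] (d : Fin (D + 1)) (o : O) :
    (ref X D E K d o).val (fun i => {i.1}) (fun _ => ∅) (Vg X D E dec) = rv X D E d o := by
  unfold ref rv
  split_ifs with h
  · rfl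
  · obtain ⟨d, hd⟩ := d
    cases d <;> cases E <;> rfl

theorem rv_subset {d : ℕ} {o o' : O} (h : X o' ⊆ X o) (e : ℕ) :
    rv X D E d o' ⊆ Vs X D E (d + 1) o e := by
  unfold rv
  split_ifs with h0
  · exact Set.empty_subset _
  · rintro (a | y) hz
    · exact h hz
    · rcases hz with ⟨h1, h2, h3⟩ | ⟨h1, h2, -⟩
      · exact Or.inl ⟨by omega, h2, h3.trans h⟩
      · exact Or.inl ⟨by omega, h2 ▸ Finset.nonempty_iff_ne_empty.2 h0, h2 ▸ h⟩

theorem rv_disjoint {d : ℕ} {o o' : O} (h : Disjoint (X o) (X o')) :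
    Disjoint (rv X D E d o) (rv X D E d o') := by
  rw [Set.disjoint_left]
  intro z h1 h2
  have h3 := rv_subset X D E (subset_refl (X o)) 0 h1
  have h4 := rv_subset X D E (subset_refl (X o')) 0 h2
  rcases z with a | y
  · exact Finset.disjoint_left.1 h h3 h4
  · rcases h3 with ⟨-, ⟨a, ha⟩, h5⟩ | ⟨-, -, h5⟩
    · rcases h4 with ⟨-, -, h6⟩ | ⟨-, -, h6⟩
      · exact Finset.disjoint_left.1 h (h5 ha) (h6 ha)
      · omega
    · omega

theorem vars_spec (K : Type) [Semiring K] (g : Gt O D E) :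
    (spec X D E dec K g).2.1.val (fun i => {i.1}) (fun _ => ∅) (Vg X D E dec) ⊆ Vg X D E dec g ∧
    (spec X D E dec K g).2.2.val (fun i => {i.1}) (fun _ => ∅) (Vg X D E dec) ⊆ Vg X D E dec g ∧
    ((spec X D E dec K g).1 → Disjoint
      ((spec X D E dec K g).2.1.val (fun i => {i.1}) (fun _ => ∅) (Vg X D E dec))
      ((spec X D E dec K g).2.2.val (fun i => {i.1}) (fun _ => ∅) (Vg X D E dec))) := by
  obtain ⟨⟨d, h⟩, o, ⟨e, h'⟩, p, k⟩ := g
  cases d with
  | zero =>
    cases k with
    | some β =>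
      cases hp : pairOf X o with
      | none => simp [spec, hp, Arg.val]
      | some y =>
        obtain ⟨h1, h2⟩ := pairOf_some X hp
        simp [spec, hp, Arg.val, Vg, Vs, h1, h2]
    | none => simp [spec, Arg.val, Vg]
  | succ d =>
    cases e with
    | zero =>
      by_cases hv : Valid X o (dec p)
      · obtain ⟨h1, h2, h3⟩ := id hv
        rw [Finset.disjoint_union_left] at h2
        cases k with
        | some β =>
          simp only [spec, if_pos hv, ref_vars]
          exact ⟨Set.subset_union_left, Set.subset_union_right, fun _ => rv_disjoint X D E h1⟩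
        | none =>
          simp only [spec, if_pos hv, ref_vars]
          refine ⟨Set.union_subset (rv_subset X D E ?_ _) (rv_subset X D E ?_ _),
            rv_subset X D E ?_ _, fun _ => Set.disjoint_union_left.2
              ⟨rv_disjoint X D E h2.1, rv_disjoint X D E h2.2⟩⟩
          · exact h3 ▸ Finset.subset_union_left.trans Finset.subset_union_left
          · exact h3 ▸ Finset.subset_union_right.trans Finset.subset_union_left
          · exact h3 ▸ Finset.subset_union_right
      · cases k <;> simp [spec, hv, Arg.val]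
    | succ e =>
      cases k with
      | some β =>
        simp only [spec, Arg.val, Vg]
        refine ⟨?_, ?_, fun _ => ?_⟩
        · simp [Vs]
        · rintro (a | y) hz
          · exact hz
          · exact Or.imp id (fun h => ⟨h.1, h.2.1, Nat.lt_succ_of_lt h.2.2⟩) hz
        · simp [Vs]
      | none => simp [spec, Arg.val, Vg]

/-- The level of a gate. -/
def levG (g : Gt O D E) : ℕ :=
  g.1.val * (2 * E + 2) + 2 * g.2.2.1.val + g.2.2.2.2.elim 2 fun _ => 1

theorem ref_lev (K : Type) [Semiring K] (d : Fin (D + 1)) (o : O) (g : Gt O D E)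
    (h : ref X D E K d o = .gate g) : levG D E g = (d.val + 1) * (2 * E + 2) := by
  unfold ref at h
  split_ifs at h
  cases h
  simp only [levG, Fin.val_last, Option.elim]
  ring

theorem lev_spec (K : Type) [Semiring K] (g g' : Gt O D E)
    (hg : (spec X D E dec K g).2.1 = .gate g' ∨ (spec X D E dec K g).2.2 = .gate g') :
    levG D E g' < levG D E g := by
  obtain ⟨⟨d, h⟩, o, ⟨e, h'⟩, p, k⟩ := g
  cases d with
  | zero =>
    cases k with
    | some β => cases hp : pairOf X o <;> simp [spec, hp] at hg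
    | none =>
      simp only [spec, Arg.gate.injEq] at hg
      rcases hg with rfl | rfl <;> simp [levG]
  | succ d =>
    cases e with
    | zero =>
      by_cases hv : Valid X o (dec p)
      · cases k with
        | some β =>
          simp only [spec, if_pos hv] at hg
          rcases hg with hg | hg <;> rw [ref_lev X D E K _ _ _ hg] <;> simp [levG]
        | none =>
          simp only [spec, if_pos hv, Arg.gate.injEq] at hg
          rcases hg with rfl | hg
          · simp [levG]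
          · rw [ref_lev X D E K _ _ _ hg]; simp [levG]
      · cases k <;> simp [spec, hv] at hg
    | succ e =>
      cases k with
      | some β =>
        simp only [spec, Arg.gate.injEq, reduceCtorEq, false_or] at hg
        subst hg
        simp only [levG, Option.elim]
        omega
      | none =>
        simp only [spec, Arg.gate.injEq] at hg
        rcases hg with rfl | rfl <;> simp [levG]

open Classical in
theorem upper [Fintype O] {ι : Type} (emb : Var α O D E ↪ ι) (o : O) (ho : X o ≠ ∅) (K : Type)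
    [Semiring K] : ∃ C : Circuit (ι × Bool) K, C.Decomposable ∧
      C.ComputesBool (fun x => decide (Hard X D E dec (fun i => x (emb i)) D o)) ∧
      C.size = (D + 1) * (Fintype.card O * ((E + 1) * (2 ^ E * 3))) ∧
      C.DepthLE ((D + 1) * (2 * E + 2)) := by
  have h := build (K := K) emb (fun g => (spec X D E dec K g).1) (fun g => (spec X D E dec K g).2.1)
    (fun g => (spec X D E dec K g).2.2) (Fin.last D, o, Fin.last E, fun _ => false, none)
    (fun x => decide (Hard X D E dec x D o)) ((D + 1) * (2 * E + 2))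
    (fun x => ⟨fun g => ind K (sem X D E dec x g), sem_spec X D E dec K x, by
      simp only [sem_top X D E dec x _ o ho, Fin.val_last, decide_eq_true_eq, ind_ite]⟩)
    (Vg X D E dec) (vars_spec X D E dec K) (levG D E)
    (by
      rintro ⟨⟨d, h⟩, o, ⟨e, h'⟩, p, k⟩
      have : d * (2 * E + 2) ≤ D * (2 * E + 2) := Nat.mul_le_mul_right _ (by omega)
      cases k <;> simp only [levG, Option.elim, add_mul D 1, one_mul] <;> omega)
    (lev_spec X D E dec K)
  simpa using h

end hard

end part1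

/-! The separation for decomposable circuits. -/

section part2


theorem lower_of_match {α β ι K : Type} [Fintype α] [DecidableEq α] [CommSemiring K] [Nontrivial K]
    (emb : α ⊕ β ↪ ι) (f : (ι → Bool) → Bool) (m : ℕ) (hm : Fintype.card α = 2 * m)
    (hf : ∀ Y : Finset α, Y.card = m → ∃ (aux : β → Bool) (μ : α → α), (∀ a, μ (μ a) = a) ∧
      (∀ a, a ∈ Y ↔ μ a ∉ Y) ∧ ∀ (x : α → Bool) (z : ι → Bool),
        (fun i => z (emb i)) = Sum.elim x aux → (f z ↔ ∀ a, x a = x (μ a)))
    (C : Circuit (ι × Bool) K) (w k q L : ℕ) (hd : C.Decomposable) (hc : C.ComputesBool f)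
    (hw : C.WidthLE w) (hq : 1 ≤ q)
    (h1 : 2 ^ k * ((2 * k + 1) * w) ^ L * ((k * w + 1) * (2 * (w * k) + 1) + 1) ^ L * (2 * m + 1)
      < q ^ L)
    (h2 : 2 ^ L * (2 * (w * k) + 1 + 4 + k * ((w + 1) * (2 * q ^ 2))) ≤ 2 * m) :
    2 ^ k < C.size := by
  classical
  by_contra hk
  obtain ⟨V, hV⟩ := hd
  obtain ⟨lev, hlev, hw⟩ := hw
  let W : Fin C.size → Finset α := fun g => Finset.univ.filter fun a => emb (.inl a) ∈ V g
  obtain ⟨Y, hY, hS⟩ := exists_low C (fun g => lev g + C.size) W (lev C.out) w k q L m hm hq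
    (fun i => le_trans (Finset.card_le_card fun g hg => by
      simp only [Finset.mem_filter, Finset.mem_univ, true_and] at hg ⊢
      omega) (hw (i - C.size))) (by omega) rfl h1 h2
  obtain ⟨aux, μ, hμ, hYμ, hx⟩ := hf Y hY
  let ext : (α → Bool) → ι → Bool := fun y => Function.extend emb (Sum.elim y aux) fun _ => false
  have hext : ∀ y i, ext y (emb i) = Sum.elim y aux i := fun y i => emb.injective.extend_apply _ _ _
  choose v hv hout using hc
  let lv : ι × Bool → Finset α := fun l => Finset.univ.filter fun a => emb (.inl a) = l.1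
  have harg : ∀ (b : Arg (ι × Bool) K (Fin C.size)) a, a ∈ b.val lv (fun _ => ∅) W ↔
      emb (.inl a) ∈ b.val (fun l => ({l.1} : Set ι)) (fun _ => ∅) V := by
    intro b a
    cases b <;> simp [Arg.val, lv, W]
  let S : Setup C α :=
    { lev := fun g => lev g + C.size
      W := W
      lv := lv
      x := fun l y => if ext y l.1 = l.2 then 1 else 0
      k := fun c _ => c
      v := fun g y => v (ext y) g
      hlev := fun g g' h => by have := hlev g g' h; omega
      hlv := fun l => Finset.card_le_one.2 fun a ha b hb => by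
        simp only [lv, Finset.mem_filter, Finset.mem_univ, true_and] at ha hb
        exact Sum.inl_injective (emb.injective (ha.trans hb.symm))
      hl := fun g a ha => by simpa [W] using (hV g).1 ((harg _ _).1 ha)
      hr := fun g a ha => by simpa [W] using (hV g).2.1 ((harg _ _).1 ha)
      hd := fun g hg => Finset.disjoint_left.2 fun a ha hb =>
        Set.disjoint_left.1 ((hV g).2.2 hg) ((harg _ _).1 ha) ((harg _ _).1 hb)
      hx := fun l y y' h => by
        have : ext y l.1 = ext y' l.1 := by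
          by_cases h3 : ∃ i, emb i = l.1
          · obtain ⟨i, hi⟩ := h3
            rw [← hi, hext, hext]
            rcases i with a | b
            · exact h a (by simp [lv, hi])
            · rfl
          · simp only [ext, Function.extend_apply' _ _ _ h3]
        simp only [this]
      hk := fun _ _ _ _ => rfl
      hv := fun g => by
        funext y
        have := op_hom (Pi.evalRingHom (fun _ : α → Bool => K) y) (Γ := C)
          (fun (l : ι × Bool) y => if ext y l.1 = l.2 then 1 else 0) (fun c _ => c)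
          (fun g y => v (ext y) g) g
        exact (hv (ext y) g).trans this.symm }
  obtain ⟨t, ht, hr⟩ := hS S rfl rfl
  refine absurd (rk_match μ hμ hYμ (fun y => ?_) hr) (not_le.2 ht)
  show v (ext y) C.out = _
  rw [hout]
  simp only [hx y (ext y) (funext (hext y))]

theorem pow_four_le (r : ℕ) (h : 16 ≤ r) : r ^ 4 ≤ 2 ^ r := by
  induction r, h using Nat.le_induction with
  | base => norm_num
  | succ r h ih =>
    have h1 : (r + 1) ^ 4 ≤ 2 * r ^ 4 := by
      have h2 : 16 * r ≤ r * r := Nat.mul_le_mul_right _ h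
      have h3 : 16 * (r * r) ≤ r * (r * r) := Nat.mul_le_mul_right _ h
      have h4 : 16 * (r * (r * r)) ≤ r * (r * (r * r)) := Nat.mul_le_mul_right _ h
      nlinarith
    rw [pow_succ 2]
    omega

theorem separation (ρ : ℕ) (hρ : 60 ≤ ρ) {ι : Type} [Fintype ι] (hι : 2 ^ (60 * ρ) ≤ Fintype.card ι) :
    ∃ f : (ι → Bool) → Bool, ∀ (K : Type) [CommSemiring K] [Nontrivial K],
      (∃ C : Circuit (ι × Bool) K, C.Decomposable ∧ C.ComputesBool f ∧ C.size ≤ 2 ^ (240 * ρ) ∧
        C.DepthLE (3 * (60 * ρ) ^ 2)) ∧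
      ∀ (C : Circuit (ι × Bool) K) (w : ℕ), C.Decomposable → C.ComputesBool f → C.WidthLE w →
        w ^ 2 ≤ 2 ^ ρ → 2 ^ (ρ ^ 2 / 2) < C.size := by
  classical
  obtain ⟨r, hr⟩ : ∃ r, r = 2 ^ ρ := ⟨_, rfl⟩
  have hρr : ρ ≤ r := hr ▸ Nat.lt_two_pow_self.le
  have hbig : 2 ^ 14 ≤ r := hr ▸ Nat.pow_le_pow_right (by norm_num) (by omega)
  have hpow : ∀ j, 2 ^ (j * ρ) = r ^ j := fun j => by rw [hr, ← pow_mul, mul_comm]
  obtain ⟨m, hm⟩ : ∃ m, r ^ 13 = 2 * m := ⟨2 ^ (13 * ρ - 1), by
    rw [← hpow, ← pow_succ']; congr 1; omega⟩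
  have hr1 : 1 ≤ r := by omega
  have hO : Fintype.card (Fin (2 * m + 1) × Fin (2 * m + 1) × Fin (2 * m + 1) × Fin (2 * m + 1))
      ≤ r ^ 56 := by
    have h1 : 2 * m + 1 ≤ r ^ 14 := by
      have : 1 ≤ r ^ 13 := Nat.one_le_pow _ _ hr1
      rw [pow_succ]
      nlinarith
    simp only [Fintype.card_prod, Fintype.card_fin]
    calc _ ≤ r ^ 14 * (r ^ 14 * (r ^ 14 * r ^ 14)) := by gcongr
      _ = _ := by ring
  obtain ⟨O, _, X, o, hO, ho, hX⟩ : ∃ (O : Type) (_ : Fintype O) (X : O → Finset (Fin (2 * m)))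
      (o : O), Fintype.card O ≤ r ^ 56 ∧ X o = Finset.univ ∧
      ∀ Y : Finset (Fin (2 * m)), Y.card = m → Dec X Y (26 * ρ) Finset.univ := by
    refine ⟨_, inferInstance, segs (2 * m), (0, Fin.last _, 0, 0), hO, ?_, fun Y hY => ?_⟩
    · ext p
      simp [segs, mem_seg]
    · have := dec_univ m (13 * ρ) (by rw [hpow, hm]) Y hY
      rwa [← mul_assoc] at this
  obtain ⟨dec, hdec⟩ : ∃ dec : (Fin (168 * ρ) → Bool) → O × O × O, Function.Surjective dec := by
    have : Nonempty (O × O × O) := ⟨(o, o, o)⟩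
    obtain ⟨e⟩ : Nonempty (O × O × O ↪ (Fin (168 * ρ) → Bool)) := by
      refine Function.Embedding.nonempty_of_card_le ?_
      simp only [Fintype.card_prod, Fintype.card_fun, Fintype.card_bool, Fintype.card_fin, hpow]
      calc _ ≤ r ^ 56 * (r ^ 56 * r ^ 56) := by gcongr
        _ = _ := by ring
    exact ⟨_, Function.invFun_surjective e.injective⟩
  obtain ⟨emb⟩ : Nonempty (Var (Fin (2 * m)) O (26 * ρ) (168 * ρ) ↪ ι) := by
    refine Function.Embedding.nonempty_of_card_le (le_trans ?_ hι)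
    simp only [Fintype.card_sum, Fintype.card_prod, Fintype.card_fin, hpow, ← hm]
    have h1 : (26 * ρ + 1) * (Fintype.card O * (168 * ρ)) ≤ r ^ 59 :=
      calc _ ≤ (27 * r) * (r ^ 56 * (168 * r)) := by gcongr; omega
        _ = 4536 * r ^ 58 := by ring
        _ ≤ r * r ^ 58 := Nat.mul_le_mul_right _ (by omega)
        _ = _ := by ring
    have h2 : r ^ 13 ≤ r ^ 59 := Nat.pow_le_pow_right hr1 (by norm_num)
    have h3 : 2 * r ^ 59 ≤ r * r ^ 59 := Nat.mul_le_mul_right _ (by omega)
    rw [show r * r ^ 59 = r ^ 60 by ring] at h3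
    omega
  have hm0 : 0 < m := by
    have : 1 ≤ r ^ 13 := Nat.one_le_pow _ _ hr1
    omega
  have hne : X o ≠ ∅ := by
    rw [ho]
    exact Finset.ne_empty_of_mem (Finset.mem_univ ⟨0, by omega⟩)
  refine ⟨fun x => decide (Hard X (26 * ρ) (168 * ρ) dec (fun i => x (emb i)) (26 * ρ) o),
    fun K _ _ => ⟨?_, fun C w hd hc hw hw2 => ?_⟩⟩
  · obtain ⟨C, h1, h2, h3, lev, h4, h5⟩ := upper X (26 * ρ) (168 * ρ) dec emb o hne K
    refine ⟨C, h1, h2, ?_, lev, fun g => ⟨(h4 g).1, (h4 g).2.trans (by nlinarith)⟩, h5⟩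
    rw [h3, hpow, hpow]
    calc _ ≤ (27 * r) * (r ^ 56 * ((169 * r) * (r ^ 168 * 3))) := by gcongr <;> omega
      _ = 13689 * r ^ 226 := by ring
      _ ≤ r * r ^ 226 := Nat.mul_le_mul_right _ (by omega)
      _ = r ^ 227 := by ring
      _ ≤ _ := Nat.pow_le_pow_right hr1 (by norm_num)
  · obtain ⟨k, hk⟩ : ∃ k, k = ρ ^ 2 / 2 := ⟨_, rfl⟩
    rw [← hk]
    have hk2 : 2 * k ≤ ρ ^ 2 := by omega
    have hk3 : k ≤ r := by
      have h1 := pow_four_le ρ (by omega)
      have h2 : ρ ^ 2 ≤ ρ ^ 4 := Nat.pow_le_pow_right (by omega) (by norm_num)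
      omega
    have hwk : w * k ≤ r := by
      refine (Nat.pow_le_pow_iff_left (n := 2) (by norm_num)).1 ?_
      have h1 := pow_four_le ρ (by omega)
      calc (w * k) ^ 2 = w ^ 2 * k ^ 2 := by ring
        _ ≤ r * (ρ ^ 2) ^ 2 := Nat.mul_le_mul (hr ▸ hw2) (Nat.pow_le_pow_left (by omega) _)
        _ = r * ρ ^ 4 := by ring
        _ ≤ r * r := Nat.mul_le_mul_left _ (hr ▸ h1)
        _ = _ := by ring
    have hwr : w ≤ r := by nlinarith
    refine lower_of_match emb _ m (by simp) (fun Y hY => ?_) C w k (r ^ 5) ρ hd hc hw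
      (Nat.one_le_pow _ _ hr1) ?_ ?_
    · obtain ⟨aux, h⟩ := hard_match X (26 * ρ) (168 * ρ) dec hdec Y
      obtain ⟨μ, h1, h2⟩ := h _ le_rfl o (ho ▸ hX Y hY)
      simp only [ho, Finset.mem_univ, true_and, forall_true_left] at h1 h2
      exact ⟨aux, μ, fun a => (h1 a).1, fun a => (h1 a).2, fun x z hz => by
        simp only [hz, decide_eq_true_eq, h2]⟩
    · have h1 : (2 * k + 1) * w * ((k * w + 1) * (2 * (w * k) + 1) + 1) ≤ r ^ 4 :=
        calc _ ≤ (3 * r) * ((r + 1) * (2 * r + 1) + 1) := by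
              refine Nat.mul_le_mul (by nlinarith) ?_
              rw [mul_comm k w]
              gcongr
          _ ≤ (3 * r) * (7 * r ^ 2) := Nat.mul_le_mul_left _ (by nlinarith)
          _ = 21 * r ^ 3 := by ring
          _ ≤ r * r ^ 3 := Nat.mul_le_mul_right _ (by omega)
          _ = _ := by ring
      have h2 : 2 ^ k * (2 * m + 1) < r ^ ρ := by
        rw [← hm, ← hpow, ← hpow]
        calc _ < 2 ^ k * (2 ^ (13 * ρ) * 2) := by
              have : 1 < 2 ^ (13 * ρ) := Nat.one_lt_two_pow (by omega)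
              exact Nat.mul_lt_mul_of_pos_left (by omega) (by positivity)
          _ = 2 ^ (k + (13 * ρ + 1)) := by ring
          _ ≤ _ := Nat.pow_le_pow_right (by norm_num) (by nlinarith)
      calc _ = ((2 * k + 1) * w * ((k * w + 1) * (2 * (w * k) + 1) + 1)) ^ ρ *
            (2 ^ k * (2 * m + 1)) := by rw [mul_pow ((2 * k + 1) * w)]; ring
        _ ≤ (r ^ 4) ^ ρ * (2 ^ k * (2 * m + 1)) :=
            Nat.mul_le_mul_right _ (Nat.pow_le_pow_left h1 _)
        _ < (r ^ 4) ^ ρ * r ^ ρ := Nat.mul_lt_mul_of_pos_left h2 (by positivity)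
        _ = _ := by rw [← mul_pow, ← pow_succ]
    · rw [← hr, ← hm]
      have h1 : k * ((w + 1) * (2 * (r ^ 5) ^ 2)) ≤ 4 * r ^ 11 :=
        calc _ = (w * k + k) * (2 * r ^ 10) := by ring
          _ ≤ (r + r) * (2 * r ^ 10) := by gcongr
          _ = _ := by ring
      have h2 : r ≤ r ^ 11 := Nat.le_self_pow (by norm_num) _
      have h3 : 11 * r ^ 11 ≤ r * r ^ 11 := Nat.mul_le_mul_right _ (by omega)
      calc _ ≤ r * (r * r ^ 11) := Nat.mul_le_mul_left _ (by omega)
        _ = _ := by ring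

theorem separation_fin (n : ℕ) (hn : 2 ^ 12000 ≤ n) :
    ∃ f : (Fin n → Bool) → Bool, ∀ (K : Type) [CommSemiring K] [Nontrivial K],
      (∃ C : Circuit (Fin n × Bool) K, C.Decomposable ∧ C.ComputesBool f ∧ C.size ≤ n ^ 4 ∧
        C.DepthLE (3 * Nat.log 2 n ^ 2)) ∧
      ∀ (C : Circuit (Fin n × Bool) K) (w : ℕ), C.Decomposable → C.ComputesBool f → C.WidthLE w →
        w ^ 12000 ≤ n → n ^ Nat.log 2 n ≤ C.size ^ 12000 := by
  obtain ⟨l, hl⟩ : ∃ l, l = Nat.log 2 n := ⟨_, rfl⟩
  have hn0 : n ≠ 0 := by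
    rintro rfl
    exact absurd hn (not_le.2 (Nat.two_pow_pos _))
  have h1 : 12000 ≤ l := hl ▸ Nat.le_log_of_pow_le (by norm_num) hn
  have h2 : 2 ^ l ≤ n := hl ▸ Nat.pow_log_le_self 2 hn0
  have h3 : n < 2 ^ (l + 1) := hl ▸ Nat.lt_pow_succ_log_self (by norm_num) n
  clear hn
  obtain ⟨ρ, hρ⟩ : ∃ ρ, ρ = l / 60 := ⟨_, rfl⟩
  have h4 : 2 ^ (60 * ρ) ≤ n := (Nat.pow_le_pow_right (by norm_num) (by omega)).trans h2
  have h5 : n < 2 ^ (61 * ρ) := h3.trans_le (Nat.pow_le_pow_right (by norm_num) (by omega))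
  obtain ⟨f, hf⟩ := separation ρ (by omega) (ι := Fin n) (by simpa using h4)
  rw [← hl]
  refine ⟨f, fun K _ _ => ⟨?_, fun C w hd hc hw hwn => ?_⟩⟩
  · obtain ⟨C, c1, c2, c3, lev, c4, c5⟩ := (hf K).1
    refine ⟨C, c1, c2, c3.trans ?_, lev, fun g => ⟨(c4 g).1, (c4 g).2.trans ?_⟩, c5⟩
    · rw [show 240 * ρ = 60 * ρ * 4 by ring, pow_mul]
      exact Nat.pow_le_pow_left h4 _
    · exact Nat.mul_le_mul_left _ (Nat.pow_le_pow_left (by omega) _)
  · have h6 : w ^ 2 ≤ 2 ^ ρ := by
      by_contra h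
      have h7 : (2 ^ ρ) ^ 6000 ≤ (w ^ 2) ^ 6000 := Nat.pow_le_pow_left (by omega) _
      rw [← pow_mul, ← pow_mul] at h7
      have h8 : 2 ^ (61 * ρ) ≤ 2 ^ (ρ * 6000) := Nat.pow_le_pow_right (by norm_num) (by omega)
      exact absurd (h8.trans (h7.trans hwn)) (not_le.2 h5)
    have h7 := (hf K).2 C w hd hc hw h6
    calc n ^ l ≤ (2 ^ (61 * ρ)) ^ l := Nat.pow_le_pow_left h5.le _
      _ = 2 ^ (61 * ρ * l) := by rw [← pow_mul]
      _ ≤ 2 ^ (ρ ^ 2 / 2 * 12000) := by
          refine Nat.pow_le_pow_right (by norm_num) ?_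
          have h8 : 61 * ρ * l ≤ 61 * ρ * (61 * ρ) := Nat.mul_le_mul_left _ (by omega)
          have h9 : 200 * 200 ≤ ρ * ρ := Nat.mul_le_mul (by omega) (by omega)
          have h10 : 61 * ρ * (61 * ρ) = 3721 * ρ ^ 2 := by ring
          rw [← sq] at h9
          rw [← sq] at h9
          omega
      _ = (2 ^ (ρ ^ 2 / 2)) ^ 12000 := by rw [← pow_mul]
      _ ≤ _ := Nat.pow_le_pow_left h7.le _

end part2

end Pool.Agent.MP_1a6d78_lc.h61
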