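import Mathlib.Algebra.MvPolynomial.Eval
import Mathlib.Data.Nat.Choose.Central
import Mathlib.Data.Finsupp.Weight
import Mathlib.LinearAlgebra.Matrix.InvariantBasisNumber
import Mathlib.Tactic.Monotonicity.Lemmas
import Mathlib.Data.Int.Star
import Mathlib.Algebra.Order.Ring.Star
import Mathlib.Analysis.Real.Sqrt
import Mathlib.Tactic.Polynomial.Basic
import Pool.Agent.MP_1a6d78_lc.h61.Run

-- ======== part 0: formerly Pool.Agent.MP_1a6d78_lc.h61.Rank
section MrgPart0

set_option linter.unusedSectionVars false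

namespace Pool.Agent.MP_1a6d78_lc.h61

/-! The rank of a function on the cube with respect to a partition of the variables. -/

section part0


variable {α K : Type} [CommSemiring K]

/-- `f` depends only on the variables in `U`. -/
def Dep (f : (α → Bool) → K) (U : Finset α) : Prop :=
  ∀ x y : α → Bool, (∀ a ∈ U, x a = y a) → f x = f y

theorem Dep.mono {f : (α → Bool) → K} {U V : Finset α} (h : Dep f U) (hUV : U ⊆ V) : Dep f V :=
  fun x y hxy => h x y fun a ha => hxy a (hUV ha)

theorem Dep.zero (U : Finset α) : Dep (0 : (α → Bool) → K) U := fun _ _ _ => rfl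

theorem Dep.one (U : Finset α) : Dep (1 : (α → Bool) → K) U := fun _ _ _ => rfl

theorem Dep.add {f g : (α → Bool) → K} {U : Finset α} (hf : Dep f U) (hg : Dep g U) :
    Dep (f + g) U := fun x y h => by simp only [Pi.add_apply, hf x y h, hg x y h]

theorem Dep.mul {f g : (α → Bool) → K} {U : Finset α} (hf : Dep f U) (hg : Dep g U) :
    Dep (f * g) U := fun x y h => by simp only [Pi.mul_apply, hf x y h, hg x y h]

theorem Dep.sum {I : Type} {s : Finset I} {f : I → (α → Bool) → K} {U : Finset α}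
    (h : ∀ i ∈ s, Dep (f i) U) : Dep (∑ i ∈ s, f i) U := fun x y hxy => by
  simp only [Finset.sum_apply]
  exact Finset.sum_congr rfl fun i hi => h i hi x y hxy

variable [Fintype α] [DecidableEq α]

/-- `f` is a sum of at most `t` products of a function of the variables in `Y` and a function of
the other variables. -/
def Rk (Y : Finset α) (f : (α → Bool) → K) (t : ℝ) : Prop :=
  ∃ (I : Type) (s : Finset I) (p q : I → (α → Bool) → K), (s.card : ℝ) ≤ t ∧
    (∀ i, Dep (p i) Y) ∧ (∀ i, Dep (q i) Yᶜ) ∧ f = ∑ i ∈ s, p i * q i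

variable {Y : Finset α}

theorem Rk.mono {f : (α → Bool) → K} {t t' : ℝ} (h : Rk Y f t) (ht : t ≤ t') : Rk Y f t' := by
  obtain ⟨I, s, p, q, h1, h2⟩ := h
  exact ⟨I, s, p, q, h1.trans ht, h2⟩

theorem Rk.nonneg {f : (α → Bool) → K} {t : ℝ} (h : Rk Y f t) : 0 ≤ t := by
  obtain ⟨I, s, p, q, h1, h2⟩ := h
  exact (Nat.cast_nonneg _).trans h1

theorem Rk.zero {t : ℝ} (ht : 0 ≤ t) : Rk Y (0 : (α → Bool) → K) t :=
  ⟨Unit, ∅, 0, 0, by simpa using ht, fun _ => Dep.zero _, fun _ => Dep.zero _, by simp⟩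

theorem Rk.one : Rk Y (1 : (α → Bool) → K) 1 :=
  ⟨Unit, {()}, 1, 1, by simp, fun _ => Dep.one _, fun _ => Dep.one _, by simp⟩

theorem Rk.add {f g : (α → Bool) → K} {t u : ℝ} (hf : Rk Y f t) (hg : Rk Y g u) :
    Rk Y (f + g) (t + u) := by
  obtain ⟨I, s, p, q, h1, h2, h3, rfl⟩ := hf
  obtain ⟨J, s', p', q', h1', h2', h3', rfl⟩ := hg
  refine ⟨I ⊕ J, s.disjSum s', Sum.elim p p', Sum.elim q q', ?_, ?_, ?_, ?_⟩
  · rw [Finset.card_disjSum]; push_cast; linarith
  · rintro (i | i)
    exacts [h2 i, h2' i]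
  · rintro (i | i)
    exacts [h3 i, h3' i]
  · rw [Finset.sum_disjSum]; rfl

theorem Rk.mul {f g : (α → Bool) → K} {t u : ℝ} (hf : Rk Y f t) (hg : Rk Y g u) :
    Rk Y (f * g) (t * u) := by
  have ht := hf.nonneg
  obtain ⟨I, s, p, q, h1, h2, h3, rfl⟩ := hf
  obtain ⟨J, s', p', q', h1', h2', h3', rfl⟩ := hg
  refine ⟨I × J, s ×ˢ s', fun i => p i.1 * p' i.2, fun i => q i.1 * q' i.2, ?_,
    fun i => (h2 _).mul (h2' _), fun i => (h3 _).mul (h3' _), ?_⟩
  · rw [Finset.card_product]; push_cast
    exact mul_le_mul h1 h1' (Nat.cast_nonneg _) ht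
  · rw [Finset.sum_mul_sum, Finset.sum_product]
    exact Finset.sum_congr rfl fun i _ => Finset.sum_congr rfl fun j _ => by ring

theorem Rk.sum {I : Type} (s : Finset I) (f : I → (α → Bool) → K) (t : ℝ)
    (h : ∀ i ∈ s, Rk Y (f i) t) : Rk Y (∑ i ∈ s, f i) (s.card * t) := by
  classical
  induction s using Finset.induction_on with
  | empty => simpa using Rk.zero le_rfl
  | insert i s hi ih =>
    rw [Finset.sum_insert hi, Finset.card_insert_of_notMem hi]
    refine ((h i (Finset.mem_insert_self _ _)).add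
      (ih fun j hj => h j (Finset.mem_insert_of_mem hj))).mono (le_of_eq ?_)
    push_cast; ring

theorem Rk.prod {I : Type} (s : Finset I) (f : I → (α → Bool) → K) (t : I → ℝ)
    (h : ∀ i ∈ s, Rk Y (f i) (t i)) : Rk Y (∏ i ∈ s, f i) (∏ i ∈ s, t i) := by
  classical
  induction s using Finset.induction_on with
  | empty => simpa using Rk.one
  | insert i s hi ih =>
    rw [Finset.prod_insert hi, Finset.prod_insert hi]
    exact (h i (Finset.mem_insert_self _ _)).mul (ih fun j hj => h j (Finset.mem_insert_of_mem hj))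

theorem Rk.compl {f : (α → Bool) → K} {t : ℝ} (h : Rk Yᶜ f t) : Rk Y f t := by
  obtain ⟨I, s, p, q, h1, h2, h3, rfl⟩ := h
  exact ⟨I, s, q, p, h1, by simpa using h3, h2, Finset.sum_congr rfl fun i _ => mul_comm _ _⟩

theorem Dep.rk_left {f : (α → Bool) → K} {U : Finset α} (h : Dep f U) :
    Rk Y f (2 ^ (U ∩ Y).card) := by
  classical
  refine ⟨Finset α, (U ∩ Y).powerset,
    fun T x => if (U ∩ Y).filter (fun a => x a = true) = T then 1 else 0,
    fun T x => f fun a => if a ∈ Y then decide (a ∈ T) else x a,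
    by rw [Finset.card_powerset]; simp, ?_, ?_, ?_⟩
  · intro T x y hxy
    have : (U ∩ Y).filter (fun a => x a = true) = (U ∩ Y).filter (fun a => y a = true) :=
      Finset.filter_congr fun a ha => by rw [hxy a (Finset.mem_inter.1 ha).2]
    simp only [this]
  · intro T x y hxy
    dsimp only
    congr 1
    funext a
    split_ifs with ha
    · rfl
    · exact hxy a (Finset.mem_compl.2 ha)
  · funext x
    simp only [Finset.sum_apply, Pi.mul_apply, ite_mul, one_mul, zero_mul]
    rw [Finset.sum_ite_eq, if_pos (Finset.mem_powerset.2 (Finset.filter_subset _ _))]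
    refine h _ _ fun a ha => ?_
    split_ifs with hY
    · cases hx : x a <;> simp [ha, hY, hx]
    · rfl

/-- The imbalance of `U` with respect to the partition into `Y` and its complement. -/
def imb (Y U : Finset α) : ℤ := 2 * (U ∩ Y).card - U.card

theorem Dep.rk_imb {f : (α → Bool) → K} {U : Finset α} (h : Dep f U) (τ : ℕ)
    (hτ : τ ≤ (imb Y U).natAbs) : Rk Y f (√2 ^ U.card / √2 ^ τ) := by
  have h2 : (1 : ℝ) ≤ √2 := by rw [Real.one_le_sqrt]; norm_num
  have key : ∀ e : ℕ, 2 * e + τ ≤ U.card → (2 : ℝ) ^ e ≤ √2 ^ U.card / √2 ^ τ := by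
    intro e he
    rw [le_div_iff₀ (by positivity)]
    calc (2 : ℝ) ^ e * √2 ^ τ = √2 ^ (2 * e + τ) := by
          rw [pow_add, pow_mul, Real.sq_sqrt (by norm_num)]
      _ ≤ _ := pow_le_pow_right₀ h2 he
  have hc : (U ∩ Y).card + (U ∩ Yᶜ).card = U.card := by
    rw [← Finset.sdiff_eq_inter_compl, Finset.card_inter_add_card_sdiff]
  unfold imb at hτ
  by_cases h3 : 2 * (U ∩ Y).card + τ ≤ U.card
  · exact h.rk_left.mono (key _ h3)
  · exact (h.rk_left.mono (key _ (by omega))).compl

theorem Dep.rk_full {f : (α → Bool) → K} {U : Finset α} (h : Dep f U) : Rk Y f (√2 ^ U.card) := by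
  simpa using h.rk_imb (Y := Y) 0 (Nat.zero_le _)

theorem imb_union {U V : Finset α} (h : Disjoint U V) : imb Y (U ∪ V) = imb Y U + imb Y V := by
  unfold imb
  rw [Finset.union_inter_distrib_right, Finset.card_union_of_disjoint h,
    Finset.card_union_of_disjoint (h.mono Finset.inter_subset_left Finset.inter_subset_left)]
  push_cast; ring

theorem rk_match [Nontrivial K] (μ : α → α) (hμ : ∀ a, μ (μ a) = a) (hY : ∀ a, a ∈ Y ↔ μ a ∉ Y)
    {f : (α → Bool) → K} (hf : ∀ x, f x = if ∀ a, x a = x (μ a) then 1 else 0) {t : ℝ}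
    (h : Rk Y f t) : √2 ^ Fintype.card α ≤ t := by
  classical
  obtain ⟨I, s, p, q, h1, h2, h3, h4⟩ := h
  let glue : (Y → Bool) → (Y → Bool) → α → Bool := fun u v a =>
    if ha : a ∈ Y then u ⟨a, ha⟩ else v ⟨μ a, by by_contra hb; exact ha ((hY a).2 hb)⟩
  let A : Matrix (Y → Bool) s K := fun u i => p i (glue u u)
  let B : Matrix s (Y → Bool) K := fun i v => q i (glue v v)
  have hAB : A * B = 1 := by
    ext u v
    have e1 : (A * B) u v = f (glue u v) := by
      rw [Matrix.mul_apply, h4, Finset.sum_apply, ← Finset.sum_coe_sort s]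
      refine Finset.sum_congr rfl fun i _ => ?_
      simp only [A, B, Pi.mul_apply]
      congr 1
      · exact h2 i _ _ fun a ha => by simp only [glue, dif_pos ha]
      · exact h3 i _ _ fun a ha => by simp only [glue, dif_neg (Finset.mem_compl.1 ha)]
    rw [e1, hf, Matrix.one_apply]
    congr 1
    apply propext
    constructor
    · intro hx
      funext ⟨a, ha⟩
      have := hx a
      simpa only [glue, dif_pos ha, dif_neg ((hY a).1 ha), hμ] using this
    · rintro rfl a
      by_cases ha : a ∈ Y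
      · simp only [glue, dif_pos ha, dif_neg ((hY a).1 ha), hμ]
      · have hb : μ a ∈ Y := by by_contra hb; exact ha ((hY a).2 hb)
        simp only [glue, dif_neg ha, dif_pos hb]
  have hc := card_le_of_surjective K (Matrix.toLin' A) (fun y => ⟨B.mulVec y, by
    rw [Matrix.toLin'_apply, Matrix.mulVec_mulVec, hAB, Matrix.one_mulVec]⟩)
  have hcard : Y.card = Yᶜ.card := by
    refine Finset.card_bij (fun a _ => μ a) (fun a ha => Finset.mem_compl.2 ((hY a).1 ha))
      (fun a _ b _ hab => by rw [← hμ a, hab, hμ]) fun b hb => ⟨μ b, ?_, hμ b⟩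
    by_contra h
    exact Finset.mem_compl.1 hb ((hY b).2 h)
  have hn : Fintype.card α = 2 * Y.card := by
    have := Finset.card_add_card_compl Y
    omega
  rw [hn, pow_mul, Real.sq_sqrt (by norm_num)]
  refine le_trans ?_ h1
  simp only [Fintype.card_fun, Fintype.card_bool, Fintype.card_coe] at hc
  exact_mod_cast hc

end part0

/-! Few partitions balance a family of sets with large new parts. -/

section part1


theorem central_sq (k : ℕ) : k.centralBinom ^ 2 * (2 * k + 1) ≤ 16 ^ k := by
  induction k with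
  | zero => simp
  | succ k ih =>
    have h := Nat.succ_mul_centralBinom_succ k
    have h2 : ((k + 1) * (k + 1).centralBinom) ^ 2 * (2 * (k + 1) + 1) ≤
        (k + 1) ^ 2 * 16 ^ (k + 1) := by
      rw [h]
      calc (2 * (2 * k + 1) * k.centralBinom) ^ 2 * (2 * (k + 1) + 1)
          = (k.centralBinom ^ 2 * (2 * k + 1)) * (4 * ((2 * k + 1) * (2 * k + 3))) := by ring
        _ ≤ 16 ^ k * (16 * (k + 1) ^ 2) := Nat.mul_le_mul ih (by nlinarith)
        _ = _ := by ring
    rw [mul_pow, mul_assoc] at h2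
    exact Nat.le_of_mul_le_mul_left h2 (by positivity)

theorem central_mul_le (q : ℕ) : (q ^ 2).centralBinom * q ≤ 2 ^ (2 * q ^ 2) := by
  refine (Nat.pow_le_pow_iff_left (n := 2) (by norm_num)).1 ?_
  have h := central_sq (q ^ 2)
  calc _ = (q ^ 2).centralBinom ^ 2 * q ^ 2 := by ring
    _ ≤ (q ^ 2).centralBinom ^ 2 * (2 * q ^ 2 + 1) := Nat.mul_le_mul_left _ (by omega)
    _ ≤ 16 ^ q ^ 2 := h
    _ = _ := by rw [← pow_mul, show (16 : ℕ) = 2 ^ 4 by norm_num, ← pow_mul]; ring_nf

variable {α : Type} [Fintype α] [DecidableEq α]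

theorem count_step (E : Finset (Finset α)) (B U : Finset α) (q τ : ℕ) (hB : B.card = 2 * q ^ 2)
    (hBU : B ⊆ U) (hE : ∀ Y Y' : Finset α, Y \ B = Y' \ B → Y ∈ E → Y' ∈ E) :
    (E.filter fun Y => (imb Y U).natAbs ≤ τ).card * q ≤ (τ + 1) * E.card := by
  have h1 : (E.filter fun Y => (imb Y U).natAbs ≤ τ).card ≤
      ((τ + 1) * (q ^ 2).centralBinom) * (E.image (· \ B)).card := by
    refine Finset.card_le_mul_card_image_of_maps_to (f := (· \ B))
      (fun Y hY => Finset.mem_image_of_mem _ (Finset.mem_filter.1 hY).1) _ fun Y0 _ => ?_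
    obtain ⟨lo, hlo⟩ : ∃ lo, lo = (U.card - τ - 2 * (U ∩ Y0).card + 1) / 2 := ⟨_, rfl⟩
    calc _ ≤ ((Finset.Icc lo (lo + τ)).biUnion fun i => B.powersetCard i).card := by
          refine Finset.card_le_card_of_injOn (· ∩ B) (fun Y hY => ?_) fun Y hY Y' hY' h => ?_
          · simp only [Finset.coe_filter, Finset.mem_filter, Set.mem_ofPred_eq] at hY
            obtain ⟨⟨-, h2⟩, rfl⟩ := hY
            have h3 : (U ∩ Y).card = (U ∩ (Y \ B)).card + (Y ∩ B).card := by
              rw [← Finset.card_union_of_disjoint]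
              · congr 1
                ext a
                have := @hBU a
                simp only [Finset.mem_inter, Finset.mem_union, Finset.mem_sdiff]
                tauto
              · rw [Finset.disjoint_left]
                intro a h4 h5
                simp only [Finset.mem_inter, Finset.mem_sdiff] at h4 h5
                exact h4.2.2 h5.2
            simp only [Finset.coe_biUnion, Finset.coe_Icc, Set.mem_iUnion, Finset.mem_coe,
              Finset.mem_powersetCard, Set.mem_Icc]
            unfold imb at h2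
            exact ⟨(Y ∩ B).card, ⟨by omega, by omega⟩, Finset.inter_subset_right, rfl⟩
          · simp only [Finset.coe_filter, Finset.mem_filter, Set.mem_ofPred_eq] at hY hY'
            rw [← Finset.sdiff_union_inter Y B, ← Finset.sdiff_union_inter Y' B, hY.2, hY'.2]
            exact congrArg _ h
      _ ≤ (Finset.Icc lo (lo + τ)).card * (q ^ 2).centralBinom :=
          Finset.card_biUnion_le_card_mul _ _ _ fun i _ => by
            rw [Finset.card_powersetCard, hB]
            exact Nat.choose_le_centralBinom _ _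
      _ = _ := by rw [Nat.card_Icc]; congr 1; omega
  have h2 : (E.image (· \ B)).card * 2 ^ (2 * q ^ 2) ≤ E.card := by
    rw [← hB, ← Finset.card_powerset, ← Finset.card_product]
    refine Finset.card_le_card_of_injOn (fun p => p.1 ∪ p.2) (fun p hp => ?_) fun p hp p' hp' h => ?_
    · simp only [Finset.coe_product, Finset.coe_image, Set.mem_prod, Set.mem_image, Finset.mem_coe,
        Finset.mem_powerset] at hp
      obtain ⟨⟨Y, hY, h3⟩, h4⟩ := hp
      refine hE Y _ ?_ hY
      dsimp only
      rw [← h3]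
      ext a
      have := @h4 a
      simp only [Finset.mem_sdiff, Finset.mem_union]
      tauto
    · simp only [Finset.coe_product, Finset.coe_image, Set.mem_prod, Set.mem_image, Finset.mem_coe,
        Finset.mem_powerset] at hp hp'
      obtain ⟨⟨Y, -, h3⟩, h4⟩ := hp
      obtain ⟨⟨Y', -, h3'⟩, h4'⟩ := hp'
      have h5 : ∀ a, a ∈ p.1 ∪ p.2 ↔ a ∈ p'.1 ∪ p'.2 := fun a => by rw [show p.1 ∪ p.2 = _ from h]
      ext a
      all_goals
        have := @h4 a
        have := @h4' a
        have := h5 a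
        rw [← h3, ← h3'] at *
        simp only [Finset.mem_sdiff, Finset.mem_union] at *
        tauto
  calc _ ≤ ((τ + 1) * (q ^ 2).centralBinom) * (E.image (· \ B)).card * q :=
        Nat.mul_le_mul_right _ h1
    _ = (τ + 1) * ((E.image (· \ B)).card * ((q ^ 2).centralBinom * q)) := by ring
    _ ≤ _ := Nat.mul_le_mul_left _ ((Nat.mul_le_mul_left _ (central_mul_le q)).trans h2)

variable {G : Type} [DecidableEq G]

/-- Every member of `F` has at least `θ` variables outside the members of at most its level. -/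
def Fresh (W : G → Finset α) (lev : G → ℕ) (θ : ℕ) (F : Finset G) : Prop :=
  ∀ u ∈ F, ∃ B ⊆ W u, θ ≤ B.card ∧ ∀ u' ∈ F, u' ≠ u → lev u' ≤ lev u → Disjoint (W u') B

theorem Fresh.subset {W : G → Finset α} {lev : G → ℕ} {θ : ℕ} {F F' : Finset G}
    (h : Fresh W lev θ F) (hF : F' ⊆ F) : Fresh W lev θ F' := fun u hu => by
  obtain ⟨B, h1, h2, h3⟩ := h u (hF hu)
  exact ⟨B, h1, h2, fun u' hu' => h3 u' (hF hu')⟩

theorem count_fresh (W : G → Finset α) (lev : G → ℕ) (q τ : ℕ) (F : Finset G)
    (h : Fresh W lev (2 * q ^ 2) F) :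
    (Finset.univ.filter fun Y : Finset α => ∀ u ∈ F, (imb Y (W u)).natAbs ≤ τ).card * q ^ F.card ≤
      (τ + 1) ^ F.card * 2 ^ Fintype.card α := by
  induction F using Finset.induction_on_max_value lev with
  | empty => simp
  | insert u F hu hmax ih =>
    obtain ⟨B0, h1, h2, h3⟩ := h u (Finset.mem_insert_self _ _)
    obtain ⟨B, hB, hc⟩ := Finset.exists_subset_card_eq h2
    have h4 := count_step (Finset.univ.filter fun Y : Finset α =>
      ∀ u ∈ F, (imb Y (W u)).natAbs ≤ τ) B (W u) q τ hc (hB.trans h1) (by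
        intro Y Y' hY
        simp only [Finset.mem_filter, Finset.mem_univ, true_and]
        intro h5 v hv
        have h6 : W v ∩ Y' = W v ∩ Y := by
          have h7 := Finset.disjoint_left.1
            (h3 v (Finset.mem_insert_of_mem hv) (fun h => hu (h ▸ hv)) (hmax v hv))
          ext a
          have h8 : a ∈ Y \ B ↔ a ∈ Y' \ B := by rw [hY]
          have := @h7 a
          have := @hB a
          simp only [Finset.mem_sdiff, Finset.mem_inter] at *
          tauto
        have := h5 v hv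
        unfold imb at this ⊢
        rwa [h6])
    have h5 := ih (h.subset (Finset.subset_insert _ _))
    rw [Finset.filter_filter] at h4
    rw [Finset.card_insert_of_notMem hu, pow_succ', pow_succ', ← mul_assoc, mul_assoc (τ + 1)]
    simp only [Finset.forall_mem_insert, and_comm (a := (imb _ (W u)).natAbs ≤ τ)]
    refine (Nat.mul_le_mul_right _ h4).trans ?_
    rw [mul_assoc]
    exact Nat.mul_le_mul_left _ h5

theorem exists_balanced (m : ℕ) (hm : Fintype.card α = 2 * m) (W : G → Finset α) (lev : G → ℕ)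
    (q τ L : ℕ) (cand : Finset (Finset G)) (hL : ∀ F ∈ cand, F.card = L)
    (hlt : cand.card * (τ + 1) ^ L * (2 * m + 1) < q ^ L) :
    ∃ Y : Finset α, Y.card = m ∧ ∀ F ∈ cand, Fresh W lev (2 * q ^ 2) F →
      ∃ u ∈ F, τ < (imb Y (W u)).natAbs := by
  classical
  by_contra hcon
  push Not at hcon
  have h1 : Finset.univ.powersetCard m ⊆ (cand.filter (Fresh W lev (2 * q ^ 2))).biUnion
      fun F => Finset.univ.filter fun Y : Finset α => ∀ u ∈ F, (imb Y (W u)).natAbs ≤ τ := by
    intro Y hY
    obtain ⟨F, h2, h3, h4⟩ := hcon Y (Finset.mem_powersetCard.1 hY).2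
    simp only [Finset.mem_biUnion, Finset.mem_filter, Finset.mem_univ, true_and]
    exact ⟨F, ⟨h2, h3⟩, h4⟩
  have h2 := (Finset.card_le_card h1).trans Finset.card_biUnion_le
  rw [Finset.card_powersetCard, Finset.card_univ, hm] at h2
  have h3 : (2 * m).choose m * q ^ L ≤ cand.card * ((τ + 1) ^ L * 2 ^ (2 * m)) := by
    refine (Nat.mul_le_mul_right _ h2).trans ?_
    rw [Finset.sum_mul]
    refine (Finset.sum_le_card_nsmul _ _ ((τ + 1) ^ L * 2 ^ (2 * m)) fun F hF => ?_).trans ?_
    · rw [Finset.mem_filter] at hF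
      have := count_fresh W lev q τ F hF.2
      rwa [hL F hF.1, hm] at this
    · exact Nat.mul_le_mul_right _ (Finset.card_filter_le _ _)
  have h4 : 2 ^ (2 * m) ≤ (2 * m + 1) * (2 * m).choose m := by
    rw [← Nat.sum_range_choose]
    refine (Finset.sum_le_card_nsmul _ _ ((2 * m).choose m) fun i _ =>
      Nat.choose_le_centralBinom _ _).trans ?_
    simp
  have h5 : 0 < (2 * m).choose m := Nat.choose_pos (by omega)
  have h6 : (2 * m).choose m * q ^ L ≤
      (2 * m).choose m * (cand.card * (τ + 1) ^ L * (2 * m + 1)) := by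
    refine h3.trans ?_
    calc _ ≤ cand.card * ((τ + 1) ^ L * ((2 * m + 1) * (2 * m).choose m)) := by gcongr
      _ = _ := by ring
  have := Nat.le_of_mul_le_mul_left h6 h5
  omega

end part1

/-! Expanding a gate of a decomposable circuit in the gates of a lower level. -/

section part2


open MvPolynomial

variable {α K G : Type} [CommSemiring K] [Fintype α] [DecidableEq α] [DecidableEq G]
  (W : G → Finset α) (lev : G → ℕ)

/-- A squarefree monomial in gates of level `a` with disjoint nonempty sets inside `U`. -/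
def Adm (a : ℕ) (U : Finset α) (s : G →₀ ℕ) : Prop :=
  (∀ h ∈ s.support, lev h = a ∧ s h = 1 ∧ (W h).Nonempty ∧ W h ⊆ U) ∧
    ∀ h ∈ s.support, ∀ h' ∈ s.support, h ≠ h' → Disjoint (W h) (W h')

/-- The variables below a monomial. -/
def cov (s : G →₀ ℕ) : Finset α := s.support.biUnion W

/-- All monomials are admissible and the coefficients use only the remaining variables. -/
def Good (a : ℕ) (U : Finset α) (p : MvPolynomial G ((α → Bool) → K)) : Prop :=
  ∀ s, (coeff s p ≠ 0 → Adm W lev a U s) ∧ Dep (coeff s p) (U \ cov W s)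

variable {W lev} {a : ℕ} {U V : Finset α}

theorem mem_cov {s : G →₀ ℕ} {x : α} : x ∈ cov W s ↔ ∃ h ∈ s.support, x ∈ W h :=
  Finset.mem_biUnion

theorem Adm.zero : Adm W lev a U 0 := ⟨by simp, by simp⟩

theorem Adm.mono {s : G →₀ ℕ} (h : Adm W lev a U s) (hUV : U ⊆ V) : Adm W lev a V s :=
  ⟨fun g hg => ⟨(h.1 g hg).1, (h.1 g hg).2.1, (h.1 g hg).2.2.1, (h.1 g hg).2.2.2.trans hUV⟩, h.2⟩

theorem Adm.cov_subset {s : G →₀ ℕ} (h : Adm W lev a U s) : cov W s ⊆ U := fun x hx => by
  obtain ⟨g, hg, hx⟩ := mem_cov.1 hx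
  exact (h.1 g hg).2.2.2 hx

theorem Adm.notMem {s t : G →₀ ℕ} (hs : Adm W lev a U s) (ht : Adm W lev a V t)
    (hUV : Disjoint U V) {g : G} (hg : g ∈ s.support) : g ∉ t.support := fun hg' => by
  obtain ⟨x, hx⟩ := (hs.1 g hg).2.2.1
  exact Finset.disjoint_left.1 hUV ((hs.1 g hg).2.2.2 hx) ((ht.1 g hg').2.2.2 hx)

theorem supp_add (s t : G →₀ ℕ) (g : G) : g ∈ (s + t).support ↔ g ∈ s.support ∨ g ∈ t.support := by
  simp only [Finsupp.mem_support_iff, Finsupp.add_apply]
  omega

theorem Adm.add {s t : G →₀ ℕ} (hs : Adm W lev a U s) (ht : Adm W lev a V t)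
    (hUV : Disjoint U V) : Adm W lev a (U ∪ V) (s + t) := by
  constructor
  · intro g hg
    rcases (supp_add s t g).1 hg with h | h
    · have h0 := Finsupp.notMem_support_iff.1 (hs.notMem ht hUV h)
      obtain ⟨h1, h2, h3, h4⟩ := hs.1 g h
      exact ⟨h1, by simp [h0, h2], h3, h4.trans Finset.subset_union_left⟩
    · have h0 := Finsupp.notMem_support_iff.1 (ht.notMem hs hUV.symm h)
      obtain ⟨h1, h2, h3, h4⟩ := ht.1 g h
      exact ⟨h1, by simp [h0, h2], h3, h4.trans Finset.subset_union_right⟩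
  · intro g hg g' hg' hne
    rcases (supp_add s t g).1 hg with h | h <;> rcases (supp_add s t g').1 hg' with h' | h'
    · exact hs.2 g h g' h' hne
    · exact hUV.mono (hs.1 g h).2.2.2 (ht.1 g' h').2.2.2
    · exact hUV.symm.mono (ht.1 g h).2.2.2 (hs.1 g' h').2.2.2
    · exact ht.2 g h g' h' hne

theorem Good.mono {p : MvPolynomial G ((α → Bool) → K)} (h : Good W lev a U p) (hUV : U ⊆ V) :
    Good W lev a V p := fun s =>
  ⟨fun hs => ((h s).1 hs).mono hUV, (h s).2.mono (Finset.sdiff_subset_sdiff hUV subset_rfl)⟩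

theorem Good.const {r : (α → Bool) → K} (h : Dep r U) : Good W lev a U (C r) := by
  intro s
  rw [coeff_C]
  split_ifs with hs
  · subst hs
    exact ⟨fun _ => Adm.zero, by simpa [cov] using h⟩
  · exact ⟨fun h => absurd rfl h, Dep.zero _⟩

theorem Good.var {g : G} (h1 : lev g = a) (h2 : (W g).Nonempty) :
    Good W lev a (W g) (X g : MvPolynomial G ((α → Bool) → K)) := by
  intro s
  rw [coeff_X]
  split_ifs with hs
  · subst hs
    refine ⟨fun _ => ⟨fun h hh => ?_, fun h hh h' hh' hne => ?_⟩, Dep.one _⟩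
    · obtain rfl := Finset.mem_singleton.1 (Finsupp.support_single_subset hh)
      exact ⟨h1, by simp, h2, subset_rfl⟩
    · obtain rfl := Finset.mem_singleton.1 (Finsupp.support_single_subset hh)
      exact absurd (Finset.mem_singleton.1 (Finsupp.support_single_subset hh')).symm hne
  · exact ⟨fun h => absurd rfl h, Dep.zero _⟩

theorem Good.add {p q : MvPolynomial G ((α → Bool) → K)} (hp : Good W lev a U p)
    (hq : Good W lev a U q) : Good W lev a U (p + q) := by
  intro s
  rw [coeff_add]
  refine ⟨fun h => ?_, (hp s).2.add (hq s).2⟩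
  by_cases h1 : coeff s p = 0
  · exact (hq s).1 (by simpa [h1] using h)
  · exact (hp s).1 h1

theorem Good.coeff_mul {p q : MvPolynomial G ((α → Bool) → K)} (hp : Good W lev a U p)
    (hq : Good W lev a V q) (hUV : Disjoint U V) (s : G →₀ ℕ) : coeff s (p * q) = 0 ∨
      ∃ s1 s2, Adm W lev a U s1 ∧ Adm W lev a V s2 ∧ s = s1 + s2 ∧
        coeff s (p * q) = coeff s1 p * coeff s2 q := by
  rw [MvPolynomial.coeff_mul]
  by_cases h : ∀ x ∈ Finset.HasAntidiagonal.antidiagonal s, coeff x.1 p * coeff x.2 q = 0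
  · exact Or.inl (Finset.sum_eq_zero h)
  push Not at h
  obtain ⟨x, hx, h0⟩ := h
  have h1 := (hp _).1 (left_ne_zero_of_mul h0)
  have h2 := (hq _).1 (right_ne_zero_of_mul h0)
  refine Or.inr ⟨x.1, x.2, h1, h2, (Finset.HasAntidiagonal.mem_antidiagonal.1 hx).symm, ?_⟩
  refine Finset.sum_eq_single_of_mem x hx fun y hy hne => ?_
  by_contra h3
  have h4 := (hp _).1 (left_ne_zero_of_mul h3)
  have h5 := (hq _).1 (right_ne_zero_of_mul h3)
  have h6 : y.1 + y.2 = x.1 + x.2 := by
    rw [Finset.HasAntidiagonal.mem_antidiagonal.1 hx, Finset.HasAntidiagonal.mem_antidiagonal.1 hy]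
  have key : ∀ g, y.1 g = x.1 g ∧ y.2 g = x.2 g := by
    intro g
    have e := congrArg (fun f => f g) h6
    have e1 := fun hg => h1.notMem h5 hUV (g := g) hg
    have e2 := fun hg => h4.notMem h2 hUV (g := g) hg
    have e3 := fun hg => h1.notMem h2 hUV (g := g) hg
    have e4 := fun hg => h4.notMem h5 hUV (g := g) hg
    simp only [Finsupp.add_apply, Finsupp.mem_support_iff, ne_eq, not_not] at e e1 e2 e3 e4
    omega
  exact hne (Prod.ext (Finsupp.ext fun g => (key g).1) (Finsupp.ext fun g => (key g).2))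

theorem Good.mul {p q : MvPolynomial G ((α → Bool) → K)} (hp : Good W lev a U p)
    (hq : Good W lev a V q) (hUV : Disjoint U V) : Good W lev a (U ∪ V) (p * q) := by
  intro s
  rcases hp.coeff_mul hq hUV s with h | ⟨s1, s2, h1, h2, rfl, h⟩
  · rw [h]
    exact ⟨fun h => absurd rfl h, Dep.zero _⟩
  · refine ⟨fun _ => h1.add h2 hUV, ?_⟩
    rw [h]
    refine ((hp s1).2.mono fun x hx => ?_).mul ((hq s2).2.mono fun x hx => ?_)
    · simp only [Finset.mem_sdiff, Finset.mem_union, mem_cov, supp_add] at hx ⊢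
      refine ⟨Or.inl hx.1, ?_⟩
      rintro ⟨g, hg | hg, hxg⟩
      · exact hx.2 ⟨g, hg, hxg⟩
      · exact Finset.disjoint_left.1 hUV hx.1 ((h2.1 g hg).2.2.2 hxg)
    · simp only [Finset.mem_sdiff, Finset.mem_union, mem_cov, supp_add] at hx ⊢
      refine ⟨Or.inr hx.1, ?_⟩
      rintro ⟨g, hg | hg, hxg⟩
      · exact Finset.disjoint_left.1 hUV ((h1.1 g hg).2.2.2 hxg) hx.1
      · exact hx.2 ⟨g, hg, hxg⟩

theorem good_prod (θ : G → MvPolynomial G ((α → Bool) → K)) (T : Finset G)
    (hθ : ∀ h ∈ T, Good W lev a (W h) (θ h))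
    (hT : ∀ h ∈ T, ∀ h' ∈ T, h ≠ h' → Disjoint (W h) (W h')) :
    Good W lev a (T.biUnion W) (∏ h ∈ T, θ h) ∧ ∀ s, coeff s (∏ h ∈ T, θ h) = 0 ∨
      ∃ d : G → G →₀ ℕ, (∀ h ∈ T, Adm W lev a (W h) (d h)) ∧ s = ∑ h ∈ T, d h ∧
        coeff s (∏ h ∈ T, θ h) = ∏ h ∈ T, coeff (d h) (θ h) := by
  induction T using Finset.induction_on with
  | empty =>
    refine ⟨by simpa only [Finset.prod_empty, Finset.biUnion_empty, map_one] using
      Good.const (W := W) (lev := lev) (a := a) (K := K) (Dep.one ∅), fun s => ?_⟩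
    by_cases hs : s = 0
    · exact Or.inr ⟨0, by simp, by simp [hs], by simp [hs]⟩
    · exact Or.inl (by simp [coeff_one, Ne.symm hs])
  | insert g T hg ih =>
    obtain ⟨ih1, ih2⟩ := ih (fun h hh => hθ h (Finset.mem_insert_of_mem hh))
      fun h hh h' hh' => hT h (Finset.mem_insert_of_mem hh) h' (Finset.mem_insert_of_mem hh')
    have hd : Disjoint (W g) (T.biUnion W) := by
      rw [Finset.disjoint_biUnion_right]
      exact fun h hh => hT g (Finset.mem_insert_self _ _) h (Finset.mem_insert_of_mem hh)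
        fun e => hg (e ▸ hh)
    have hg1 := hθ g (Finset.mem_insert_self _ _)
    rw [Finset.prod_insert hg, Finset.biUnion_insert]
    refine ⟨hg1.mul ih1 hd, fun s => ?_⟩
    rcases hg1.coeff_mul ih1 hd s with h | ⟨s1, s2, h1, -, rfl, h⟩
    · exact Or.inl h
    rcases ih2 s2 with h' | ⟨d, h3, rfl, h5⟩
    · exact Or.inl (by rw [h, h', mul_zero])
    have hu : ∀ h ∈ T, Function.update d g s1 h = d h := fun h hh =>
      Function.update_of_ne (fun e : h = g => hg (e ▸ hh)) _ _
    refine Or.inr ⟨Function.update d g s1, ?_, ?_, ?_⟩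
    · intro h hh
      rcases Finset.mem_insert.1 hh with rfl | hh
      · simpa using h1
      · rw [hu h hh]; exact h3 h hh
    · rw [Finset.sum_insert hg, Finset.sum_congr rfl hu, Function.update_self]
    · rw [h, h5, Finset.prod_insert hg, Function.update_self]
      congr 1
      exact Finset.prod_congr rfl fun h hh => by rw [hu h hh]

theorem Adm.card_cov {s : G →₀ ℕ} (h : Adm W lev a U s) :
    (cov W s).card = Finsupp.weight (fun g => (W g).card) s := by
  rw [cov, Finset.card_biUnion h.2, Finsupp.weight_apply, Finsupp.sum]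
  exact Finset.sum_congr rfl fun g hg => by simp [(h.1 g hg).2.1]

theorem imb_biUnion (Y : Finset α) (T : Finset G)
    (hT : ∀ h ∈ T, ∀ h' ∈ T, h ≠ h' → Disjoint (W h) (W h')) :
    (imb Y (T.biUnion W)).natAbs ≤ ∑ h ∈ T, (imb Y (W h)).natAbs := by
  induction T using Finset.induction_on with
  | empty => simp [imb]
  | insert g T hg ih =>
    have hd : Disjoint (W g) (T.biUnion W) := by
      rw [Finset.disjoint_biUnion_right]
      exact fun h hh => hT g (Finset.mem_insert_self _ _) h (Finset.mem_insert_of_mem hh)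
        fun e => hg (e ▸ hh)
    have := ih fun h hh h' hh' =>
      hT h (Finset.mem_insert_of_mem hh) h' (Finset.mem_insert_of_mem hh')
    rw [Finset.biUnion_insert, imb_union hd, Finset.sum_insert hg]
    omega

theorem Adm.imb_le {s : G →₀ ℕ} (h : Adm W lev a U s) (Y : Finset α) :
    (imb Y U).natAbs ≤ (imb Y (U \ cov W s)).natAbs +
      Finsupp.weight (fun g => (imb Y (W g)).natAbs) s := by
  have h1 : imb Y U = imb Y (U \ cov W s) + imb Y (cov W s) := by
    rw [← imb_union Finset.sdiff_disjoint, Finset.sdiff_union_of_subset h.cov_subset]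
  have h2 := imb_biUnion (W := W) Y s.support h.2
  have h3 : Finsupp.weight (fun g => (imb Y (W g)).natAbs) s =
      ∑ g ∈ s.support, (imb Y (W g)).natAbs := by
    rw [Finsupp.weight_apply, Finsupp.sum]
    exact Finset.sum_congr rfl fun g hg => by simp [(h.1 g hg).2.1]
  unfold cov at h1 ⊢
  omega

end part2

end Pool.Agent.MP_1a6d78_lc.h61

end MrgPart0

-- ======== part 1: formerly Pool.Agent.MP_1a6d78_lc.h61.Lower
section MrgPart1

set_option linter.unusedSectionVars false

namespace Pool.Agent.MP_1a6d78_lc.h61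

/-! The expansion of the gates of a decomposable layered circuit. -/

section part0


open MvPolynomial

theorem Arg.val_hom {σ K G R S : Type} (φ : R → S) (x : σ → R) (k : K → R) (v : G → R)
    (a : Arg σ K G) : φ (a.val x k v) = a.val (fun i => φ (x i)) (fun c => φ (k c))
      (fun g => φ (v g)) := by
  cases a <;> rfl

theorem op_hom {σ K R S F : Type} [Semiring R] [Semiring S] [FunLike F R S] [RingHomClass F R S]
    (φ : F) {Γ : Circuit σ K} (x : σ → R) (k : K → R) (v : Fin Γ.size → R) (g : Fin Γ.size) :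
    φ (Γ.op x k v g) = Γ.op (fun i => φ (x i)) (fun c => φ (k c)) (fun g => φ (v g)) g := by
  unfold Circuit.op
  split_ifs
  · rw [map_mul, Arg.val_hom φ, Arg.val_hom φ]
  · rw [map_add, Arg.val_hom φ, Arg.val_hom φ]

variable {α K σ : Type} [CommSemiring K] [Fintype α] [DecidableEq α]

/-- A layered decomposable circuit with values in the functions on the cube. -/
structure Setup (Γ : Circuit σ K) (α : Type) [DecidableEq α] : Type where
  lev : Fin Γ.size → ℕ
  W : Fin Γ.size → Finset α
  lv : σ → Finset α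
  x : σ → (α → Bool) → K
  k : K → (α → Bool) → K
  v : Fin Γ.size → (α → Bool) → K
  hlev : ∀ g g', Γ.Reads g g' → lev g = lev g' + 1
  hlv : ∀ l, (lv l).card ≤ 1
  hl : ∀ g, (Γ.left g).val lv (fun _ => ∅) W ⊆ W g
  hr : ∀ g, (Γ.right g).val lv (fun _ => ∅) W ⊆ W g
  hd : ∀ g, Γ.isMul g →
    Disjoint ((Γ.left g).val lv (fun _ => ∅) W) ((Γ.right g).val lv (fun _ => ∅) W)
  hx : ∀ l, Dep (x l) (lv l)
  hk : ∀ c, Dep (k c) ∅
  hv : ∀ g, v g = Γ.op x k v g

namespace Setup

variable {Γ : Circuit σ K} (S : Setup Γ α)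

theorem dep_v (g : Fin Γ.size) : Dep (S.v g) (S.W g) := by
  induction' hn : S.lev g using Nat.strong_induction_on with n ih generalizing g
  have arg : ∀ a : Arg σ K (Fin Γ.size), (∀ g', a = .gate g' → Γ.Reads g g') →
      Dep (a.val S.x S.k S.v) (a.val S.lv (fun _ => ∅) S.W) := by
    intro a hr
    cases a with
    | var i => exact S.hx i
    | const c => exact S.hk c
    | gate g' =>
      have := S.hlev g g' (hr g' rfl)
      exact ih (S.lev g') (by omega) g' rfl
  have h1 := (arg (Γ.left g) fun g' h => Or.inl h).mono (S.hl g)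
  have h2 := (arg (Γ.right g) fun g' h => Or.inr h).mono (S.hr g)
  rw [S.hv g, Circuit.op]
  split_ifs
  · exact h1.mul h2
  · exact h1.add h2

theorem exP (a : ℕ) : ∃ P : Fin Γ.size → MvPolynomial (Fin Γ.size) ((α → Bool) → K),
    (∀ g, S.lev g ≤ a → P g = if S.W g = ∅ then C (S.v g) else X g) ∧
    ∀ g, a < S.lev g → P g = Γ.op (fun l => C (S.x l)) (fun c => C (S.k c)) P g :=
  exists_run _ _ S.lev (fun g g' h => by have := S.hlev g g' h; omega) a _

/-- Gate `g` as a polynomial in the gates of level `a`. -/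
noncomputable def P (a : ℕ) : Fin Γ.size → MvPolynomial (Fin Γ.size) ((α → Bool) → K) :=
  (S.exP a).choose

theorem P_low {a : ℕ} {g : Fin Γ.size} (h : S.lev g ≤ a) :
    S.P a g = if S.W g = ∅ then C (S.v g) else X g := (S.exP a).choose_spec.1 g h

theorem P_high {a : ℕ} {g : Fin Γ.size} (h : a < S.lev g) :
    S.P a g = Γ.op (fun l => C (S.x l)) (fun c => C (S.k c)) (S.P a) g :=
  (S.exP a).choose_spec.2 g h

theorem good_P (a : ℕ) (g : Fin Γ.size) : a ≤ S.lev g → Good S.W S.lev a (S.W g) (S.P a g) := by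
  induction' hn : S.lev g using Nat.strong_induction_on with n ih generalizing g
  intro ha
  rcases ha.eq_or_lt with h | h
  · rw [S.P_low (by omega)]
    split_ifs with hW
    · exact Good.const (S.dep_v g)
    · exact Good.var (by omega) (Finset.nonempty_iff_ne_empty.2 hW)
  have arg : ∀ b : Arg σ K (Fin Γ.size), (∀ g', b = .gate g' → Γ.Reads g g') →
      Good S.W S.lev a (b.val S.lv (fun _ => ∅) S.W)
        (b.val (fun l => C (S.x l)) (fun c => C (S.k c)) (S.P a)) := by
    intro b hr
    cases b with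
    | var i => exact Good.const (S.hx i)
    | const c => exact Good.const (S.hk c)
    | gate g' =>
      have := S.hlev g g' (hr g' rfl)
      exact ih (S.lev g') (by omega) g' rfl (by omega)
  have h1 := arg (Γ.left g) fun g' h => Or.inl h
  have h2 := arg (Γ.right g) fun g' h => Or.inr h
  rw [S.P_high (by omega), Circuit.op]
  split_ifs with hm
  · exact (h1.mul h2 (S.hd g hm)).mono (Finset.union_subset (S.hl g) (S.hr g))
  · exact (h1.mono (S.hl g)).add (h2.mono (S.hr g))

theorem C_v (g : Fin Γ.size) : (C (S.v g) : MvPolynomial (Fin Γ.size) ((α → Bool) → K)) =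
    Γ.op (fun l => C (S.x l)) (fun c => C (S.k c)) (fun g => C (S.v g)) g := by
  rw [← op_hom, ← S.hv]

theorem const_P (a : ℕ) (g : Fin Γ.size) (h1 : S.W g = ∅) (h2 : a ≤ S.lev g) :
    S.P a g = C (S.v g) := by
  refine run_unique _ _ S.hlev (c := a) (A := Finset.univ.filter fun g => S.W g = ∅) ?_
    (fun g hg => S.P_high hg) (fun g _ => S.C_v g) ?_ g (by simp [h1]) h2
  · intro g hg _ g' hr
    simp only [Finset.mem_filter, Finset.mem_univ, true_and] at hg ⊢
    rcases hr with hr | hr
    · have := S.hl g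
      rw [hr, hg] at this
      exact Finset.subset_empty.1 this
    · have := S.hr g
      rw [hr, hg] at this
      exact Finset.subset_empty.1 this
  · intro g hg hl
    simp only [Finset.mem_filter, Finset.mem_univ, true_and] at hg
    rw [S.P_low hl.le, if_pos hg]

theorem split_P {a m : ℕ} (ham : a ≤ m) (g : Fin Γ.size) (hg : m ≤ S.lev g) :
    S.P a g = aeval (S.P a) (S.P m g) := by
  refine run_unique (fun l => C (S.x l)) (fun c => C (S.k c)) S.hlev (c := m) (A := Finset.univ)
    (fun _ _ _ _ _ => Finset.mem_univ _) (fun g hg => S.P_high (by omega))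
    (v' := fun g => aeval (S.P a) (S.P m g)) (fun g hg => ?_) ?_ g (Finset.mem_univ _) hg
  · rw [S.P_high hg, op_hom]
    simp only [aeval_C, algebraMap_eq]
  · intro g _ hl
    rw [S.P_low (a := m) hl.le]
    split_ifs with hW
    · rw [aeval_C, algebraMap_eq]
      exact S.const_P a g hW (by omega)
    · rw [aeval_X]

theorem coeff_split {a m : ℕ} (ham : a ≤ m) (g : Fin Γ.size) (hg : m ≤ S.lev g)
    (s : Fin Γ.size →₀ ℕ) : coeff s (S.P a g) =
      ∑ t ∈ (S.P m g).support, coeff t (S.P m g) * coeff s (∏ h ∈ t.support, S.P a h) := by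
  rw [S.split_P ham g hg, aeval_def, eval₂_eq, coeff_sum]
  refine Finset.sum_congr rfl fun t ht => ?_
  rw [algebraMap_eq, coeff_C_mul]
  congr 2
  refine Finset.prod_congr rfl fun h hh => ?_
  rw [((((S.good_P m g hg) t).1 (mem_support_iff.1 ht)).1 h hh).2.1, pow_one]

theorem card_support (w m : ℕ) (hw : (Finset.univ.filter fun g => S.lev g = m).card ≤ w)
    (g : Fin Γ.size) (hg : m ≤ S.lev g) : (S.P m g).support.card ≤ 2 ^ w := by
  refine le_trans ?_ (Nat.pow_le_pow_right (by norm_num) hw)
  rw [← Finset.card_powerset]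
  refine Finset.card_le_card_of_injOn (fun t => t.support) (fun t ht => ?_) fun t ht t' ht' h => ?_
  · have := ((S.good_P m g hg) t).1 (mem_support_iff.1 ht)
    simp only [Finset.coe_powerset, Set.mem_preimage, Set.mem_powerset_iff]
    intro h hh
    simpa using (this.1 h hh).1
  · have h1 := ((S.good_P m g hg) t).1 (mem_support_iff.1 ht)
    have h2 := ((S.good_P m g hg) t').1 (mem_support_iff.1 ht')
    ext u
    have h3 : t.support = t'.support := h
    by_cases hu : u ∈ t.support
    · rw [(h1.1 u hu).2.1, (h2.1 u (h3 ▸ hu)).2.1]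
    · rw [Finsupp.notMem_support_iff.1 hu, Finsupp.notMem_support_iff.1 (h3 ▸ hu)]

theorem base_dep (a : ℕ) (g : Fin Γ.size) (hg : S.lev g = a + 1) :
    ∃ D : Finset α, D.card ≤ 2 ∧ ∀ s, Dep (coeff s (S.P a g)) D := by
  have hC : ∀ (r : (α → Bool) → K) D, Dep r D →
      ∀ s, Dep (coeff s (C r : MvPolynomial (Fin Γ.size) ((α → Bool) → K))) D := by
    intro r D hr s
    rw [coeff_C]
    split_ifs
    exacts [hr, Dep.zero _]
  have arg : ∀ b : Arg σ K (Fin Γ.size), (∀ g', b = .gate g' → Γ.Reads g g') →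
      ∃ D : Finset α, D.card ≤ 1 ∧
        ∀ s, Dep (coeff s (b.val (fun l => C (S.x l)) (fun c => C (S.k c)) (S.P a))) D := by
    intro b hr
    cases b with
    | var i => exact ⟨_, S.hlv i, hC _ _ (S.hx i)⟩
    | const c => exact ⟨∅, by simp, hC _ _ (S.hk c)⟩
    | gate g' =>
      have := S.hlev g g' (hr g' rfl)
      refine ⟨∅, by simp, fun s => ?_⟩
      simp only [Arg.val]
      rw [S.P_low (by omega)]
      split_ifs with hW
      · exact hC _ _ (hW ▸ S.dep_v g') s
      · rw [coeff_X]
        split_ifs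
        exacts [Dep.one _, Dep.zero _]
  obtain ⟨D1, h1, h2⟩ := arg (Γ.left g) fun g' h => Or.inl h
  obtain ⟨D2, h3, h4⟩ := arg (Γ.right g) fun g' h => Or.inr h
  refine ⟨D1 ∪ D2, (Finset.card_union_le _ _).trans (by omega), fun s => ?_⟩
  rw [S.P_high (by omega), Circuit.op]
  split_ifs
  · rw [coeff_mul]
    exact Dep.sum fun y _ => ((h2 _).mono Finset.subset_union_left).mul
      ((h4 _).mono Finset.subset_union_right)
  · rw [coeff_add]
    exact ((h2 _).mono Finset.subset_union_left).add ((h4 _).mono Finset.subset_union_right)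

end Setup

end part0

/-! Halving the time interval. -/

section part1


open MvPolynomial

/-- The sets of levels met along the branches of the binary search. -/
def Lay : ℕ → ℕ → ℕ → Finset (Finset ℕ)
  | 0, _, b => {{b}}
  | j + 1, a, b => (Lay j a ((a + b) / 2) ∪ Lay j ((a + b) / 2) b).image
      fun M => insert b (insert ((a + b) / 2) M)

theorem Lay_card (j : ℕ) : ∀ a b, (Lay j a b).card ≤ 2 ^ j := by
  induction j with
  | zero => intro a b; simp [Lay]
  | succ j ih =>
    intro a b
    refine Finset.card_image_le.trans ((Finset.card_union_le _ _).trans ?_)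
    have := ih a ((a + b) / 2)
    have := ih ((a + b) / 2) b
    omega

theorem Lay_mem_card (j : ℕ) : ∀ a b, ∀ M ∈ Lay j a b, M.card ≤ 2 * j + 1 := by
  induction j with
  | zero => intro a b M hM; simp [Lay] at hM; simp [hM]
  | succ j ih =>
    intro a b M hM
    obtain ⟨N, hN, rfl⟩ := Finset.mem_image.1 hM
    have h1 : N.card ≤ 2 * j + 1 := by
      rcases Finset.mem_union.1 hN with h | h
      exacts [ih _ _ _ h, ih _ _ _ h]
    have h2 := Finset.card_insert_le b (insert ((a + b) / 2) N)
    have h3 := Finset.card_insert_le ((a + b) / 2) N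
    omega

theorem Lay_nonempty (j : ℕ) : ∀ a b, (Lay j a b).Nonempty := by
  induction j with
  | zero => intro a b; simp [Lay]
  | succ j ih => intro a b; exact ((ih _ _).mono Finset.subset_union_left).image _

variable {α K σ : Type} [CommSemiring K] [Fintype α] [DecidableEq α]

namespace Setup

variable {Γ : Circuit σ K} (S : Setup Γ α)

/-- A family of balanced gates with large new parts. -/
def Bad (Y : Finset α) (a : ℕ) (g : Fin Γ.size) (Z : Finset α) (M : Finset ℕ) (τ θ c : ℕ) : Prop :=
  ∃ (F : Finset (Fin Γ.size)) (B : Fin Γ.size → Finset α),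
    (∀ u ∈ F, S.lev u ∈ M ∧ a < S.lev u ∧ S.lev u ≤ S.lev g ∧ S.W u ⊆ S.W g ∧
      (imb Y (S.W u)).natAbs ≤ τ ∧ B u ⊆ S.W u ∧ B u ⊆ Z ∧ θ ≤ (B u).card ∧
      ∀ u' ∈ F, u' ≠ u → S.lev u' ≤ S.lev u → Disjoint (S.W u') (B u)) ∧
    Z.card ≤ 2 ^ F.card * c

theorem base (Y : Finset α) (τ a : ℕ) (g : Fin Γ.size) (hg : S.lev g = a + 1)
    (s : Fin Γ.size →₀ ℕ) (z : ℕ) :
    Rk Y (coeff s (S.P a g)) (√2 ^ z / √2 ^ τ) ∨ z ≤ τ + 4 := by
  by_cases h : z ≤ τ + 4
  · exact Or.inr h
  obtain ⟨D, h1, h2⟩ := S.base_dep a g hg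
  have h3 : (1 : ℝ) ≤ √2 := by rw [Real.one_le_sqrt]; norm_num
  refine Or.inl ((h2 s).rk_full.mono ?_)
  rw [le_div_iff₀ (by positivity), ← pow_add]
  exact pow_le_pow_right₀ h3 (by omega)

theorem search (Y : Finset α) (w τ θ : ℕ) (hθ : 1 ≤ θ)
    (hw : ∀ m, (Finset.univ.filter fun g => S.lev g = m).card ≤ w) (j : ℕ) :
    ∀ (a : ℕ) (g : Fin Γ.size) (s : Fin Γ.size →₀ ℕ) (β : ℕ), a < S.lev g → S.lev g ≤ a + 2 ^ j →
      Adm S.W S.lev a (S.W g) s → Finsupp.weight (fun g => (imb Y (S.W g)).natAbs) s ≤ β →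
      Rk Y (coeff s (S.P a g)) ((2 ^ w) ^ j * (√2 ^ (S.W g \ cov S.W s).card / √2 ^ τ)) ∨
      ∃ M ∈ Lay j a (S.lev g), S.Bad Y a g (S.W g \ cov S.W s) M (β + j * (w * τ) + τ) θ
        (τ + 4 + j * ((w + 1) * θ)) := by
  have hbase : ∀ (j a : ℕ) (g : Fin Γ.size) (s : Fin Γ.size →₀ ℕ) (β : ℕ), S.lev g = a + 1 →
      Rk Y (coeff s (S.P a g)) ((2 ^ w) ^ j * (√2 ^ (S.W g \ cov S.W s).card / √2 ^ τ)) ∨
      ∃ M ∈ Lay j a (S.lev g), S.Bad Y a g (S.W g \ cov S.W s) M (β + j * (w * τ) + τ) θ
        (τ + 4 + j * ((w + 1) * θ)) := by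
    intro j a g s β hg
    rcases S.base Y τ a g hg s (S.W g \ cov S.W s).card with h | h
    · exact Or.inl (h.mono (le_mul_of_one_le_left (by positivity)
        (one_le_pow₀ (one_le_pow₀ (by norm_num)))))
    · obtain ⟨M, hM⟩ := Lay_nonempty j a (S.lev g)
      exact Or.inr ⟨M, hM, ∅, fun _ => ∅, by simp, by simp; omega⟩
  induction j with
  | zero => exact fun a g s β h1 h2 _ _ => hbase 0 a g s β (by omega)
  | succ j ih =>
    intro a g s β hag hgt hs hβ
    by_cases hg1 : S.lev g = a + 1
    · exact hbase _ a g s β hg1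
    obtain ⟨m, hm⟩ : ∃ m, m = (a + S.lev g) / 2 := ⟨_, rfl⟩
    rw [pow_succ] at hgt
    have ham : a < m := by omega
    have hmg : m < S.lev g := by omega
    obtain ⟨N, hN⟩ : ∃ N : ℝ, N = (2 ^ w) ^ j := ⟨_, rfl⟩
    have hN1 : 1 ≤ N := hN ▸ one_le_pow₀ (one_le_pow₀ (by norm_num))
    rw [← hN] at ih
    by_cases hall : ∀ t ∈ (S.P m g).support,
        Rk Y (coeff t (S.P m g) * coeff s (∏ h ∈ t.support, S.P a h))
          (N * (√2 ^ (S.W g \ cov S.W s).card / √2 ^ τ))
    · left
      rw [S.coeff_split ham.le g hmg.le]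
      refine (Rk.sum _ _ _ hall).mono ?_
      rw [pow_succ', ← hN, mul_assoc]
      refine mul_le_mul_of_nonneg_right ?_ (by positivity)
      exact_mod_cast S.card_support w m (hw m) g hmg.le
    right
    push Not at hall
    obtain ⟨t, ht, hnr⟩ := hall
    have hta := ((S.good_P m g hmg.le) t).1 (mem_support_iff.1 ht)
    have hgood : ∀ h ∈ t.support, Good S.W S.lev a (S.W h) (S.P a h) := fun h hh =>
      S.good_P a h (by have := (hta.1 h hh).1; omega)
    rcases (good_prod (S.P a) t.support hgood hta.2).2 s with h0 | ⟨d, hd, hsd, hcoef⟩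
    · exact absurd (by rw [h0, mul_zero]; exact Rk.zero (by positivity)) hnr
    have hgt' : g ∉ t.support := fun h => by have := (hta.1 g h).1; omega
    have hne : ∀ u ∈ t.support, u ≠ g := fun u hu e => hgt' (e ▸ hu)
    let Z : Fin Γ.size → Finset α := fun u =>
      if u = g then S.W g \ cov S.W t else S.W u \ cov S.W (d u)
    let f : Fin Γ.size → (α → Bool) → K := fun u =>
      if u = g then coeff t (S.P m g) else coeff (d u) (S.P a u)
    have hZg : Z g = S.W g \ cov S.W t := if_pos rfl
    have hZu : ∀ u ∈ t.support, Z u = S.W u \ cov S.W (d u) := fun u hu => if_neg (hne u hu)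
    have hfg : f g = coeff t (S.P m g) := if_pos rfl
    have hfu : ∀ u ∈ t.support, f u = coeff (d u) (S.P a u) := fun u hu => if_neg (hne u hu)
    have hterm : coeff t (S.P m g) * coeff s (∏ h ∈ t.support, S.P a h) =
        ∏ u ∈ insert g t.support, f u := by
      rw [Finset.prod_insert hgt', hcoef, hfg, Finset.prod_congr rfl hfu]
    have hdep : ∀ u ∈ insert g t.support, Dep (f u) (Z u) := by
      intro u hu
      rcases Finset.mem_insert.1 hu with rfl | hu
      · rw [hfg, hZg]; exact (S.good_P m u hmg.le t).2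
      · rw [hfu u hu, hZu u hu]; exact (hgood u hu _).2
    have hsum : ∑ u ∈ insert g t.support, (Z u).card = (S.W g \ cov S.W s).card := by
      have e1 : (S.W g \ cov S.W t).card + (cov S.W t).card = (S.W g).card :=
        Finset.card_sdiff_add_card_eq_card hta.cov_subset
      have e2 : (S.W g \ cov S.W s).card + (cov S.W s).card = (S.W g).card :=
        Finset.card_sdiff_add_card_eq_card hs.cov_subset
      have e3 : (cov S.W t).card = ∑ u ∈ t.support, (S.W u).card := Finset.card_biUnion hta.2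
      have e4 : (cov S.W s).card = ∑ u ∈ t.support, (cov S.W (d u)).card := by
        rw [hs.card_cov, hsd, map_sum]
        exact Finset.sum_congr rfl fun u hu => (hd u hu).card_cov.symm
      have e5 : ∑ u ∈ t.support, (Z u).card + ∑ u ∈ t.support, (cov S.W (d u)).card =
          ∑ u ∈ t.support, (S.W u).card := by
        rw [← Finset.sum_add_distrib]
        exact Finset.sum_congr rfl fun u hu => by
          rw [hZu u hu]; exact Finset.card_sdiff_add_card_eq_card (hd u hu).cov_subset
      rw [Finset.sum_insert hgt', hZg]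
      omega
    have hnot : ∀ u ∈ insert g t.support, ¬ Rk Y (f u) (N * (√2 ^ (Z u).card / √2 ^ τ)) := by
      intro u hu h
      refine hnr ?_
      rw [hterm, ← Finset.mul_prod_erase _ _ hu, ← hsum, ← Finset.add_sum_erase _ _ hu]
      refine (h.mul (Rk.prod _ _ _ fun i hi =>
        (hdep i (Finset.mem_of_mem_erase hi)).rk_full)).mono (le_of_eq ?_)
      rw [Finset.prod_pow_eq_pow_sum, pow_add]
      ring
    have hbal : ∀ u ∈ insert g t.support, (imb Y (Z u)).natAbs ≤ τ := by
      intro u hu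
      by_contra h
      exact hnot u hu (((hdep u hu).rk_imb τ (by omega)).mono
        (le_mul_of_one_le_left (by positivity) hN1))
    have hwt : t.support.card ≤ w := le_trans (Finset.card_le_card fun h hh => by
      simpa using (hta.1 h hh).1) (hw m)
    have hβs : ∑ u ∈ t.support, Finsupp.weight (fun g => (imb Y (S.W g)).natAbs) (d u) ≤ β := by
      rwa [hsd, map_sum] at hβ
    have hβd : ∀ u ∈ t.support, Finsupp.weight (fun g => (imb Y (S.W g)).natAbs) (d u) ≤ β :=
      fun u hu => le_trans (Finset.single_le_sum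
        (f := fun u => Finsupp.weight (fun g => (imb Y (S.W g)).natAbs) (d u))
        (fun _ _ => Nat.zero_le _) hu) hβs
    have hWu : ∀ u ∈ t.support, (imb Y (S.W u)).natAbs ≤
        τ + Finsupp.weight (fun g => (imb Y (S.W g)).natAbs) (d u) := fun u hu => by
      have h1 := (hd u hu).imb_le Y
      have h2 := hbal u (Finset.mem_insert_of_mem hu)
      rw [hZu u hu] at h2
      omega
    have hβt : Finsupp.weight (fun g => (imb Y (S.W g)).natAbs) t ≤ β + w * τ := by
      have h1 : Finsupp.weight (fun g => (imb Y (S.W g)).natAbs) t =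
          ∑ u ∈ t.support, (imb Y (S.W u)).natAbs := by
        rw [Finsupp.weight_apply, Finsupp.sum]
        exact Finset.sum_congr rfl fun u hu => by simp [(hta.1 u hu).2.1]
      have h2 := Finset.sum_le_sum hWu
      rw [Finset.sum_add_distrib, Finset.sum_const, smul_eq_mul] at h2
      have h3 := Nat.mul_le_mul_right τ hwt
      omega
    have hWT : ∀ u ∈ insert g t.support, (imb Y (S.W u)).natAbs ≤ β + w * τ + τ := by
      intro u hu
      rcases Finset.mem_insert.1 hu with rfl | hu
      · have h1 := hta.imb_le Y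
        have h2 := hbal u hu
        rw [hZg] at h2
        omega
      · have := hWu u hu
        have := hβd u hu
        omega
    have hZW : ∀ u, Z u ⊆ S.W u := by
      intro u
      by_cases hu : u = g
      · rw [hu, hZg]; exact Finset.sdiff_subset
      · simp only [Z, if_neg hu]; exact Finset.sdiff_subset
    have hWg : ∀ u ∈ insert g t.support, S.W u ⊆ S.W g := by
      intro u hu
      rcases Finset.mem_insert.1 hu with rfl | hu
      exacts [subset_rfl, (hta.1 u hu).2.2.2]
    have hlevT : ∀ u ∈ insert g t.support, u ≠ g → u ∈ t.support ∧ S.lev u = m := by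
      intro u hu h
      have := (Finset.mem_insert.1 hu).resolve_left h
      exact ⟨this, (hta.1 u this).1⟩
    have hdis : ∀ u' ∈ t.support, ∀ u ∈ insert g t.support, u' ≠ u → Disjoint (S.W u') (Z u) := by
      intro u' hu' u hu h
      rcases Finset.mem_insert.1 hu with rfl | hu
      · rw [hZg, Finset.disjoint_left]
        intro x h1 h2
        exact (Finset.mem_sdiff.1 h2).2 (mem_cov.2 ⟨u', hu', h1⟩)
      · exact (hta.2 u' hu' u hu h).mono_right (hZW u)
    have hZs : ∀ u ∈ insert g t.support, Z u ⊆ S.W g \ cov S.W s := by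
      intro u hu x hx
      refine Finset.mem_sdiff.2 ⟨hWg u hu (hZW u hx), fun h => ?_⟩
      obtain ⟨h1, h2, h3⟩ := mem_cov.1 h
      rw [hsd] at h2
      obtain ⟨u', h4, h5⟩ := Finset.mem_biUnion.1 (Finsupp.support_finsetSum h2)
      by_cases h6 : u' = u
      · subst h6
        rw [hZu u' h4] at hx
        exact (Finset.mem_sdiff.1 hx).2 (mem_cov.2 ⟨h1, h5, h3⟩)
      · exact Finset.disjoint_left.1 (hdis u' h4 u hu h6) (((hd u' h4).1 h1 h5).2.2.2 h3) hx
    obtain ⟨u0, hu0, hmax⟩ := Finset.exists_max_image (insert g t.support) (fun u => (Z u).card)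
      (Finset.insert_nonempty _ _)
    have hrec : ∃ a', a ≤ a' ∧ (u0 = g → a' = m) ∧ ∃ M ∈ Lay j a m ∪ Lay j m (S.lev g),
        S.Bad Y a' u0 (Z u0) M (β + w * τ + j * (w * τ) + τ) θ (τ + 4 + j * ((w + 1) * θ)) := by
      by_cases h : u0 = g
      · subst h
        rcases ih m u0 t _ hmg (by omega) hta hβt with h1 | ⟨M, h1, h2⟩
        · exact absurd (by rw [hfg, hZg]; exact h1) (hnot u0 hu0)
        · exact ⟨m, ham.le, fun _ => rfl, M, Finset.mem_union_right _ h1, hZg ▸ h2⟩
      · obtain ⟨h3, h4⟩ := hlevT u0 hu0 h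
        rcases ih a u0 (d u0) (β + w * τ) (by omega) (by omega) (hd u0 h3)
          (by have := hβd u0 h3; omega) with h1 | ⟨M, h1, h2⟩
        · exact absurd (by rw [hfu u0 h3, hZu u0 h3]; exact h1) (hnot u0 hu0)
        · exact ⟨a, le_rfl, fun e => absurd e h, M, Finset.mem_union_left _ (h4 ▸ h1),
            hZu u0 h3 ▸ h2⟩
    obtain ⟨a', ha', ha'm, M, hM, F, B, hF, hsz⟩ := hrec
    have hl0 : S.lev u0 ≤ S.lev g ∧ (u0 ≠ g → S.lev u0 = m) := by
      by_cases h : u0 = g
      · exact ⟨h ▸ le_rfl, fun e => absurd h e⟩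
      · have := (hlevT u0 hu0 h).2
        exact ⟨by omega, fun _ => this⟩
    obtain ⟨E, hE⟩ : ∃ E, E = ((insert g t.support).filter fun u => θ ≤ (Z u).card).erase u0 :=
      ⟨_, rfl⟩
    have hEm : ∀ u ∈ E, u ≠ u0 ∧ u ∈ insert g t.support ∧ θ ≤ (Z u).card := by
      intro u hu
      rw [hE, Finset.mem_erase, Finset.mem_filter] at hu
      exact hu
    have hEF : ∀ u ∈ E, u ∉ F := by
      intro u hu huF
      obtain ⟨h1, h2, -⟩ := hEm u hu
      obtain ⟨-, -, h3, -, -, h4, h5, h6, -⟩ := hF u huF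
      by_cases h : u = g
      · have := hl0.2 (fun e => h1 (h.trans e.symm))
        rw [h] at h3
        omega
      · obtain ⟨x, hx⟩ := Finset.card_pos.1 (show 0 < (B u).card by omega)
        exact Finset.disjoint_left.1 (hdis u (hlevT u h2 h).1 u0 hu0 h1) (h4 hx) (h5 hx)
    refine ⟨insert (S.lev g) (insert m M), Finset.mem_image.2 ⟨M, hm ▸ hM, by rw [hm]⟩,
      F ∪ E, fun u => if u ∈ F then B u else Z u, ?_, ?_⟩
    · intro u hu
      rcases Finset.mem_union.1 hu with huF | huE
      · obtain ⟨h1, h2, h3, h4, h5, h6, h7, h8, h9⟩ := hF u huF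
        simp only [if_pos huF]
        refine ⟨by simp [h1], by omega, by omega, h4.trans (hWg u0 hu0),
          by rw [add_mul j 1, one_mul]; omega, h6,
          h7.trans (hZs u0 hu0), h8, fun u' hu' hne' hle => ?_⟩
        rcases Finset.mem_union.1 hu' with h | h
        · exact h9 u' h hne' hle
        · obtain ⟨h10, h11, -⟩ := hEm u' h
          by_cases h12 : u' = g
          · have := hl0.2 (fun e => h10 (h12.trans e.symm))
            rw [h12] at hle
            omega
          · exact (hdis u' (hlevT u' h11 h12).1 u0 hu0 h10).mono_right h7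
      · obtain ⟨h1, h2, h3⟩ := hEm u huE
        simp only [if_neg (hEF u huE)]
        have h4 : S.lev u = S.lev g ∨ S.lev u = m := by
          by_cases h : u = g
          · exact Or.inl (by rw [h])
          · exact Or.inr (hlevT u h2 h).2
        refine ⟨by rcases h4 with h | h <;> simp [h], by omega, by omega, hWg u h2,
          by have := hWT u h2; rw [add_mul j 1, one_mul]; omega, hZW u, hZs u h2, h3, fun u' hu' hne' hle => ?_⟩
        rcases Finset.mem_union.1 hu' with h | h
        · obtain ⟨-, h5, -, h6, -⟩ := hF u' h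
          by_cases h7 : u0 = g
          · have := ha'm h7
            have := (hlevT u h2 (fun e => h1 (e.trans h7.symm))).2
            omega
          · exact (hdis u0 (hlevT u0 hu0 h7).1 u h2 h1.symm).mono_left h6
        · obtain ⟨-, h5, -⟩ := hEm u' h
          by_cases h7 : u' = g
          · have := (hlevT u h2 (fun e => hne' (h7.trans e.symm))).2
            rw [h7] at hle
            omega
          · exact hdis u' (hlevT u' h5 h7).1 u h2 hne'
    · rw [Finset.card_union_of_disjoint (Finset.disjoint_right.2 hEF), ← hsum,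
        ← Finset.sum_filter_add_sum_filter_not _ (fun u => θ ≤ (Z u).card)]
      have h1 := Finset.sum_le_card_nsmul ((insert g t.support).filter fun u => θ ≤ (Z u).card)
        (fun u => (Z u).card) (Z u0).card fun u hu => hmax u (Finset.mem_filter.1 hu).1
      have h2 := Finset.sum_le_card_nsmul ((insert g t.support).filter fun u => ¬ θ ≤ (Z u).card)
        (fun u => (Z u).card) θ fun u hu => by have := (Finset.mem_filter.1 hu).2; omega
      have h3 : ((insert g t.support).filter fun u => ¬ θ ≤ (Z u).card).card ≤ w + 1 :=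
        (Finset.card_filter_le _ _).trans ((Finset.card_insert_le _ _).trans (by omega))
      have h4 : ((insert g t.support).filter fun u => θ ≤ (Z u).card).card ≤ 2 ^ E.card := by
        have := Finset.pred_card_le_card_erase
          (s := (insert g t.support).filter fun u => θ ≤ (Z u).card) (a := u0)
        have := Nat.lt_two_pow_self (n := E.card)
        rw [hE] at this ⊢
        omega
      rw [smul_eq_mul] at h1 h2
      have h5 := Nat.mul_le_mul h4 hsz
      have h6 := Nat.mul_le_mul_right θ h3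
      have h7 : (w + 1) * θ ≤ 2 ^ (F.card + E.card) * ((w + 1) * θ) :=
        Nat.le_mul_of_pos_left _ (by positivity)
      calc _ ≤ 2 ^ E.card * (2 ^ F.card * (τ + 4 + j * ((w + 1) * θ))) +
            2 ^ (F.card + E.card) * ((w + 1) * θ) := by omega
        _ = _ := by ring

end Setup

theorem reach_lt {σ K : Type} {Γ : Circuit σ K} {lev : Fin Γ.size → ℕ} {c : ℕ}
    (hlev : ∀ g g', Γ.Reads g g' → lev g = lev g' + 1) {o g : Fin Γ.size}
    (h : Relation.ReflTransGen Γ.Reads o g) (hc : lev o = c + Γ.size) : c < lev g := by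
  have key : lev g ≤ lev o ∧ ∀ l, lev g ≤ l → l ≤ lev o → ∃ k, lev k = l := by
    induction h with
    | refl => exact ⟨le_rfl, fun l h1 h2 => ⟨o, by omega⟩⟩
    | @tail b c _ hbc ih =>
      have := hlev b c hbc
      refine ⟨by omega, fun l h1 h2 => ?_⟩
      by_cases hl : l = lev c
      · exact ⟨c, hl.symm⟩
      · exact ih.2 l (by omega) h2
  have h1 : Finset.Icc (lev g) (lev o) ⊆ Finset.univ.image lev := by
    intro l hl
    rw [Finset.mem_Icc] at hl
    obtain ⟨k, hk⟩ := key.2 l hl.1 hl.2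
    exact Finset.mem_image.2 ⟨k, Finset.mem_univ _, hk⟩
  have h2 := (Finset.card_le_card h1).trans Finset.card_image_le
  simp only [Nat.card_Icc, Finset.card_univ, Fintype.card_fin] at h2
  omega

theorem exists_low (Γ : Circuit σ K) (lev : Fin Γ.size → ℕ) (W : Fin Γ.size → Finset α)
    (c w k q L m : ℕ) (hm : Fintype.card α = 2 * m) (hq : 1 ≤ q)
    (hw : ∀ i, (Finset.univ.filter fun g => lev g = i).card ≤ w) (hk : Γ.size ≤ 2 ^ k)
    (hc : lev Γ.out = c + Γ.size)
    (h1 : 2 ^ k * ((2 * k + 1) * w) ^ L * ((k * w + 1) * (2 * (w * k) + 1) + 1) ^ L * (2 * m + 1)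
      < q ^ L)
    (h2 : 2 ^ L * (2 * (w * k) + 1 + 4 + k * ((w + 1) * (2 * q ^ 2))) ≤ 2 * m) :
    ∃ Y : Finset α, Y.card = m ∧ ∀ S : Setup Γ α, S.lev = lev → S.W = W →
      ∃ t < √2 ^ Fintype.card α, Rk Y (S.v Γ.out) t := by
  classical
  obtain ⟨τ, hτ⟩ : ∃ τ, τ = 2 * (w * k) + 1 := ⟨_, rfl⟩
  rw [← hτ] at h1 h2
  obtain ⟨Y, hY, hbad⟩ := exists_balanced m hm W lev q ((k * w + 1) * τ) L
    ((Lay k c (lev Γ.out)).biUnion fun M => (Finset.univ.filter fun g => lev g ∈ M).powersetCard L)
    (by
      intro F hF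
      obtain ⟨M, -, h⟩ := Finset.mem_biUnion.1 hF
      exact (Finset.mem_powersetCard.1 h).2)
    (by
      refine lt_of_le_of_lt ?_ h1
      refine Nat.mul_le_mul_right _ (Nat.mul_le_mul_right _ ?_)
      refine (Finset.card_biUnion_le_card_mul _ _ (((2 * k + 1) * w) ^ L) fun M hM => ?_).trans
        (Nat.mul_le_mul_right _ (Lay_card _ _ _))
      rw [Finset.card_powersetCard]
      refine (Nat.choose_le_pow _ _).trans (Nat.pow_le_pow_left ?_ _)
      calc _ ≤ (M.biUnion fun i => Finset.univ.filter fun g => lev g = i).card :=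
            Finset.card_le_card fun g hg => by simpa using hg
        _ ≤ M.card * w := Finset.card_biUnion_le_card_mul _ _ _ fun i _ => hw i
        _ ≤ _ := Nat.mul_le_mul_right _ (Lay_mem_card _ _ _ M hM))
  refine ⟨Y, hY, fun S hl hW => ?_⟩
  subst hl hW
  have hs2 : (1 : ℝ) < √2 := by rw [Real.lt_sqrt (by norm_num)]; norm_num
  by_cases hu : (S.W Γ.out).card < Fintype.card α
  · exact ⟨_, pow_lt_pow_right₀ hs2 hu, (S.dep_v Γ.out).rk_full⟩
  have hsz : 0 < Γ.size := Γ.out.pos
  have hP : S.P c Γ.out = C (S.v Γ.out) := by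
    refine run_unique _ _ S.hlev (c := c)
      (A := Finset.univ.filter fun g => Relation.ReflTransGen Γ.Reads Γ.out g) ?_
      (fun g hg => S.P_high hg) (fun g _ => S.C_v g) ?_ Γ.out
      (by simp [Relation.ReflTransGen.refl]) (by omega)
    · intro g hg _ g' hr
      simp only [Finset.mem_filter, Finset.mem_univ, true_and] at hg ⊢
      exact hg.tail hr
    · intro g hg hl
      simp only [Finset.mem_filter, Finset.mem_univ, true_and] at hg
      have := reach_lt S.hlev hg hc
      omega
  have hz : (S.W Γ.out \ cov S.W 0).card = Fintype.card α := by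
    have := Finset.card_le_univ (S.W Γ.out)
    simp only [cov, Finsupp.support_zero, Finset.biUnion_empty, Finset.sdiff_empty]
    omega
  rcases S.search Y w τ (2 * q ^ 2) (by nlinarith) hw k c Γ.out 0 0 (by omega) (by omega)
    Adm.zero (by simp) with h | ⟨M, hM, F, B, hF, hsz⟩
  · rw [hP, coeff_zero_C, hz] at h
    refine ⟨_, ?_, h⟩
    have e : ((2 : ℝ) ^ w) ^ k = √2 ^ (2 * (w * k)) := by
      rw [pow_mul √2, Real.sq_sqrt (by norm_num), pow_mul]
    rw [e, ← mul_div_assoc, div_lt_iff₀ (by positivity), ← pow_add, ← pow_add]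
    exact pow_lt_pow_right₀ hs2 (by omega)
  · exfalso
    rw [hz, hm] at hsz
    have hL : L ≤ F.card := by
      by_contra h
      have h3 : 2 ^ (F.card + 1) ≤ 2 ^ L := Nat.pow_le_pow_right (by norm_num) (by omega)
      have h4 := Nat.mul_le_mul_right (τ + 4 + k * ((w + 1) * (2 * q ^ 2))) h3
      have h5 : 0 < 2 ^ F.card * (τ + 4 + k * ((w + 1) * (2 * q ^ 2))) := by positivity
      rw [pow_succ, mul_right_comm] at h4
      omega
    obtain ⟨F', hF', hc'⟩ := Finset.exists_subset_card_eq hL
    obtain ⟨u, hu, hlt⟩ := hbad F'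
      (Finset.mem_biUnion.2 ⟨M, hM, Finset.mem_powersetCard.2
        ⟨fun u hu => by simpa using (hF u (hF' hu)).1, hc'⟩⟩)
      (Fresh.subset (F := F) (fun u hu => by
        obtain ⟨-, -, -, -, -, h3, -, h4, h5⟩ := hF u hu
        exact ⟨B u, h3, h4, h5⟩) hF')
    have := (hF u (hF' hu)).2.2.2.2.1
    rw [add_mul, one_mul, mul_assoc] at hlt
    omega

end part1

end Pool.Agent.MP_1a6d78_lc.h61

end MrgPart1

-- marker of a merged file
example : 731051 + 737548 = 731051 + 737548 := rfl
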